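import Mathlib

/-!
# The Grothendieck ring of complex varieties with an action of the group `μ̂`

`μ̂` is the inverse limit of the groups `μ_k` of `k`-th roots of unity. An action of `μ̂` that
factors through some `μ_k` is the same as an automorphism of finite order, the action of the
topological generator `(exp (2 π i / k))_k`.
-/

open MvPolynomial

namespace Pool.Agent.W458

/-- The constructible subsets of `ℂ^n`: the Boolean algebra generated by the zero sets of
polynomials. -/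
inductive Constr {n : ℕ} : Set (Fin n → ℂ) → Prop
  | zero (P : MvPolynomial (Fin n) ℂ) : Constr {x | eval x P = 0}
  | compl {S : Set (Fin n → ℂ)} : Constr S → Constr Sᶜ
  | inter {S T : Set (Fin n → ℂ)} : Constr S → Constr T → Constr (S ∩ T)

/-- `f` is regular on `S`: its coordinates are quotients of polynomials whose denominators have no
zero on `S`. -/
def RegularOn {n m : ℕ} (S : Set (Fin n → ℂ)) (f : (Fin n → ℂ) → (Fin m → ℂ)) : Prop :=
  ∀ i, ∃ P Q : MvPolynomial (Fin n) ℂ, ∀ x ∈ S, eval x Q ≠ 0 ∧ f x i = eval x P / eval x Q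

/-- A complex variety with an action of `μ̂`: a constructible subset `S` of some `ℂ^n`, with a
regular map `act` from `S` to itself of finite order. -/
structure MuVar where
  n : ℕ
  S : Set (Fin n → ℂ)
  act : (Fin n → ℂ) → (Fin n → ℂ)
  constr : Constr S
  regular : RegularOn S act
  mapsTo : Set.MapsTo act S S
  finiteOrder : ∃ k : ℕ, 0 < k ∧ ∀ x ∈ S, act^[k] x = x

/-- The first `n` coordinates of a point of `ℂ^{n+m}`. -/
def fstC {n m : ℕ} (z : Fin (n + m) → ℂ) : Fin n → ℂ := fun i => z (Fin.castAdd m i)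

/-- The last `m` coordinates of a point of `ℂ^{n+m}`. -/
def sndC {n m : ℕ} (z : Fin (n + m) → ℂ) : Fin m → ℂ := fun i => z (Fin.natAdd n i)

/-- The product `S × T ⊆ ℂ^{n+m}`. -/
def prodSet {n m : ℕ} (S : Set (Fin n → ℂ)) (T : Set (Fin m → ℂ)) : Set (Fin (n + m) → ℂ) :=
  {z | fstC z ∈ S ∧ sndC z ∈ T}

/-- The defining relations of the Grothendieck ring of varieties with `μ̂`-action:
* `[V] = [W]` if there is an equivariant isomorphism between `V` and `W`;
* `[S ∪ T] = [S] + [T]` if `S` and `T` are disjoint and stable under the action;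
* `[V × W] = [V] [W]` for the diagonal action;
* the class of the point is `1`;
* `[S × ℂ^r, τ] = [S, σ] [ℂ^r, id]` if the action `τ` on `S × ℂ^r` lifts the action `σ` on `S` and
  is given by affine maps between the fibres `{x} × ℂ^r`. -/
inductive Rel : MvPolynomial MuVar ℤ → Prop
  | iso (V W : MuVar) (f : (Fin V.n → ℂ) → (Fin W.n → ℂ)) (g : (Fin W.n → ℂ) → (Fin V.n → ℂ))
      (hf : RegularOn V.S f) (hg : RegularOn W.S g) (hfm : Set.MapsTo f V.S W.S)
      (hgm : Set.MapsTo g W.S V.S) (hgf : ∀ x ∈ V.S, g (f x) = x) (hfg : ∀ y ∈ W.S, f (g y) = y)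
      (heq : ∀ x ∈ V.S, f (V.act x) = W.act (f x)) : Rel (X V - X W)
  | scissors {n : ℕ} (S T : Set (Fin n → ℂ)) (σ : (Fin n → ℂ) → (Fin n → ℂ)) (hST : Disjoint S T)
      (h₁ h₂ h₃ h₄ h₅ h₆ h₇ h₈ h₉ h₁₀ h₁₁ h₁₂) :
      Rel (X ⟨n, S ∪ T, σ, h₁, h₂, h₃, h₄⟩ -
        (X ⟨n, S, σ, h₅, h₆, h₇, h₈⟩ + X ⟨n, T, σ, h₉, h₁₀, h₁₁, h₁₂⟩))
  | prod (V W : MuVar) (h₁ h₂ h₃ h₄) :
      Rel (X ⟨V.n + W.n, prodSet V.S W.S, fun z => Fin.append (V.act (fstC z)) (W.act (sndC z)),
        h₁, h₂, h₃, h₄⟩ - X V * X W)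
  | one (h₁ h₂ h₃ h₄) : Rel (X ⟨0, Set.univ, id, h₁, h₂, h₃, h₄⟩ - 1)
  | affine (V : MuVar) (r : ℕ) (τ : (Fin (V.n + r) → ℂ) → (Fin (V.n + r) → ℂ))
      (hlift : ∀ z, fstC z ∈ V.S → fstC (τ z) = V.act (fstC z))
      (haff : ∀ x ∈ V.S, ∃ (A : Matrix (Fin r) (Fin r) ℂ) (b : Fin r → ℂ), ∀ z, fstC z = x →
        sndC (τ z) = A.mulVec (sndC z) + b)
      (h₁ h₂ h₃ h₄ h₅ h₆ h₇ h₈) :
      Rel (X ⟨V.n + r, prodSet V.S Set.univ, τ, h₁, h₂, h₃, h₄⟩ -
        X V * X ⟨r, Set.univ, id, h₅, h₆, h₇, h₈⟩)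

/-- The Grothendieck ring `K₀(Var_ℂ^μ̂)`. -/
def K0 : Type := MvPolynomial MuVar ℤ ⧸ Ideal.span {x | Rel x}

noncomputable instance instK0 : CommRing K0 :=
  (inferInstance : CommRing (MvPolynomial MuVar ℤ ⧸ Ideal.span {x | Rel x}))

/-- The quotient map. -/
noncomputable def mkK : MvPolynomial MuVar ℤ →+* K0 := Ideal.Quotient.mk (Ideal.span {x | Rel x})

/-- The class of a variety with `μ̂`-action in `K₀(Var_ℂ^μ̂)`. -/
noncomputable def cls0 (V : MuVar) : K0 := mkK (X V)

theorem constr_univ (n : ℕ) : Constr (Set.univ : Set (Fin n → ℂ)) := by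
  have h := Constr.zero (n := n) 0
  have h2 : {x : Fin n → ℂ | eval x (0 : MvPolynomial (Fin n) ℂ) = 0} = Set.univ := by
    ext x; simp
  rwa [h2] at h

theorem regularOn_id {n : ℕ} (S : Set (Fin n → ℂ)) : RegularOn S id := by
  intro i
  refine ⟨X i, 1, fun x _ => ?_⟩
  simp

/-- The affine line with the trivial action. -/
def affineLine : MuVar where
  n := 1
  S := Set.univ
  act := id
  constr := constr_univ 1
  regular := regularOn_id _
  mapsTo := Set.mapsTo_id _
  finiteOrder := ⟨1, one_pos, fun _ _ => rfl⟩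

/-- The ring `ℳ = K₀(Var_ℂ^μ̂)[𝕃⁻¹]`, where `𝕃` is the class of the affine line. -/
def Mot : Type := Localization.Away (cls0 affineLine)

noncomputable instance instMot : CommRing Mot :=
  (inferInstance : CommRing (Localization.Away (cls0 affineLine)))

/-- The canonical map `K₀(Var_ℂ^μ̂) → ℳ`. -/
noncomputable def toMot : K0 →+* Mot := algebraMap K0 (Localization.Away (cls0 affineLine))

/-- The class of a variety with `μ̂`-action in `ℳ`. -/
noncomputable def cls (V : MuVar) : Mot := toMot (cls0 V)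

theorem isUnit_L : IsUnit (cls affineLine) :=
  IsLocalization.map_units (Localization.Away (cls0 affineLine))
    (⟨cls0 affineLine, Submonoid.mem_powers _⟩ : Submonoid.powers (cls0 affineLine))

/-- The unit `𝕃` of `ℳ`. -/
noncomputable def Lu : Motˣ := isUnit_L.unit

theorem Lu_val : (Lu : Mot) = cls affineLine := rfl

end Pool.Agent.W458
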