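import Mathlib

/-!
# An ultraproduct of finite fields containing the complex numbers
-/

open MvPolynomial Filter

namespace Pool.Agent.W458

/-- Pairs of a finitely generated subring of `ℂ` and one of its maximal ideals. -/
def Idx : Type := Σ A : {A : Subalgebra ℤ ℂ // A.FG}, MaximalSpectrum A.1

/-- The ring of an index. -/
abbrev Idx.ring (i : Idx) : Subalgebra ℤ ℂ := i.1.1

/-- The residue field of an index. -/
def kk (i : Idx) : Type := i.ring ⧸ i.2.asIdeal

noncomputable instance (i : Idx) : Field (kk i) :=
  letI := i.2.isMaximal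
  Ideal.Quotient.field i.2.asIdeal

/-- The residue map. -/
noncomputable def toK (i : Idx) : i.ring →+* kk i := Ideal.Quotient.mk i.2.asIdeal

theorem toK_surjective (i : Idx) : Function.Surjective (toK i) := Ideal.Quotient.mk_surjective

theorem jac_int : IsJacobsonRing ℤ := by
  rw [isJacobsonRing_iff_prime_eq]
  intro P hP
  by_cases h : P = ⊥
  · subst h
    rw [eq_bot_iff]
    intro x hx
    rw [Ideal.mem_jacobson_bot] at hx
    have h1 := hx x
    rw [Int.isUnit_iff] at h1
    rw [Ideal.mem_bot]
    rcases h1 with h1 | h1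
    · have : x * x = 0 := by linarith
      exact mul_self_eq_zero.1 this
    · exfalso
      nlinarith [mul_self_nonneg x]
  · have : P.IsMaximal := IsPrime.to_maximal_ideal h
    exact Ideal.jacobson_eq_self_of_isMaximal

/-- A field that is finitely generated as a ring is finite. -/
theorem finite_of_fin_type (S : Type*) [Field S] [Algebra.FiniteType ℤ S] : Finite S := by
  have hJ : IsJacobsonRing ℤ := jac_int
  have h1 : Module.Finite ℤ S := finite_of_finite_type_of_isJacobsonRing ℤ S
  obtain ⟨p, hp⟩ := CharP.exists S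
  rcases Nat.eq_zero_or_pos p with h2 | h2
  · exfalso
    subst h2
    have hc : CharZero S := CharP.charP_to_charZero S
    have h3 : Function.Injective (algebraMap ℤ S) := by
      have : (algebraMap ℤ S) = Int.castRingHom S := RingHom.ext_int _ _
      rw [this]
      exact RingHom.injective_int _
    have hi : Algebra.IsIntegral ℤ S := Algebra.IsIntegral.of_finite ℤ S
    have h4 : IsField ℤ := isField_of_isIntegral_of_isField h3 (Field.toIsField _)
    exact Int.not_isField h4
  · apply Module.finite_of_fg_torsion S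
    intro x
    refine ⟨⟨(p : ℤ), ?_⟩, ?_⟩
    · rw [mem_nonZeroDivisors_iff_ne_zero]
      exact_mod_cast h2.ne'
    · change (p : ℤ) • x = 0
      rw [zsmul_eq_mul]
      simp

instance (i : Idx) : Finite (kk i) := by
  have h1 : Algebra.FiniteType ℤ i.ring := (Subalgebra.fg_iff_finiteType _).1 i.1.2
  have h2 : Algebra.FiniteType ℤ (kk i) := by
    let f : i.ring →ₐ[ℤ] kk i := (toK i).toIntAlgHom
    exact h1.of_surjective f (toK_surjective i)
  exact finite_of_fin_type (kk i)

/-- The filter of sets of indices containing all indices with large ring. -/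
noncomputable def FF : Filter Idx := ⨅ s : Finset ℂ, 𝓟 {i : Idx | ∀ c ∈ s, c ∈ i.ring}

instance : NeBot FF := by
  refine Filter.iInf_neBot_of_directed' ?_ ?_
  · intro s t
    refine ⟨s ∪ t, ?_, ?_⟩
    · simp only [ge_iff_le, le_principal_iff, mem_principal]
      intro i hi c hc
      exact hi c (Finset.mem_union_left _ hc)
    · simp only [ge_iff_le, le_principal_iff, mem_principal]
      intro i hi c hc
      exact hi c (Finset.mem_union_right _ hc)
  · intro s
    rw [principal_neBot_iff]
    let A : Subalgebra ℤ ℂ := Algebra.adjoin ℤ (s : Set ℂ)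
    have hA : A.FG := Subalgebra.fg_adjoin_finset s
    obtain ⟨m⟩ : Nonempty (MaximalSpectrum A) := inferInstance
    exact ⟨⟨⟨A, hA⟩, m⟩, fun c hc => Algebra.subset_adjoin hc⟩

/-- The ultrafilter. -/
noncomputable def UU : Ultrafilter Idx := Ultrafilter.of FF

theorem eventually_mem (c : ℂ) : ∀ᶠ i in (UU : Filter Idx), c ∈ i.ring := by
  have h : {i : Idx | ∀ d ∈ ({c} : Finset ℂ), d ∈ i.ring} ∈ FF :=
    mem_iInf_of_mem {c} (mem_principal_self _)
  have h2 := (Ultrafilter.of_le FF) h
  filter_upwards [h2] with i hi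
  exact hi c (by simp)

open Classical in
/-- Reduction of a complex number. -/
noncomputable def red (i : Idx) (c : ℂ) : kk i := if h : c ∈ i.ring then toK i ⟨c, h⟩ else 0

theorem red_add (c d : ℂ) : ∀ᶠ i in (UU : Filter Idx), red i (c + d) = red i c + red i d := by
  filter_upwards [eventually_mem c, eventually_mem d] with i hc hd
  have hcd : c + d ∈ i.ring := i.ring.add_mem hc hd
  rw [red, red, red, dif_pos hc, dif_pos hd, dif_pos hcd, ← map_add]
  rfl

theorem red_mul (c d : ℂ) : ∀ᶠ i in (UU : Filter Idx), red i (c * d) = red i c * red i d := by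
  filter_upwards [eventually_mem c, eventually_mem d] with i hc hd
  have hcd : c * d ∈ i.ring := i.ring.mul_mem hc hd
  rw [red, red, red, dif_pos hc, dif_pos hd, dif_pos hcd, ← map_mul]
  rfl

theorem red_one (i : Idx) : red i 1 = 1 := by
  rw [red, dif_pos i.ring.one_mem]
  exact map_one (toK i)

theorem red_zero (i : Idx) : red i 0 = 0 := by
  rw [red, dif_pos i.ring.zero_mem]
  exact map_zero (toK i)

/-- The ideal of families vanishing almost everywhere. -/
noncomputable def idealU : Ideal (Π i, kk i) where
  carrier := {f | ∀ᶠ i in (UU : Filter Idx), f i = 0}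
  add_mem' := by
    intro f g hf hg
    filter_upwards [hf, hg] with i h1 h2
    rw [Pi.add_apply, h1, h2, add_zero]
  zero_mem' := by
    filter_upwards with i
    rfl
  smul_mem' := by
    intro c f hf
    filter_upwards [hf] with i h1
    rw [smul_eq_mul, Pi.mul_apply, h1, mul_zero]

theorem mem_idealU {f : Π i, kk i} : f ∈ idealU ↔ ∀ᶠ i in (UU : Filter Idx), f i = 0 := Iff.rfl

instance : idealU.IsPrime where
  ne_top' := by
    intro h
    have h1 : (1 : Π i, kk i) ∈ idealU := by rw [h]; trivial
    rw [mem_idealU] at h1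
    obtain ⟨i, hi⟩ := h1.exists
    exact one_ne_zero hi
  mem_or_mem' := by
    intro f g h
    rw [mem_idealU] at h
    rw [mem_idealU, mem_idealU, ← Ultrafilter.eventually_or]
    filter_upwards [h] with i hi
    exact mul_eq_zero.1 hi

/-- The ultraproduct. -/
def KS : Type := (Π i, kk i) ⧸ idealU

noncomputable instance : CommRing KS := inferInstanceAs (CommRing ((Π i, kk i) ⧸ idealU))
instance : IsDomain KS := inferInstanceAs (IsDomain ((Π i, kk i) ⧸ idealU))

/-- The class of a family. -/
noncomputable def cl : (Π i, kk i) →+* KS := Ideal.Quotient.mk idealU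

theorem cl_eq_zero {f : Π i, kk i} : cl f = 0 ↔ ∀ᶠ i in (UU : Filter Idx), f i = 0 :=
  Ideal.Quotient.eq_zero_iff_mem

theorem cl_eq {f g : Π i, kk i} : cl f = cl g ↔ ∀ᶠ i in (UU : Filter Idx), f i = g i := by
  rw [← sub_eq_zero, ← map_sub, cl_eq_zero]
  simp only [Pi.sub_apply, sub_eq_zero]

/-- The embedding of `ℂ` in the ultraproduct. -/
noncomputable def io : ℂ →+* KS where
  toFun c := cl fun i => red i c
  map_one' := by
    have : (fun i => red i 1) = 1 := by funext i; exact red_one i
    rw [this, map_one]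
  map_zero' := by
    have : (fun i => red i 0) = 0 := by funext i; exact red_zero i
    rw [this, map_zero]
  map_add' c d := by
    rw [← map_add, cl_eq]
    exact red_add c d
  map_mul' c d := by
    rw [← map_mul, cl_eq]
    exact red_mul c d

theorem aev_eq {σ : Type*} (b : σ → ℂ) (p : MvPolynomial σ ℂ) : aeval b p = eval b p := by
  rw [← coe_aeval_eq_eval]
  rfl

/-- Existential closedness of `ℂ`, for vanishing patterns of finitely many polynomials. -/
theorem exists_point {σ : Type*} [Finite σ] {L : Type*} [CommRing L] [IsDomain L] (j : ℂ →+* L)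
    (a : σ → L) (P : Finset (MvPolynomial σ ℂ)) :
    ∃ b : σ → ℂ, ∀ p ∈ P, (eval b p = 0 ↔ eval₂ j a p = 0) := by
  classical
  let φ : MvPolynomial σ ℂ →+* L := eval₂Hom j a
  let Q : MvPolynomial σ ℂ := ∏ p ∈ P.filter (fun p => φ p ≠ 0), p
  have hQ : φ Q ≠ 0 := by
    rw [map_prod, Finset.prod_ne_zero_iff]
    intro p hp
    exact (Finset.mem_filter.1 hp).2
  have : (RingHom.ker φ).IsPrime := RingHom.ker_isPrime φ
  have hQ2 : Q ∉ (RingHom.ker φ).radical := by
    rw [Ideal.IsPrime.radical inferInstance, RingHom.mem_ker]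
    exact hQ
  rw [← MvPolynomial.vanishingIdeal_zeroLocus_eq_radical (K := ℂ)] at hQ2
  rw [MvPolynomial.mem_vanishingIdeal_iff] at hQ2
  push Not at hQ2
  obtain ⟨b, hb, hbQ⟩ := hQ2
  have hb' : ∀ p : MvPolynomial σ ℂ, φ p = 0 → eval b p = 0 := by
    intro p hp
    have h := hb p (RingHom.mem_ker.2 hp)
    rwa [aev_eq] at h
  refine ⟨b, fun p hp => ?_⟩
  constructor
  · intro h
    by_contra hne
    apply hbQ
    have : p ∣ Q := Finset.dvd_prod_of_mem _ (Finset.mem_filter.2 ⟨hp, hne⟩)
    obtain ⟨r, hr⟩ := this
    rw [aev_eq, hr, map_mul, h, zero_mul]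
  · intro h
    exact hb' p h

end Pool.Agent.W458
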