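import Mathlib
import Pool.Agent.W458.Res
import Pool.Agent.W458.Mot

/-!
# Counting points
-/

open MvPolynomial Filter

namespace Pool.Agent.W458

variable {σ τ : Type}

/-- The point of the ultraproduct defined by a family of points. -/
noncomputable def pt (x : Π i, σ → kk i) : σ → KS := fun s => cl fun i => x i s

/-- Evaluation of the reduction of a polynomial. -/
noncomputable def ev (i : Idx) (P : MvPolynomial σ ℂ) (x : σ → kk i) : kk i :=
  ∑ d ∈ P.support, red i (coeff d P) * ∏ s ∈ d.support, x s ^ d s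

theorem eval₂_pt (P : MvPolynomial σ ℂ) (x : Π i, σ → kk i) :
    eval₂ io (pt x) P = cl fun i => ev i P (x i) := by
  have : (fun i => ev i P (x i)) = ∑ d ∈ P.support, ((fun i => red i (coeff d P)) *
      ∏ s ∈ d.support, (fun i => x i s) ^ d s) := by
    funext i
    simp [ev, Finset.sum_apply, Finset.prod_apply]
  rw [this, map_sum, eval₂_eq]
  refine Finset.sum_congr rfl fun d _ => ?_
  rw [map_mul, map_prod]
  congr 1

theorem eval₂_pt_eq_zero (P : MvPolynomial σ ℂ) (x : Π i, σ → kk i) :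
    eval₂ io (pt x) P = 0 ↔ ∀ᶠ i in (UU : Filter Idx), ev i P (x i) = 0 := by
  rw [eval₂_pt, cl_eq_zero]

/-- The point `b` of `ℂ^σ` has the same vanishing pattern as the family `x`, for the polynomials
in `P`. -/
def Match (P : Finset (MvPolynomial σ ℂ)) (b : σ → ℂ) (x : Π i, σ → kk i) : Prop :=
  ∀ p ∈ P, (eval b p = 0 ↔ eval₂ io (pt x) p = 0)

theorem Match.mono {P Q : Finset (MvPolynomial σ ℂ)} (h : P ⊆ Q) {b : σ → ℂ}
    {x : Π i, σ → kk i} (hm : Match Q b x) : Match P b x := fun p hp => hm p (h hp)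

theorem exists_match [Finite σ] (P : Finset (MvPolynomial σ ℂ)) (x : Π i, σ → kk i) :
    ∃ b, Match P b x := exists_point io (pt x) P

/-- The family of sets `s i` represents `S`. -/
def Rep (S : Set (σ → ℂ)) (s : Π i, Set (σ → kk i)) : Prop :=
  ∃ P : Finset (MvPolynomial σ ℂ), ∀ (x : Π i, σ → kk i) (b : σ → ℂ), Match P b x →
    (b ∈ S ↔ ∀ᶠ i in (UU : Filter Idx), x i ∈ s i)

theorem rep_zero (p : MvPolynomial σ ℂ) :
    Rep {b | eval b p = 0} (fun i => {x | ev i p x = 0}) := by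
  refine ⟨{p}, fun x b h => ?_⟩
  have := h p (by simp)
  rw [eval₂_pt_eq_zero] at this
  exact this

theorem Rep.compl {S : Set (σ → ℂ)} {s : Π i, Set (σ → kk i)} (h : Rep S s) :
    Rep Sᶜ (fun i => (s i)ᶜ) := by
  obtain ⟨P, hP⟩ := h
  refine ⟨P, fun x b hm => ?_⟩
  simp only [Set.mem_compl_iff, Ultrafilter.eventually_not, hP x b hm]

theorem Rep.inter {S T : Set (σ → ℂ)} {s t : Π i, Set (σ → kk i)} (h : Rep S s) (h' : Rep T t) :
    Rep (S ∩ T) (fun i => s i ∩ t i) := by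
  classical
  obtain ⟨P, hP⟩ := h
  obtain ⟨Q, hQ⟩ := h'
  refine ⟨P ∪ Q, fun x b hm => ?_⟩
  simp only [Set.mem_inter_iff, eventually_and, hP x b (hm.mono Finset.subset_union_left),
    hQ x b (hm.mono Finset.subset_union_right)]

theorem Rep.union {S T : Set (σ → ℂ)} {s t : Π i, Set (σ → kk i)} (h : Rep S s) (h' : Rep T t) :
    Rep (S ∪ T) (fun i => s i ∪ t i) := by
  have := (h.compl.inter h'.compl).compl
  simpa only [Set.compl_inter, compl_compl] using this

theorem rep_univ : Rep (Set.univ : Set (σ → ℂ)) (fun _ => Set.univ) :=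
  ⟨∅, fun x b _ => by simp⟩

theorem rep_empty : Rep (∅ : Set (σ → ℂ)) (fun _ => ∅) := by
  have := (rep_univ (σ := σ)).compl
  simpa only [Set.compl_univ] using this

theorem Rep.subset [Finite σ] {S T : Set (σ → ℂ)} {s t : Π i, Set (σ → kk i)} (h : Rep S s)
    (h' : Rep T t) (hST : S ⊆ T) : ∀ᶠ i in (UU : Filter Idx), s i ⊆ t i := by
  classical
  by_contra hcon
  rw [← Ultrafilter.eventually_not] at hcon
  have : ∀ i, ∃ x : σ → kk i, (¬ s i ⊆ t i) → x ∈ s i ∧ x ∉ t i := by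
    intro i
    by_cases hi : s i ⊆ t i
    · exact ⟨0, fun h => absurd hi h⟩
    · obtain ⟨x, hx⟩ := Set.not_subset.1 hi
      exact ⟨x, fun _ => hx⟩
  choose x hx using this
  obtain ⟨P, hP⟩ := h
  obtain ⟨Q, hQ⟩ := h'
  obtain ⟨b, hb⟩ := exists_match (P ∪ Q) x
  have h1 : ∀ᶠ i in (UU : Filter Idx), x i ∈ s i := by
    filter_upwards [hcon] with i hi using (hx i hi).1
  have h2 := (hQ x b (hb.mono Finset.subset_union_right)).1
    (hST ((hP x b (hb.mono Finset.subset_union_left)).2 h1))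
  obtain ⟨i, hi1, hi2⟩ := (hcon.and h2).exists
  exact (hx i hi1).2 hi2

theorem Rep.unique [Finite σ] {S : Set (σ → ℂ)} {s t : Π i, Set (σ → kk i)} (h : Rep S s)
    (h' : Rep S t) : ∀ᶠ i in (UU : Filter Idx), s i = t i := by
  filter_upwards [h.subset h' subset_rfl, h'.subset h subset_rfl] with i h1 h2
  exact Set.Subset.antisymm h1 h2

theorem exists_rep {n : ℕ} {S : Set (Fin n → ℂ)} (h : Constr S) : ∃ s, Rep S s := by
  induction h with
  | zero P => exact ⟨_, rep_zero P⟩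
  | compl _ ih =>
    obtain ⟨s, hs⟩ := ih
    exact ⟨_, hs.compl⟩
  | inter _ _ ih1 ih2 =>
    obtain ⟨s, hs⟩ := ih1
    obtain ⟨t, ht⟩ := ih2
    exact ⟨_, hs.inter ht⟩

/-- Matching and change of variables. -/
theorem Match.comp [DecidableEq (MvPolynomial τ ℂ)] (ρ : σ → τ) (P : Finset (MvPolynomial σ ℂ))
    {b : τ → ℂ} {x : Π i, τ → kk i} (h : Match (P.image (rename ρ)) b x) :
    Match P (b ∘ ρ) (fun i => x i ∘ ρ) := by
  intro p hp
  have := h (rename ρ p) (Finset.mem_image_of_mem _ hp)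
  rw [eval_rename, eval₂_rename] at this
  exact this

theorem Rep.comap {S : Set (σ → ℂ)} {s : Π i, Set (σ → kk i)} (h : Rep S s) (ρ : σ → τ) :
    Rep {b : τ → ℂ | b ∘ ρ ∈ S} (fun i => {x | x ∘ ρ ∈ s i}) := by
  classical
  obtain ⟨P, hP⟩ := h
  refine ⟨P.image (rename ρ), fun x b hm => ?_⟩
  exact hP _ _ (hm.comp ρ P)

/-- The reduction of the map with coordinates `P j / Q j`. -/
noncomputable def redMap {n m : ℕ} (P Q : Fin m → MvPolynomial (Fin n) ℂ) (i : Idx)
    (x : Fin n → kk i) : Fin m → kk i := fun j => ev i (P j) x / ev i (Q j) x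

/-- Transfer for a regular map. -/
theorem transfer {n m : ℕ} {S : Set (Fin n → ℂ)} {s : Π i, Set (Fin n → kk i)} (hS : Rep S s)
    (f : (Fin n → ℂ) → (Fin m → ℂ)) (P Q : Fin m → MvPolynomial (Fin n) ℂ)
    (hf : ∀ j, ∀ x ∈ S, eval x (Q j) ≠ 0 ∧ f x j = eval x (P j) / eval x (Q j))
    {τ : Type} [Finite τ] (R : Finset (MvPolynomial τ ℂ)) (w : Π i, τ → kk i)
    (a : Fin n → τ) (c : Fin m → τ)
    (hx : ∀ᶠ i in (UU : Filter Idx), w i ∘ a ∈ s i)
    (hy : ∀ᶠ i in (UU : Filter Idx), w i ∘ c = redMap P Q i (w i ∘ a)) :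
    ∃ R' : Finset (MvPolynomial τ ℂ), R ⊆ R' ∧ ∀ b, Match R' b w →
      b ∘ a ∈ S ∧ b ∘ c = f (b ∘ a) := by
  classical
  obtain ⟨PS, hPS⟩ := hS
  refine ⟨R ∪ PS.image (rename a) ∪ Finset.univ.image (fun j => rename a (Q j)) ∪
    Finset.univ.image (fun j => rename a (Q j) * X (c j) - rename a (P j)), ?_, ?_⟩
  · intro p hp
    simp [hp]
  intro b hb
  have h1 : Match (PS.image (rename a)) b w := hb.mono (by
    intro p hp
    simp only [Finset.mem_union]
    tauto)
  have h2 : b ∘ a ∈ S := (hPS _ _ (h1.comp a PS)).2 hx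
  refine ⟨h2, ?_⟩
  funext j
  obtain ⟨h3, h4⟩ := hf j _ h2
  have h5 := hb (rename a (Q j)) (by simp)
  have h6 := hb (rename a (Q j) * X (c j) - rename a (P j)) (by simp)
  have h7 : eval₂ io (pt w) (rename a (Q j)) ≠ 0 := by
    intro h
    apply h3
    have := h5.2 h
    rwa [eval_rename] at this
  have h8 : eval₂ io (pt w) (rename a (Q j) * X (c j) - rename a (P j)) = 0 := by
    have e1 : eval₂ io (pt w) (rename a (Q j)) = cl fun i => ev i (Q j) (w i ∘ a) := by
      rw [eval₂_rename, ← eval₂_pt (x := fun i => w i ∘ a)]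
      rfl
    have e2 : eval₂ io (pt w) (rename a (P j)) = cl fun i => ev i (P j) (w i ∘ a) := by
      rw [eval₂_rename, ← eval₂_pt (x := fun i => w i ∘ a)]
      rfl
    rw [eval₂_sub, eval₂_mul, eval₂_X, e1, e2]
    rw [e1, Ne, cl_eq_zero, ← Ultrafilter.eventually_not] at h7
    rw [sub_eq_zero]
    change _ * cl (fun i => w i (c j)) = _
    rw [← map_mul, cl_eq]
    filter_upwards [h7, hy] with i hi1 hi2
    have := congrFun hi2 j
    simp only [Function.comp_apply, redMap] at this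
    simp only [Pi.mul_apply, this]
    exact mul_div_cancel₀ _ hi1
  have h9 := h6.2 h8
  rw [map_sub, map_mul, eval_X, eval_rename, eval_rename] at h9
  rw [h4, eq_div_iff h3, mul_comm]
  exact sub_eq_zero.1 h9

/-- The reduction of a regular map maps `s i` to `t i` almost everywhere. -/
theorem mapsTo_red {n m : ℕ} {S : Set (Fin n → ℂ)} {s : Π i, Set (Fin n → kk i)} (hS : Rep S s)
    {T : Set (Fin m → ℂ)} {t : Π i, Set (Fin m → kk i)} (hT : Rep T t)
    (f : (Fin n → ℂ) → (Fin m → ℂ)) (P Q : Fin m → MvPolynomial (Fin n) ℂ)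
    (hf : ∀ j, ∀ x ∈ S, eval x (Q j) ≠ 0 ∧ f x j = eval x (P j) / eval x (Q j))
    (hm : Set.MapsTo f S T) :
    ∀ᶠ i in (UU : Filter Idx), Set.MapsTo (redMap P Q i) (s i) (t i) := by
  classical
  by_contra hcon
  rw [← Ultrafilter.eventually_not] at hcon
  have : ∀ i, ∃ x : Fin n → kk i, (¬ Set.MapsTo (redMap P Q i) (s i) (t i)) →
      x ∈ s i ∧ redMap P Q i x ∉ t i := by
    intro i
    by_cases hi : Set.MapsTo (redMap P Q i) (s i) (t i)
    · exact ⟨0, fun h => absurd hi h⟩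
    · simp only [Set.MapsTo] at hi
      push Not at hi
      obtain ⟨x, hx⟩ := hi
      exact ⟨x, fun _ => hx⟩
  choose x hx using this
  obtain ⟨PT, hPT⟩ := hT
  let w : Π i, Fin n ⊕ Fin m → kk i := fun i => Sum.elim (x i) (redMap P Q i (x i))
  obtain ⟨R', hR, hR'⟩ := transfer hS f P Q hf (PT.image (rename Sum.inr)) w Sum.inl Sum.inr
    (by filter_upwards [hcon] with i hi using (hx i hi).1)
    (by filter_upwards with i; rfl)
  obtain ⟨b, hb⟩ := exists_match R' w
  obtain ⟨h1, h2⟩ := hR' b hb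
  have h3 : Match PT (b ∘ Sum.inr) (fun i => w i ∘ Sum.inr) := (hb.mono hR).comp Sum.inr PT
  have h4 := (hPT _ _ h3).1 (by rw [h2]; exact hm h1)
  obtain ⟨i, hi1, hi2⟩ := (hcon.and h4).exists
  exact (hx i hi1).2 hi2

/-- The reductions of mutually inverse regular maps are inverse to each other almost
everywhere. -/
theorem leftInv_red {n m : ℕ} {S : Set (Fin n → ℂ)} {s : Π i, Set (Fin n → kk i)} (hS : Rep S s)
    {T : Set (Fin m → ℂ)} {t : Π i, Set (Fin m → kk i)} (hT : Rep T t)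
    (f : (Fin n → ℂ) → (Fin m → ℂ)) (P Q : Fin m → MvPolynomial (Fin n) ℂ)
    (hf : ∀ j, ∀ x ∈ S, eval x (Q j) ≠ 0 ∧ f x j = eval x (P j) / eval x (Q j))
    (g : (Fin m → ℂ) → (Fin n → ℂ)) (P' Q' : Fin n → MvPolynomial (Fin m) ℂ)
    (hg : ∀ j, ∀ x ∈ T, eval x (Q' j) ≠ 0 ∧ g x j = eval x (P' j) / eval x (Q' j))
    (hm : Set.MapsTo f S T) (hgf : ∀ x ∈ S, g (f x) = x) :
    ∀ᶠ i in (UU : Filter Idx), ∀ x ∈ s i, redMap P' Q' i (redMap P Q i x) = x := by
  classical
  by_contra hcon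
  rw [← Ultrafilter.eventually_not] at hcon
  have : ∀ i, ∃ x : Fin n → kk i, (¬ ∀ x ∈ s i, redMap P' Q' i (redMap P Q i x) = x) →
      x ∈ s i ∧ redMap P' Q' i (redMap P Q i x) ≠ x := by
    intro i
    by_cases hi : ∀ x ∈ s i, redMap P' Q' i (redMap P Q i x) = x
    · exact ⟨0, fun h => absurd hi h⟩
    · push Not at hi
      obtain ⟨x, hx⟩ := hi
      exact ⟨x, fun _ => hx⟩
  choose x hx using this
  have hxs : ∀ᶠ i in (UU : Filter Idx), x i ∈ s i := by
    filter_upwards [hcon] with i hi using (hx i hi).1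
  let w : Π i, Fin n ⊕ (Fin m ⊕ Fin n) → kk i := fun i =>
    Sum.elim (x i) (Sum.elim (redMap P Q i (x i)) (redMap P' Q' i (redMap P Q i (x i))))
  let E : Finset (MvPolynomial (Fin n ⊕ (Fin m ⊕ Fin n)) ℂ) :=
    Finset.univ.image fun j : Fin n => X (Sum.inl j) - X (Sum.inr (Sum.inr j))
  obtain ⟨R', hR, hR'⟩ := transfer hS f P Q hf E w Sum.inl (Sum.inr ∘ Sum.inl)
    hxs (by filter_upwards with i; rfl)
  obtain ⟨R'', hRR, hR''⟩ := transfer hT g P' Q' hg R' w (Sum.inr ∘ Sum.inl) (Sum.inr ∘ Sum.inr)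
    (by
      filter_upwards [hxs, mapsTo_red hS hT f P Q hf hm] with i hi hi2
      exact hi2 hi)
    (by filter_upwards with i; rfl)
  obtain ⟨b, hb⟩ := exists_match R'' w
  obtain ⟨h1, h2⟩ := hR' b (hb.mono hRR)
  obtain ⟨h3, h4⟩ := hR'' b hb
  have h5 : b ∘ (Sum.inr ∘ Sum.inr) = b ∘ Sum.inl := by
    rw [h4, h2, hgf _ h1]
  have h6 : ∀ j : Fin n, ∀ᶠ i in (UU : Filter Idx),
      x i j = redMap P' Q' i (redMap P Q i (x i)) j := by
    intro j
    have h7 := (hb _ (hRR (hR (Finset.mem_image_of_mem _ (Finset.mem_univ j))))).1 (by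
      rw [map_sub, eval_X, eval_X, sub_eq_zero]
      exact (congrFun h5 j).symm)
    rw [eval₂_sub, eval₂_X, eval₂_X, sub_eq_zero] at h7
    change cl _ = cl _ at h7
    rwa [cl_eq] at h7
  rw [← eventually_all] at h6
  obtain ⟨i, hi1, hi2⟩ := (hcon.and h6).exists
  exact (hx i hi1).2 (funext fun j => (hi2 j).symm)

/-- Isomorphic constructible sets have the same number of points almost everywhere. -/
theorem ncard_eq_of_iso {n m : ℕ} {S : Set (Fin n → ℂ)} {s : Π i, Set (Fin n → kk i)}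
    (hS : Rep S s) {T : Set (Fin m → ℂ)} {t : Π i, Set (Fin m → kk i)} (hT : Rep T t)
    {f : (Fin n → ℂ) → (Fin m → ℂ)} (hf : RegularOn S f)
    {g : (Fin m → ℂ) → (Fin n → ℂ)} (hg : RegularOn T g)
    (hfm : Set.MapsTo f S T) (hgm : Set.MapsTo g T S) (hgf : ∀ x ∈ S, g (f x) = x)
    (hfg : ∀ y ∈ T, f (g y) = y) :
    ∀ᶠ i in (UU : Filter Idx), (s i).ncard = (t i).ncard := by
  choose P Q hPQ using hf
  choose P' Q' hPQ' using hg
  filter_upwards [mapsTo_red hS hT f P Q hPQ hfm, mapsTo_red hT hS g P' Q' hPQ' hgm,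
    leftInv_red hS hT f P Q hPQ g P' Q' hPQ' hfm hgf,
    leftInv_red hT hS g P' Q' hPQ' f P Q hPQ hgm hfg] with i h1 h2 h3 h4
  refine Set.ncard_congr (fun x _ => redMap P Q i x) (fun x hx => h1 hx) ?_ ?_
  · intro x y hx hy hxy
    rw [← h3 x hx, ← h3 y hy]
    exact congrArg _ hxy
  · intro y hy
    exact ⟨redMap P' Q' i y, h2 hy, h4 y hy⟩

end Pool.Agent.W458
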