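import Mathlib
import Pool.Agent.W458.Count

/-!
# The point counting measure
-/

open MvPolynomial Filter

namespace Pool.Agent.W458

/-- The field of values of the measure. -/
abbrev GG : Type := Germ (UU : Filter Idx) ℚ

/-- A representation of a variety. -/
noncomputable def rp (V : MuVar) : Π i, Set (Fin V.n → kk i) := Classical.choose (exists_rep V.constr)

theorem rp_spec (V : MuVar) : Rep V.S (rp V) := Classical.choose_spec (exists_rep V.constr)

/-- The number of points. -/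
noncomputable def val (V : MuVar) : GG := ((fun i => ((rp V i).ncard : ℚ) : Idx → ℚ) : GG)

theorem val_eq (V : MuVar) {s : Π i, Set (Fin V.n → kk i)} (h : Rep V.S s) :
    val V = ((fun i => ((s i).ncard : ℚ) : Idx → ℚ) : GG) := by
  rw [val, Germ.coe_eq]
  filter_upwards [(rp_spec V).unique h] with i hi
  rw [hi]

theorem ncard_prod_aux {α : Type} {n m : ℕ} (s : Set (Fin n → α)) (t : Set (Fin m → α)) :
    ({x | x ∘ Fin.castAdd m ∈ s} ∩ {x | x ∘ Fin.natAdd n ∈ t} : Set (Fin (n + m) → α)).ncard =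
      s.ncard * t.ncard := by
  rw [← Set.ncard_prod]
  refine Set.ncard_congr (fun x _ => (x ∘ Fin.castAdd m, x ∘ Fin.natAdd n)) ?_ ?_ ?_
  · intro x hx
    exact ⟨hx.1, hx.2⟩
  · intro x y _ _ hxy
    rw [Prod.mk.injEq] at hxy
    funext i
    refine Fin.addCases (fun j => ?_) (fun j => ?_) i
    · exact congrFun hxy.1 j
    · exact congrFun hxy.2 j
  · rintro ⟨a, b⟩ ⟨ha, hb⟩
    refine ⟨Fin.append a b, ?_, ?_⟩
    · constructor
      · change (Fin.append a b) ∘ Fin.castAdd m ∈ s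
        have : (Fin.append a b) ∘ Fin.castAdd m = a := by funext i; simp
        rw [this]; exact ha
      · change (Fin.append a b) ∘ Fin.natAdd n ∈ t
        have : (Fin.append a b) ∘ Fin.natAdd n = b := by funext i; simp
        rw [this]; exact hb
    · refine Prod.ext ?_ ?_
      · funext i; simp
      · funext i; simp

theorem rep_prod {n m : ℕ} {S : Set (Fin n → ℂ)} {s : Π i, Set (Fin n → kk i)} (hS : Rep S s)
    {T : Set (Fin m → ℂ)} {t : Π i, Set (Fin m → kk i)} (hT : Rep T t) :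
    Rep (prodSet S T) (fun i => {x | x ∘ Fin.castAdd m ∈ s i} ∩ {x | x ∘ Fin.natAdd n ∈ t i}) :=
  (hS.comap (Fin.castAdd m)).inter (hT.comap (Fin.natAdd n))

theorem val_prod (V W : MuVar) (act) (h₁ h₂ h₃ h₄) :
    val ⟨V.n + W.n, prodSet V.S W.S, act, h₁, h₂, h₃, h₄⟩ = val V * val W := by
  rw [val_eq ⟨V.n + W.n, prodSet V.S W.S, act, h₁, h₂, h₃, h₄⟩
    (rep_prod (rp_spec V) (rp_spec W)), val, val, ← Germ.coe_mul, Germ.coe_eq]
  filter_upwards with i
  rw [ncard_prod_aux, Nat.cast_mul]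
  rfl

/-- The measure on polynomials in the generators. -/
noncomputable def phi : MvPolynomial MuVar ℤ →+* GG := eval₂Hom (Int.castRingHom GG) val

theorem phi_X (V : MuVar) : phi (X V) = val V := by simp [phi]

theorem phi_rel {p : MvPolynomial MuVar ℤ} (h : Rel p) : phi p = 0 := by
  induction h with
  | iso V W f g hf hg hfm hgm hgf hfg heq =>
    rw [map_sub, phi_X, phi_X, sub_eq_zero, val, val, Germ.coe_eq]
    filter_upwards [ncard_eq_of_iso (rp_spec V) (rp_spec W) hf hg hfm hgm hgf hfg] with i hi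
    rw [hi]
  | @scissors n S T σ hST h₁ h₂ h₃ h₄ h₅ h₆ h₇ h₈ h₉ h₁₀ h₁₁ h₁₂ =>
    obtain ⟨s, hs⟩ := exists_rep h₅
    obtain ⟨t, ht⟩ := exists_rep h₉
    rw [map_sub, map_add, phi_X, phi_X, phi_X, sub_eq_zero,
      val_eq ⟨n, S ∪ T, σ, h₁, h₂, h₃, h₄⟩ (hs.union ht),
      val_eq ⟨n, S, σ, h₅, h₆, h₇, h₈⟩ hs, val_eq ⟨n, T, σ, h₉, h₁₀, h₁₁, h₁₂⟩ ht,
      ← Germ.coe_add, Germ.coe_eq]
    have h1 := hs.inter ht
    rw [hST.inter_eq] at h1
    filter_upwards [h1.unique rep_empty] with i hi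
    rw [Set.ncard_union_eq (Set.disjoint_iff_inter_eq_empty.2 hi) (Set.toFinite _)
      (Set.toFinite _), Nat.cast_add]
    rfl
  | prod V W h₁ h₂ h₃ h₄ =>
    rw [map_sub, map_mul, phi_X, phi_X, phi_X, sub_eq_zero]
    exact val_prod V W _ h₁ h₂ h₃ h₄
  | one h₁ h₂ h₃ h₄ =>
    rw [map_sub, map_one, phi_X, sub_eq_zero, val_eq ⟨0, Set.univ, id, h₁, h₂, h₃, h₄⟩ rep_univ]
    have : (fun i => (((Set.univ : Set (Fin 0 → kk i)).ncard : ℕ) : ℚ)) = (1 : Idx → ℚ) := by
      funext i
      rw [Set.ncard_univ, Nat.card_unique]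
      simp
    rw [this]
    rfl
  | affine V r τ hlift haff h₁ h₂ h₃ h₄ h₅ h₆ h₇ h₈ =>
    rw [map_sub, map_mul, phi_X, phi_X, phi_X, sub_eq_zero]
    exact val_prod V ⟨r, Set.univ, id, h₅, h₆, h₇, h₈⟩ τ h₁ h₂ h₃ h₄

/-- The measure on `K₀`. -/
noncomputable def psi0 : K0 →+* GG :=
  Ideal.Quotient.lift (Ideal.span {x | Rel x}) phi (by
    intro a ha
    have : Ideal.span {x | Rel x} ≤ RingHom.ker phi := by
      rw [Ideal.span_le]
      intro x hx
      exact phi_rel hx
    exact this ha)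

theorem psi0_cls (V : MuVar) : psi0 (cls0 V) = val V := by
  rw [cls0, mkK]
  exact (Ideal.Quotient.lift_mk _ _ _).trans (phi_X V)

/-- The number of elements of the field. -/
noncomputable def qq : GG := ((fun i => (Nat.card (kk i) : ℚ) : Idx → ℚ) : GG)

theorem val_affineLine : val affineLine = qq := by
  rw [val_eq affineLine (s := fun _ => Set.univ) rep_univ, qq, Germ.coe_eq]
  filter_upwards with i
  rw [Set.ncard_univ]
  congr 1
  exact Nat.card_congr (Equiv.funUnique (Fin 1) (kk i))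

theorem two_le_card (i : Idx) : 2 ≤ Nat.card (kk i) := by
  have : Nontrivial (kk i) := inferInstance
  exact Finite.one_lt_card

theorem qq_ne_zero : qq ≠ 0 := by
  intro h
  have h' : qq = ((0 : Idx → ℚ) : GG) := h
  rw [qq, Germ.coe_eq] at h'
  obtain ⟨i, hi⟩ := h'.exists
  have := two_le_card i
  simp only [Pi.zero_apply, Nat.cast_eq_zero] at hi
  omega

theorem qq_ne_one : qq ≠ 1 := by
  intro h
  have h' : qq = ((1 : Idx → ℚ) : GG) := h
  rw [qq, Germ.coe_eq] at h'
  obtain ⟨i, hi⟩ := h'.exists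
  have := two_le_card i
  simp only [Pi.one_apply, Nat.cast_eq_one] at hi
  omega

theorem qq_pow_inj {a b : ℕ} (h : qq ^ a = qq ^ b) : a = b := by
  rw [qq, ← Germ.coe_pow, ← Germ.coe_pow, Germ.coe_eq] at h
  obtain ⟨i, hi⟩ := h.exists
  have h2 := two_le_card i
  simp only [Pi.pow_apply] at hi
  have h3 : (Nat.card (kk i)) ^ a = (Nat.card (kk i)) ^ b := by exact_mod_cast hi
  exact Nat.pow_right_injective h2 h3

/-- The measure on `ℳ`. -/
noncomputable def psi' : Localization.Away (cls0 affineLine) →+* GG :=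
  IsLocalization.Away.lift (cls0 affineLine) (g := psi0)
    (by rw [psi0_cls, val_affineLine]; exact qq_ne_zero.isUnit)

/-- The measure on `ℳ`. -/
noncomputable def psi : Mot →+* GG := psi'

theorem psi_cls (V : MuVar) : psi (cls V) = val V := by
  have h : psi' (algebraMap K0 (Localization.Away (cls0 affineLine)) (cls0 V)) = psi0 (cls0 V) :=
    IsLocalization.Away.lift_eq _ _ _
  exact h.trans (psi0_cls V)

theorem psi_L : psi (Lu : Mot) = qq := by
  rw [Lu_val, psi_cls, val_affineLine]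

theorem psi_L_inv : psi ((Lu⁻¹ : Motˣ) : Mot) = qq⁻¹ := by
  rw [← psi_L]
  refine eq_inv_of_mul_eq_one_left ?_
  rw [← map_mul, Units.inv_mul, map_one]

end Pool.Agent.W458
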