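import Mathlib
import Pool.Agent.W458.Mot

/-!
# Infinite cyclic zeta functions and their sets of poles
-/

namespace Pool.Agent.W458

/-- The element `𝕃^{-a}` of `ℳ`. -/
noncomputable def Linv (a : ℕ) : Mot := ((Lu⁻¹ ^ a : Motˣ) : Mot)

/-- The power series `(1 - 𝕃^{-a} T^b)⁻¹` over `ℳ`, for `b > 0`. -/
noncomputable def invFactor (a b : ℕ) : PowerSeries Mot :=
  PowerSeries.invOfUnit (1 - PowerSeries.C (Linv a) * PowerSeries.X ^ b) 1

/-- The infinite cyclic zeta function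
`∑_{∅ ≠ I ⊆ J} [Ẽ_I°] (𝕃 - 1)^{|I| - 1} ∏_{i ∈ I} 𝕃^{-ν_i} T^{m_i} / (1 - 𝕃^{-ν_i} T^{m_i})`,
as a power series in `T` over `ℳ`. -/
noncomputable def zeta {J : Type} [Fintype J] [DecidableEq J] (m ν : J → ℕ)
    (E : Finset J → MuVar) : PowerSeries Mot :=
  ∑ I ∈ Finset.univ.filter fun I : Finset J => I.Nonempty,
    PowerSeries.C (cls (E I)) * PowerSeries.C ((Lu : Mot) - 1) ^ (I.card - 1) *
      ∏ i ∈ I, (PowerSeries.C (Linv (ν i)) * PowerSeries.X ^ m i * invFactor (ν i) (m i))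

/-- The finite set `S` of pairs of positive integers is a set of poles of the power series `Z`:
`Z` lies in the subring `ℳ[T, (1 - 𝕃^{-a} T^b)⁻¹ : (a, b) ∈ S]` of `ℳ⟦T⟧`. -/
def IsPoleSet (S : Finset (ℕ × ℕ)) (Z : PowerSeries Mot) : Prop :=
  (∀ s ∈ S, 0 < s.1 ∧ 0 < s.2) ∧
    Z ∈ Algebra.adjoin Mot
      ({PowerSeries.X} ∪ {u | ∃ s ∈ S, u = invFactor s.1 s.2} : Set (PowerSeries Mot))

theorem regularOn_smul (S : Set (Fin 1 → ℂ)) (c : ℂ) : RegularOn S fun x => c • x := by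
  intro i
  refine ⟨MvPolynomial.C c * MvPolynomial.X i, 1, fun x _ => ?_⟩
  simp

/-- The variety `ℂ^*`, on which the generator `exp (2 π i / m)` of `μ_m` acts by
multiplication. -/
noncomputable def Gm (m : ℕ) (hm : 0 < m) : MuVar where
  n := 1
  S := {x | x 0 ≠ 0}
  act := fun x => Complex.exp (2 * Real.pi * Complex.I / m) • x
  constr := by
    have h := (Constr.zero (MvPolynomial.X (0 : Fin 1) : MvPolynomial (Fin 1) ℂ)).compl
    have h2 : {x : Fin 1 → ℂ | MvPolynomial.eval x (MvPolynomial.X (0 : Fin 1)) = 0}ᶜ =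
        {x | x 0 ≠ 0} := by
      ext x; simp
    rwa [h2] at h
  regular := regularOn_smul _ _
  mapsTo := by
    intro x hx
    exact mul_ne_zero (Complex.exp_ne_zero _) hx
  finiteOrder := ⟨m, hm, by
    intro x _
    have h : ∀ k : ℕ, (fun x : Fin 1 → ℂ => Complex.exp (2 * Real.pi * Complex.I / m) • x)^[k] x =
        Complex.exp (2 * Real.pi * Complex.I / m) ^ k • x := by
      intro k
      induction k with
      | zero => simp
      | succ k ih =>
        rw [Function.iterate_succ_apply', ih, smul_smul, pow_succ']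
    rw [h, ← Complex.exp_nat_mul, mul_div_cancel₀ _ (by exact_mod_cast hm.ne'),
      Complex.exp_two_pi_mul_I, one_smul]⟩

end Pool.Agent.W458
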