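import Mathlib
import Pool.Agent.W458.Measure
import Pool.Agent.W458.Zeta

open PowerSeries Filter

namespace Pool.Agent.W458

/-- The image of `1 - 𝕃^{-a} T^b` as a polynomial. -/
noncomputable def fac (a b : ℕ) : Polynomial GG :=
  1 - Polynomial.C (qq⁻¹ ^ a) * Polynomial.X ^ b

theorem psi_Linv (a : ℕ) : psi (Linv a) = qq⁻¹ ^ a := by
  rw [Linv, Units.val_pow_eq_pow_val, map_pow, psi_L_inv]

theorem map_fac (a b : ℕ) : PowerSeries.map psi (1 - C (Linv a) * X ^ b) = (fac a b : GG⟦X⟧) := by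
  rw [map_sub, map_one, map_mul, map_pow, PowerSeries.map_C, PowerSeries.map_X, psi_Linv, fac]
  push_cast
  rfl

theorem mul_invFactor {a b : ℕ} (hb : 0 < b) : (1 - C (Linv a) * X ^ b) * invFactor a b = 1 := by
  refine mul_invOfUnit _ _ ?_
  rw [map_sub, map_mul, map_pow, constantCoeff_X, zero_pow hb.ne', mul_zero, sub_zero, map_one]
  rfl

theorem fac_mul_map {a b : ℕ} (hb : 0 < b) :
    (fac a b : GG⟦X⟧) * PowerSeries.map psi (invFactor a b) = 1 := by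
  rw [← map_fac, ← map_mul, mul_invFactor hb, map_one]

theorem poly_of_mem (S : Finset (ℕ × ℕ)) (hS : ∀ s ∈ S, 0 < s.1 ∧ 0 < s.2) (f : Mot⟦X⟧)
    (hf : f ∈ Algebra.adjoin Mot
      ({PowerSeries.X} ∪ {u | ∃ s ∈ S, u = invFactor s.1 s.2} : Set (PowerSeries Mot))) :
    ∃ (N : ℕ) (p : Polynomial GG), PowerSeries.map psi f *
      ((∏ s ∈ S, fac s.1 s.2 : Polynomial GG) : GG⟦X⟧) ^ N = (p : GG⟦X⟧) := by
  classical
  induction hf using Algebra.adjoin_induction with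
  | mem x hx =>
    rcases hx with hx | ⟨s, hs, rfl⟩
    · rw [Set.mem_singleton_iff] at hx
      subst hx
      refine ⟨0, Polynomial.X, ?_⟩
      simp
    · refine ⟨1, ∏ s ∈ S.erase s, fac s.1 s.2, ?_⟩
      rw [pow_one, ← Finset.mul_prod_erase S _ hs, Polynomial.coe_mul, ← mul_assoc,
        mul_comm (PowerSeries.map psi _), fac_mul_map (hS s hs).2, one_mul]
  | algebraMap r =>
    refine ⟨0, Polynomial.C (psi r), ?_⟩
    rw [pow_zero, mul_one, Polynomial.coe_C]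
    exact PowerSeries.map_C psi r
  | add x y _ _ hx hy =>
    obtain ⟨N, p, hp⟩ := hx
    obtain ⟨M, q, hq⟩ := hy
    refine ⟨N + M, p * (∏ s ∈ S, fac s.1 s.2) ^ M + q * (∏ s ∈ S, fac s.1 s.2) ^ N, ?_⟩
    rw [map_add, Polynomial.coe_add, Polynomial.coe_mul, Polynomial.coe_mul, Polynomial.coe_pow,
      Polynomial.coe_pow, ← hp, ← hq]
    ring
  | mul x y _ _ hx hy =>
    obtain ⟨N, p, hp⟩ := hx
    obtain ⟨M, q, hq⟩ := hy
    refine ⟨N + M, p * q, ?_⟩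
    rw [map_mul, Polynomial.coe_mul, ← hp, ← hq]
    ring

/-- Elements `c 𝕃^{-1} T^m (1 - 𝕃^{-1} T^m)⁻¹` with `ψ c ≠ 0`: every set of poles contains some
`(a, m a)`. -/
theorem exists_pole {m : ℕ} (hm : 0 < m) {c : Mot} (hc : psi c ≠ 0) (S : Finset (ℕ × ℕ))
    (h : IsPoleSet S (C c * (C (Linv 1) * X ^ m * invFactor 1 m))) :
    ∃ s ∈ S, s.2 = m * s.1 := by
  classical
  obtain ⟨hS, hZ⟩ := h
  obtain ⟨N, p, hp⟩ := poly_of_mem S hS _ hZ
  have h1 : (fac 1 m : GG⟦X⟧) * ((p : Polynomial GG) : GG⟦X⟧) =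
      ((Polynomial.C (psi c) * (Polynomial.C (qq⁻¹ ^ 1) * Polynomial.X ^ m) *
        (∏ s ∈ S, fac s.1 s.2) ^ N : Polynomial GG) : GG⟦X⟧) := by
    rw [← hp, map_mul, map_mul, map_mul, map_pow, PowerSeries.map_C, PowerSeries.map_C,
      PowerSeries.map_X, psi_Linv]
    push_cast
    have h2 := fac_mul_map (a := 1) hm
    calc _ = (fac 1 m : GG⟦X⟧) * PowerSeries.map psi (invFactor 1 m) *
          (C (psi c) * (C (qq⁻¹ ^ 1) * X ^ m) *
          ((∏ s ∈ S, fac s.1 s.2 : Polynomial GG) : GG⟦X⟧) ^ N) := by ring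
      _ = _ := by
        rw [h2, one_mul]
  rw [← Polynomial.coe_mul, Polynomial.coe_inj] at h1
  let K := AlgebraicClosure GG
  let j : GG →+* K := algebraMap GG K
  have hj : Function.Injective j := (algebraMap GG K).injective
  have hjq : j qq ≠ 0 := by
    intro h
    exact qq_ne_zero (hj (by rw [h, map_zero]))
  obtain ⟨θ, hθ⟩ := IsAlgClosed.exists_pow_nat_eq (j qq) hm
  have hθ0 : θ ≠ 0 := by
    rintro rfl
    rw [zero_pow hm.ne'] at hθ
    exact qq_ne_zero (hj (by rw [← hθ, map_zero]))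
  have h3 := congrArg (Polynomial.eval₂ j θ) h1
  have hfac : ∀ a b : ℕ, Polynomial.eval₂ j θ (fac a b) = 1 - (j qq)⁻¹ ^ a * θ ^ b := by
    intro a b
    simp [fac, Polynomial.eval₂_sub, Polynomial.eval₂_mul]
  rw [Polynomial.eval₂_mul, hfac, hθ, pow_one,
    inv_mul_cancel₀ hjq, sub_self, zero_mul,
    Polynomial.eval₂_mul, Polynomial.eval₂_mul, Polynomial.eval₂_mul, Polynomial.eval₂_C,
    Polynomial.eval₂_C, Polynomial.eval₂_pow, Polynomial.eval₂_X, Polynomial.eval₂_pow] at h3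
  have h4 : Polynomial.eval₂ j θ (∏ s ∈ S, fac s.1 s.2) ^ N = 0 := by
    rcases mul_eq_zero.1 h3.symm with h5 | h5
    · exfalso
      rcases mul_eq_zero.1 h5 with h6 | h6
      · exact hc (hj (by rw [h6, map_zero]))
      · rcases mul_eq_zero.1 h6 with h7 | h7
        · rw [pow_one, map_inv₀] at h7
          exact inv_ne_zero hjq h7
        · exact hθ0 (pow_eq_zero_iff hm.ne' |>.1 h7)
    · exact h5
  have h5 : Polynomial.eval₂ j θ (∏ s ∈ S, fac s.1 s.2) = 0 := by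
    by_contra hne
    exact pow_ne_zero N hne h4
  rw [Polynomial.eval₂_finsetProd, Finset.prod_eq_zero_iff] at h5
  obtain ⟨s, hs, hs0⟩ := h5
  refine ⟨s, hs, ?_⟩
  rw [hfac, sub_eq_zero] at hs0
  have h6 : θ ^ s.2 = (j qq) ^ s.1 := by
    have hne : (j qq) ^ s.1 ≠ 0 := pow_ne_zero _ hjq
    rw [inv_pow, eq_comm, inv_mul_eq_one₀ hne] at hs0
    exact hs0.symm
  have h7 : j (qq ^ s.2) = j (qq ^ (m * s.1)) := by
    rw [map_pow, map_pow, ← hθ, ← pow_mul, mul_comm m s.2, pow_mul, h6, ← pow_mul, ← pow_mul,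
      ← hθ, ← pow_mul]
    congr 1
    ring
  exact qq_pow_inj (hj h7)

theorem rep_Gm : Rep {x : Fin 1 → ℂ | x 0 ≠ 0} (fun i => {x : Fin 1 → kk i | x 0 ≠ 0}) := by
  refine ⟨{MvPolynomial.X 0}, fun x b hb => ?_⟩
  have h1 := hb (MvPolynomial.X 0) (by simp)
  rw [MvPolynomial.eval_X, MvPolynomial.eval₂_X] at h1
  have h2 : pt x 0 = 0 ↔ ∀ᶠ i in (UU : Filter Idx), x i 0 = 0 := cl_eq_zero
  rw [h2] at h1
  change b 0 ≠ 0 ↔ ∀ᶠ i in (UU : Filter Idx), x i 0 ≠ 0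
  rw [Ne, h1, Ultrafilter.eventually_not]

/-- The class of `ℂ^*` has nonzero measure. -/
theorem psi_Gm (m : ℕ) (hm : 0 < m) : psi (cls (Gm m hm)) ≠ 0 := by
  rw [psi_cls, val_eq (Gm m hm) (s := fun i => {x : Fin 1 → kk i | x 0 ≠ 0}) rep_Gm]
  intro h0
  have h' : ((fun i => (({x : Fin 1 → kk i | x 0 ≠ 0}.ncard : ℕ) : ℚ) : Idx → ℚ) : GG) =
    ((0 : Idx → ℚ) : GG) := h0
  rw [Germ.coe_eq] at h'
  obtain ⟨i, hi⟩ := h'.exists
  simp only [Pi.zero_apply, Nat.cast_eq_zero] at hi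
  rw [Set.ncard_eq_zero (Set.toFinite _)] at hi
  have : (fun _ => (1 : kk i)) ∈ {x : Fin 1 → kk i | x 0 ≠ 0} := one_ne_zero
  rw [hi] at this
  exact this

end Pool.Agent.W458
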