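import Mathlib

/-!
# The punctured neighbourhood of `ℂ^* × {0}` in `ℂ^* × ℂ` and its infinite cyclic covers
-/

open CategoryTheory

namespace Pool.Agent.W458

/-- The complex singular chain complex of a topological space. -/
noncomputable def chains (E : Type) [TopologicalSpace E] : ChainComplex (ModuleCat ℂ) ℕ :=
  ((AlgebraicTopology.singularChainComplexFunctor (ModuleCat.{0} ℂ)).obj
    (ModuleCat.of ℂ ℂ)).obj (TopCat.of E)

/-- The map of singular chain complexes induced by a continuous map. -/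
noncomputable def chainsMap {E F : Type} [TopologicalSpace E] [TopologicalSpace F] (f : C(E, F)) :
    chains E ⟶ chains F :=
  ((AlgebraicTopology.singularChainComplexFunctor (ModuleCat.{0} ℂ)).obj
    (ModuleCat.of ℂ ℂ)).map (TopCat.ofHom f)

/-- The complex singular `n`-chains of `E`. -/
noncomputable def Chain (E : Type) [TopologicalSpace E] (n : ℕ) : ModuleCat.{0} ℂ :=
  (chains E).X n

/-- The boundary map from the `n`-chains to the `k`-chains of `E` (it is zero for `n ≠ k + 1`). -/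
noncomputable def boundary (E : Type) [TopologicalSpace E] (n k : ℕ) : Chain E n →ₗ[ℂ] Chain E k :=
  ((chains E).d n k).hom

/-- The map of singular `n`-chains induced by a continuous map. -/
noncomputable def pushChain {E F : Type} [TopologicalSpace E] [TopologicalSpace F] (f : C(E, F))
    (n : ℕ) : Chain E n →ₗ[ℂ] Chain F n :=
  ((chainsMap f).f n).hom

/-- A singular `n`-cochain with complex values is a linear form on the `n`-chains. It is a cocycle
if it vanishes on the boundaries of `(n + 1)`-chains. -/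
def IsCocycle {E : Type} [TopologicalSpace E] {n : ℕ} (φ : Chain E n →ₗ[ℂ] ℂ) : Prop :=
  φ ∘ₗ boundary E (n + 1) n = 0

/-- A singular `n`-cochain is a coboundary if it is the composition of a linear form with the
boundary map to the `(n - 1)`-chains (for `n = 0` this map `boundary E 0 0` is zero). -/
def IsCoboundary {E : Type} [TopologicalSpace E] {n : ℕ} (φ : Chain E n →ₗ[ℂ] ℂ) : Prop :=
  ∃ ψ : Chain E (n - 1) →ₗ[ℂ] ℂ, φ = ψ ∘ₗ boundary E n (n - 1)

/-- The number `ζ` is an eigenvalue of the endomorphism of `H^n(E; ℂ)` induced by `f : E → E`: some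
cocycle `φ` with nonzero class satisfies `f^* [φ] = ζ [φ]`. -/
def IsCohomologyEigenvalue {E : Type} [TopologicalSpace E] (f : C(E, E)) (n : ℕ) (ζ : ℂ) : Prop :=
  ∃ φ : Chain E n →ₗ[ℂ] ℂ, IsCocycle φ ∧ ¬ IsCoboundary φ ∧
    IsCoboundary (φ ∘ₗ pushChain f n - ζ • φ)

theorem homotopy_aux (C : ChainComplex (ModuleCat.{0} ℂ) ℕ) (g : C ⟶ C) (K : Homotopy g (𝟙 C))
    (n : ℕ) (φ : C.X n →ₗ[ℂ] ℂ) (hφ : ∀ c, φ ((C.d (n + 1) n).hom c) = 0) :
    ∃ θ : C.X (n - 1) →ₗ[ℂ] ℂ, ∀ c, φ ((g.f n).hom c) - φ c = θ ((C.d n (n - 1)).hom c) := by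
  have hcomm : ∀ n, g.f n = dNext n K.hom + prevD n K.hom + 𝟙 (C.X n) := fun n => K.comm n
  rcases n with _ | n
  · refine ⟨0, fun c => ?_⟩
    rw [LinearMap.zero_apply, sub_eq_zero, hcomm 0, Homotopy.dNext_zero_chainComplex,
      Homotopy.prevD_chainComplex, zero_add, ModuleCat.hom_add, LinearMap.add_apply, map_add,
      ModuleCat.hom_comp, LinearMap.comp_apply, hφ, zero_add, ModuleCat.hom_id,
      LinearMap.id_apply]
  · refine ⟨φ.comp (K.hom n (n + 1)).hom, fun c => ?_⟩
    rw [sub_eq_iff_eq_add, hcomm (n + 1), Homotopy.dNext_succ_chainComplex,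
      Homotopy.prevD_chainComplex, ModuleCat.hom_add, LinearMap.add_apply, map_add,
      ModuleCat.hom_id, LinearMap.id_apply, ModuleCat.hom_add, LinearMap.add_apply, map_add,
      ModuleCat.hom_comp, ModuleCat.hom_comp, LinearMap.comp_apply, LinearMap.comp_apply,
      LinearMap.comp_apply, hφ, add_zero]
    rfl

/-- A continuous self-map homotopic to the identity has no eigenvalue other than `1` on
cohomology. -/
theorem eigenvalue_eq_one {E : Type} [TopologicalSpace E] (f : C(E, E))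
    (H : ContinuousMap.Homotopy f (ContinuousMap.id E)) (n : ℕ) (ζ : ℂ)
    (h : IsCohomologyEigenvalue f n ζ) : ζ = 1 := by
  obtain ⟨φ, hφ, hφ', ψ, hψ⟩ := h
  by_contra hζ
  apply hφ'
  let H' : TopCat.Homotopy (TopCat.ofHom f) (TopCat.ofHom (ContinuousMap.id E)) := H
  have hid : ((AlgebraicTopology.singularChainComplexFunctor (ModuleCat.{0} ℂ)).obj
    (ModuleCat.of ℂ ℂ)).map (TopCat.ofHom (ContinuousMap.id E)) = 𝟙 _ :=
    CategoryTheory.Functor.map_id _ _
  let K : Homotopy (chainsMap f) (𝟙 (chains E)) :=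
    (H'.singularChainComplexFunctorObjMap (ModuleCat.of ℂ ℂ)).trans (Homotopy.ofEq hid)
  have key : ∃ θ : Chain E (n - 1) →ₗ[ℂ] ℂ, ∀ c : Chain E n,
      φ (pushChain f n c) - φ c = θ (boundary E n (n - 1) c) :=
    homotopy_aux (chains E) (chainsMap f) K n φ fun c => LinearMap.congr_fun hφ c
  obtain ⟨θ, hθ⟩ := key
  have hζ' : ζ - 1 ≠ 0 := sub_ne_zero.2 hζ
  refine ⟨(ζ - 1)⁻¹ • (θ - ψ), ?_⟩
  refine LinearMap.ext fun c => ?_
  have h1 := hθ c
  have h2 : φ (pushChain f n c) - ζ * φ c = ψ (boundary E n (n - 1) c) :=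
    LinearMap.congr_fun hψ c
  change φ c = (ζ - 1)⁻¹ * (θ (boundary E n (n - 1) c) - ψ (boundary E n (n - 1) c))
  rw [← h1, ← h2]
  field_simp
  ring

/-- The punctured neighbourhood `T^* = {(x, z) : x ≠ 0, 0 < |z| < 1}` of the divisor
`D = ℂ^* × {0}` in the surface `Y = ℂ^* × ℂ`. -/
def TStar : Type := {p : ℂ × ℂ // p.1 ≠ 0 ∧ p.2 ≠ 0 ∧ ‖p.2‖ < 1}

noncomputable instance : TopologicalSpace TStar := instTopologicalSpaceSubtype

/-- The loop `s ↦ (x, exp (2 π i s) z)` in `T^*` based at `(x, z)`: the boundary of a small disc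
transversal to `D`. -/
noncomputable def meridian (b : TStar) : Path b b where
  toFun s := ⟨(b.1.1, Complex.exp (2 * Real.pi * Complex.I * (s : ℝ)) * b.1.2), b.2.1,
    mul_ne_zero (Complex.exp_ne_zero _) b.2.2.1, by
      have h : ‖Complex.exp (2 * Real.pi * Complex.I * (s : ℝ))‖ = 1 := by
        rw [show (2 * Real.pi * Complex.I * (s : ℝ) : ℂ) = ((2 * Real.pi * (s : ℝ) : ℝ) : ℂ) *
          Complex.I by push_cast; ring]
        exact Complex.norm_exp_ofReal_mul_I _
      rw [norm_mul, h, one_mul]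
      exact b.2.2.2⟩
  continuous_toFun := by
    refine Continuous.subtype_mk ?_ _
    fun_prop
  source' := by
    apply Subtype.ext
    simp
  target' := by
    apply Subtype.ext
    simp [Complex.exp_two_pi_mul_I]

/-- The infinite cyclic cover of `T^*`, the pull-back of the universal cover `exp : ℂ → ℂ^*` under
the map `T^* → ℂ^*`, `(x, z) ↦ x z ^ m`: the space of all `(x, z, w)` with `(x, z)` in `T^*` and
`exp w = x z ^ m`. -/
def Cov (m : ℕ) : Type :=
  {p : ℂ × ℂ × ℂ // Complex.exp p.2.2 = p.1 * p.2.1 ^ m ∧ p.2.1 ≠ 0 ∧ ‖p.2.1‖ < 1}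

noncomputable instance (m : ℕ) : TopologicalSpace (Cov m) := instTopologicalSpaceSubtype

/-- The covering map `(x, z, w) ↦ (x, z)`. -/
def proj (m : ℕ) (p : Cov m) : TStar :=
  ⟨(p.1.1, p.1.2.1), by
    have h := p.2.1
    intro h0
    rw [show p.1.1 = 0 from h0, zero_mul] at h
    exact Complex.exp_ne_zero _ h, p.2.2⟩

/-- The action of `ℤ` on the cover, `k +ᵥ (x, z, w) = (x, z, w + 2 π i k)`. -/
noncomputable instance (m : ℕ) : AddAction ℤ (Cov m) where
  vadd k p := ⟨(p.1.1, p.1.2.1, p.1.2.2 + 2 * Real.pi * Complex.I * k), by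
    rw [Complex.exp_add, show (2 * Real.pi * Complex.I * k : ℂ) = k * (2 * Real.pi * Complex.I) by
      ring, Complex.exp_int_mul_two_pi_mul_I, mul_one]
    exact p.2.1, p.2.2⟩
  zero_vadd p := by
    apply Subtype.ext
    change (p.1.1, p.1.2.1, p.1.2.2 + 2 * Real.pi * Complex.I * ((0 : ℤ) : ℂ)) = p.1
    simp
  add_vadd k l p := by
    apply Subtype.ext
    change (p.1.1, p.1.2.1, p.1.2.2 + 2 * Real.pi * Complex.I * ((k + l : ℤ) : ℂ)) =
      (p.1.1, p.1.2.1, (p.1.2.2 + 2 * Real.pi * Complex.I * (l : ℂ)) +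
        2 * Real.pi * Complex.I * (k : ℂ))
    refine Prod.ext rfl (Prod.ext rfl ?_)
    push_cast
    ring

theorem vadd_val {m : ℕ} (k : ℤ) (p : Cov m) :
    (k +ᵥ p).1 = (p.1.1, p.1.2.1, p.1.2.2 + 2 * Real.pi * Complex.I * k) := rfl

/-- The generator `t` of the group of deck transformations, `t (x, z, w) = (x, z, w + 2 π i)`. -/
noncomputable def deck (m : ℕ) : C(Cov m, Cov m) where
  toFun p := (1 : ℤ) +ᵥ p
  continuous_toFun := by
    refine Continuous.subtype_mk ?_ _
    have : Continuous fun p : Cov m => (p.1 : ℂ × ℂ × ℂ) := continuous_subtype_val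
    fun_prop

end Pool.Agent.W458
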