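import Mathlib
import Pool.Agent.W458.Top

open Complex Topology

namespace Pool.Agent.W458

/-- The punctured disc. -/
abbrev DStar : Type := {z : ℂ // z ≠ 0 ∧ ‖z‖ < 1}

/-- Coordinates on the cover. -/
noncomputable def covEquiv (m : ℕ) : ℂ × DStar ≃ₜ Cov m where
  toFun p := ⟨(exp p.1 / (p.2 : ℂ) ^ m, (p.2 : ℂ), p.1), by
    have := pow_ne_zero m p.2.2.1
    change exp p.1 = exp p.1 / (p.2 : ℂ) ^ m * (p.2 : ℂ) ^ m
    rw [div_mul_cancel₀ _ this], p.2.2⟩
  invFun q := (q.1.2.2, ⟨q.1.2.1, q.2.2⟩)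
  left_inv p := rfl
  right_inv q := by
    apply Subtype.ext
    have h : q.1.1 = exp q.1.2.2 / q.1.2.1 ^ m := by
      rw [q.2.1, mul_div_cancel_right₀ _ (pow_ne_zero m q.2.2.1)]
    exact Prod.ext h.symm rfl
  continuous_toFun := by
    refine Continuous.subtype_mk ?_ _
    have h2 : Continuous fun p : ℂ × DStar => (p.2 : ℂ) := by fun_prop
    have h1 : Continuous fun p : ℂ × DStar => exp p.1 / (p.2 : ℂ) ^ m :=
      Continuous.div (by fun_prop) (h2.pow m) (fun p => pow_ne_zero m p.2.2.1)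
    exact h1.prodMk (h2.prodMk continuous_fst)
  continuous_invFun := by
    have : Continuous fun p : Cov m => (p.1 : ℂ × ℂ × ℂ) := continuous_subtype_val
    refine Continuous.prodMk (by fun_prop) (Continuous.subtype_mk (by fun_prop) _)

/-- Coordinates on the base. -/
noncomputable def baseEquiv (m : ℕ) : {x : ℂ // x ≠ 0} × DStar ≃ₜ TStar where
  toFun p := ⟨((p.1 : ℂ) / (p.2 : ℂ) ^ m, (p.2 : ℂ)),
    div_ne_zero p.1.2 (pow_ne_zero m p.2.2.1), p.2.2⟩
  invFun q := (⟨q.1.1 * q.1.2 ^ m, mul_ne_zero q.2.1 (pow_ne_zero m q.2.2.1)⟩, ⟨q.1.2, q.2.2⟩)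
  left_inv p := by
    refine Prod.ext (Subtype.ext ?_) rfl
    change (p.1 : ℂ) / (p.2 : ℂ) ^ m * (p.2 : ℂ) ^ m = p.1
    rw [div_mul_cancel₀ _ (pow_ne_zero m p.2.2.1)]
  right_inv q := by
    apply Subtype.ext
    refine Prod.ext ?_ rfl
    change q.1.1 * q.1.2 ^ m / q.1.2 ^ m = q.1.1
    rw [mul_div_cancel_right₀ _ (pow_ne_zero m q.2.2.1)]
  continuous_toFun := by
    refine Continuous.subtype_mk ?_ _
    have h2 : Continuous fun p : {x : ℂ // x ≠ 0} × DStar => (p.2 : ℂ) := by fun_prop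
    have h1 : Continuous fun p : {x : ℂ // x ≠ 0} × DStar => (p.1 : ℂ) / (p.2 : ℂ) ^ m :=
      Continuous.div (by fun_prop) (h2.pow m) (fun p => pow_ne_zero m p.2.2.1)
    exact h1.prodMk h2
  continuous_invFun := by
    have : Continuous fun p : TStar => (p.1 : ℂ × ℂ) := continuous_subtype_val
    refine Continuous.prodMk (Continuous.subtype_mk (by fun_prop) _)
      (Continuous.subtype_mk (by fun_prop) _)

theorem proj_eq (m : ℕ) : proj m = (baseEquiv m) ∘
    (Prod.map (fun z : ℂ ↦ (⟨_, z.exp_ne_zero⟩ : {z : ℂ // z ≠ 0})) id) ∘ (covEquiv m).symm := by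
  funext q
  apply Subtype.ext
  refine Prod.ext ?_ rfl
  change q.1.1 = exp q.1.2.2 / q.1.2.1 ^ m
  rw [q.2.1, mul_div_cancel_right₀ _ (pow_ne_zero m q.2.2.1)]

theorem isQuotientMap_proj (m : ℕ) : IsQuotientMap (proj m) := by
  rw [proj_eq]
  have h1 : IsOpenQuotientMap (fun z : ℂ ↦ (⟨_, z.exp_ne_zero⟩ : {z : ℂ // z ≠ 0})) :=
    Complex.isAddQuotientCoveringMap_exp.isOpenQuotientMap
  have h2 := h1.prodMap (IsOpenQuotientMap.id (X := DStar))
  exact (baseEquiv m).isQuotientMap.comp (h2.isQuotientMap.comp (covEquiv m).symm.isQuotientMap)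

theorem continuous_vadd_cov (m : ℕ) (k : ℤ) : Continuous fun p : Cov m => k +ᵥ p := by
  refine Continuous.subtype_mk ?_ _
  have : Continuous fun p : Cov m => (p.1 : ℂ × ℂ × ℂ) := continuous_subtype_val
  fun_prop

theorem isCover (m : ℕ) : IsAddQuotientCoveringMap (proj m) ℤ where
  toIsQuotientMap := isQuotientMap_proj m
  continuous_const_vadd := continuous_vadd_cov m
  apply_eq_iff_mem_orbit := by
    intro p q
    constructor
    · intro h
      have h1 : p.1.1 = q.1.1 := congrArg (fun b : TStar => b.1.1) h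
      have h2 : p.1.2.1 = q.1.2.1 := congrArg (fun b : TStar => b.1.2) h
      have h3 : exp p.1.2.2 = exp q.1.2.2 := by rw [p.2.1, q.2.1, h1, h2]
      obtain ⟨k, hk⟩ := Complex.exp_eq_exp_iff_exists_int.1 h3
      refine ⟨k, ?_⟩
      apply Subtype.ext
      change (q.1.1, q.1.2.1, q.1.2.2 + 2 * Real.pi * Complex.I * k) = p.1
      refine Prod.ext h1.symm (Prod.ext h2.symm ?_)
      change q.1.2.2 + 2 * Real.pi * Complex.I * k = p.1.2.2
      rw [hk]; ring
    · rintro ⟨k, rfl⟩
      rfl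
  disjoint := by
    intro e
    refine ⟨{p | ‖p.1.2.2 - e.1.2.2‖ < Real.pi}, ?_, ?_⟩
    · refine IsOpen.mem_nhds ?_ ?_
      · have : Continuous fun p : Cov m => (p.1 : ℂ × ℂ × ℂ) := continuous_subtype_val
        exact isOpen_lt (by fun_prop) continuous_const
      · change ‖e.1.2.2 - e.1.2.2‖ < Real.pi
        rw [sub_self, norm_zero]
        exact Real.pi_pos
    · rintro k ⟨_, ⟨p, hp, rfl⟩, hp'⟩
      have h1 : ‖p.1.2.2 - e.1.2.2‖ < Real.pi := hp
      have h2 : ‖(p.1.2.2 + 2 * Real.pi * Complex.I * k) - e.1.2.2‖ < Real.pi := hp'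
      have h3 : ‖(2 * Real.pi * Complex.I * k : ℂ)‖ < 2 * Real.pi := by
        have : (2 * Real.pi * Complex.I * k : ℂ) =
            ((p.1.2.2 + 2 * Real.pi * Complex.I * k) - e.1.2.2) - (p.1.2.2 - e.1.2.2) := by ring
        rw [this]
        refine (norm_sub_le _ _).trans_lt ?_
        linarith
      have h4 : ‖(2 * Real.pi * Complex.I * k : ℂ)‖ = 2 * Real.pi * |(k : ℝ)| := by
        simp [abs_of_pos Real.pi_pos]
      rw [h4] at h3
      have h5 : |(k : ℝ)| < 1 := by
        have := Real.pi_pos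
        by_contra h
        push Not at h
        nlinarith
      have h6 : |k| < 1 := by exact_mod_cast h5
      exact Int.abs_lt_one_iff.1 h6

theorem pathConnected_cov (m : ℕ) : PathConnectedSpace (Cov m) := by
  have h0 : IsPathConnected {z : ℂ | z.re < 0} :=
    (convex_halfSpace_re_lt 0).isPathConnected ⟨-1, by simp⟩
  have h1 : PathConnectedSpace {z : ℂ | z.re < 0} := isPathConnected_iff_pathConnectedSpace.1 h0
  let g : {z : ℂ | z.re < 0} → DStar := fun u => ⟨exp u, exp_ne_zero _, by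
    rw [Complex.norm_exp]
    rw [← Real.exp_zero]
    exact Real.exp_lt_exp.2 u.2⟩
  have hg : Continuous g := Continuous.subtype_mk (by fun_prop) _
  have hgs : Function.Surjective g := by
    intro z
    refine ⟨⟨log z, ?_⟩, Subtype.ext (exp_log z.2.1)⟩
    change (log (z : ℂ)).re < 0
    rw [Complex.log_re]
    exact Real.log_neg (norm_pos_iff.2 z.2.1) z.2.2
  have h2 : PathConnectedSpace DStar := hgs.pathConnectedSpace hg
  exact (covEquiv m).surjective.pathConnectedSpace (covEquiv m).continuous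

/-- The lift of the meridian. -/
noncomputable def merLift (m : ℕ) (e : Cov m) : Path e ((m : ℤ) +ᵥ e) where
  toFun s := ⟨(e.1.1, exp (2 * Real.pi * Complex.I * (s : ℝ)) * e.1.2.1,
      e.1.2.2 + 2 * Real.pi * Complex.I * (m * (s : ℝ))), by
    constructor
    · change exp (e.1.2.2 + 2 * Real.pi * Complex.I * (m * (s : ℝ))) =
        e.1.1 * (exp (2 * Real.pi * Complex.I * (s : ℝ)) * e.1.2.1) ^ m
      rw [Complex.exp_add, e.2.1, mul_pow, ← Complex.exp_nat_mul]
      rw [show (m : ℂ) * (2 * Real.pi * Complex.I * (s : ℝ)) =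
        2 * Real.pi * Complex.I * (m * (s : ℝ)) by ring]
      ring
    · refine ⟨mul_ne_zero (Complex.exp_ne_zero _) e.2.2.1, ?_⟩
      have h : ‖Complex.exp (2 * Real.pi * Complex.I * (s : ℝ))‖ = 1 := by
        rw [show (2 * Real.pi * Complex.I * (s : ℝ) : ℂ) = ((2 * Real.pi * (s : ℝ) : ℝ) : ℂ) *
          Complex.I by push_cast; ring]
        exact Complex.norm_exp_ofReal_mul_I _
      change ‖Complex.exp (2 * Real.pi * Complex.I * (s : ℝ)) * e.1.2.1‖ < 1
      rw [norm_mul, h, one_mul]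
      exact e.2.2.2⟩
  continuous_toFun := by
    refine Continuous.subtype_mk ?_ _
    fun_prop
  source' := by
    apply Subtype.ext
    simp
  target' := by
    apply Subtype.ext
    rw [vadd_val]
    simp [Complex.exp_two_pi_mul_I]

theorem monodromy_meridian (m : ℕ) (b : TStar) (e : proj m ⁻¹' {b}) :
    ((isCover m).isCoveringMap.monodromy (Path.Homotopic.Quotient.mk (meridian b)) e : Cov m) =
      (m : ℤ) +ᵥ (e : Cov m) := by
  obtain ⟨e, he⟩ := e
  have he' : proj m e = b := he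
  subst he'
  have h := (isCover m).isCoveringMap.monodromy_eq_of_map_eq
    (γ := Path.Homotopic.Quotient.mk (meridian (proj m e)))
    (ex := ⟨e, rfl⟩) (ey := ⟨(m : ℤ) +ᵥ e, rfl⟩)
    (Path.Homotopic.Quotient.mk (merLift m e)) rfl
  exact congrArg Subtype.val h

/-- The homotopy between the deck transformation and the identity. -/
noncomputable def deckHomotopy (m : ℕ) :
    ContinuousMap.Homotopy (deck m) (ContinuousMap.id (Cov m)) where
  toFun p := ⟨(exp (2 * Real.pi * Complex.I * (1 - (p.1 : ℝ))) * p.2.1.1, p.2.1.2.1,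
      p.2.1.2.2 + 2 * Real.pi * Complex.I * (1 - (p.1 : ℝ))), by
    constructor
    · change exp (p.2.1.2.2 + 2 * Real.pi * Complex.I * (1 - (p.1 : ℝ))) =
        exp (2 * Real.pi * Complex.I * (1 - (p.1 : ℝ))) * p.2.1.1 * p.2.1.2.1 ^ m
      rw [Complex.exp_add, p.2.2.1]
      ring
    · exact p.2.2.2⟩
  continuous_toFun := by
    refine Continuous.subtype_mk ?_ _
    have : Continuous fun p : unitInterval × Cov m => (p.2.1 : ℂ × ℂ × ℂ) :=
      continuous_subtype_val.comp continuous_snd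
    fun_prop
  map_zero_left p := by
    apply Subtype.ext
    change (_, _, _) = (p.1.1, p.1.2.1, p.1.2.2 + 2 * Real.pi * Complex.I * ((1 : ℤ) : ℂ))
    simp [Complex.exp_two_pi_mul_I]
  map_one_left p := by
    apply Subtype.ext
    simp

/-- All eigenvalues of the deck transformation on cohomology are equal to `1`. -/
theorem deck_eigenvalue (m n : ℕ) (ζ : ℂ) (h : IsCohomologyEigenvalue (deck m) n ζ) : ζ = 1 :=
  eigenvalue_eq_one (deck m) (deckHomotopy m) n ζ h

end Pool.Agent.W458
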