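import Pool.Agent.W458.StN

/-!
# Polynomial form of the counterexample
-/

set_option autoImplicit false
set_option linter.unusedSectionVars false

namespace Pool.Agent.W458.St

open Module MvPolynomial

theorem exists_lin {σ : Type} (p : MvPolynomial σ ℂ) (hp : p.IsHomogeneous 1) :
    ∃ L : (σ → ℂ) →ₗ[ℂ] ℂ, ∀ z, eval z p = L z := by
  have h1 : p ∈ homogeneousSubmodule σ ℂ 1 := hp
  rw [homogeneousSubmodule_one_eq_span_X] at h1
  induction h1 using Submodule.span_induction with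
  | mem x hx =>
    obtain ⟨i, rfl⟩ := hx
    exact ⟨LinearMap.proj i, fun z => by simp⟩
  | zero => exact ⟨0, fun z => by simp⟩
  | add x y hx hy h1 h2 =>
    have hx' : x.IsHomogeneous 1 := by
      rw [← mem_homogeneousSubmodule, homogeneousSubmodule_one_eq_span_X]; exact hx
    have hy' : y.IsHomogeneous 1 := by
      rw [← mem_homogeneousSubmodule, homogeneousSubmodule_one_eq_span_X]; exact hy
    obtain ⟨L1, hL1⟩ := h1 hx'
    obtain ⟨L2, hL2⟩ := h2 hy'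
    exact ⟨L1 + L2, fun z => by rw [map_add, hL1, hL2]; rfl⟩
  | smul a x hx h1 =>
    have hx' : x.IsHomogeneous 1 := by
      rw [← mem_homogeneousSubmodule, homogeneousSubmodule_one_eq_span_X]; exact hx
    obtain ⟨L1, hL1⟩ := h1 hx'
    exact ⟨a • L1, fun z => by rw [smul_eval, hL1]; rfl⟩

/-- the polynomial of a linear form -/
noncomputable def pol {σ : Type} [Fintype σ] [DecidableEq σ] (L : (σ → ℂ) →ₗ[ℂ] ℂ) :
    MvPolynomial σ ℂ := ∑ j, C (L (Pi.single j 1)) * X j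

theorem pol_hom {σ : Type} [Fintype σ] [DecidableEq σ] (L : (σ → ℂ) →ₗ[ℂ] ℂ) :
    (pol L).IsHomogeneous 1 :=
  IsHomogeneous.sum _ _ _ fun _ _ => isHomogeneous_C_mul_X _ _

theorem eval_pol {σ : Type} [Fintype σ] [DecidableEq σ] (L : (σ → ℂ) →ₗ[ℂ] ℂ) (z : σ → ℂ) :
    eval z (pol L) = L z := by
  unfold pol
  rw [map_sum]
  conv_rhs => rw [pi_eq_sum_univ' z]
  rw [map_sum]
  refine Finset.sum_congr rfl fun i _ => ?_
  rw [map_smul, smul_eq_mul, map_mul, eval_C, eval_X, mul_comm]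

theorem main_poly : ∃ (N R : ℕ) (P1 P2 : MvPolynomial (Fin (N + 1)) ℂ),
    P1.IsHomogeneous 3 ∧ P2.IsHomogeneous 3 ∧
    (∃ L : Fin R → ((Fin (N + 1) → ℂ) × (Fin (N + 1) → ℂ)) →ₗ[ℂ] ℂ,
      ∀ z z', eval z P1 + eval z' P2 = ∑ j, (L j (z, z')) ^ 3) ∧
    WD (fun z => eval z P1) R ∧ WD (fun z => eval z P2) R ∧
    (∀ r1 r2, WD (fun z => eval z P1) r1 → WD (fun z => eval z P2) r2 → R < r1 + r2) := by
  obtain ⟨N, R, F1, F2, h1, h2, ⟨L, hL⟩, hlow⟩ := core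
  let L1 : Fin R → (Fin (N + 1) → ℂ) →ₗ[ℂ] ℂ := fun j => L j ∘ₗ LinearMap.inl ℂ _ _
  let L2 : Fin R → (Fin (N + 1) → ℂ) →ₗ[ℂ] ℂ := fun j => L j ∘ₗ LinearMap.inr ℂ _ _
  have e1 : ∀ z, F1 z = ∑ j, (L1 j z) ^ 3 := by
    intro z
    have := hL (z, 0)
    simp only [h2, add_zero] at this
    exact this
  have e2 : ∀ z, F2 z = ∑ j, (L2 j z) ^ 3 := by
    intro z
    have := hL (0, z)
    simp only [h1, zero_add] at this
    exact this
  have f1 : (fun z => eval z (∑ j, (pol (L1 j)) ^ 3)) = F1 := by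
    funext z
    rw [map_sum, e1]
    refine Finset.sum_congr rfl fun j _ => ?_
    rw [map_pow, eval_pol]
  have f2 : (fun z => eval z (∑ j, (pol (L2 j)) ^ 3)) = F2 := by
    funext z
    rw [map_sum, e2]
    refine Finset.sum_congr rfl fun j _ => ?_
    rw [map_pow, eval_pol]
  refine ⟨N, R, ∑ j, (pol (L1 j)) ^ 3, ∑ j, (pol (L2 j)) ^ 3, ?_, ?_, ⟨L, ?_⟩, ?_, ?_, ?_⟩
  · exact IsHomogeneous.sum _ _ _ fun j _ => (pol_hom (L1 j)).pow 3
  · exact IsHomogeneous.sum _ _ _ fun j _ => (pol_hom (L2 j)).pow 3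
  · intro z z'
    have g1 := congrFun f1 z
    have g2 := congrFun f2 z'
    rw [g1, g2]
    exact hL (z, z')
  · rw [f1]; exact ⟨L1, e1⟩
  · rw [f2]; exact ⟨L2, e2⟩
  · rw [f1, f2]; exact hlow

end Pool.Agent.W458.St
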