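import Mathlib

/-!
# Counting parameters with transcendence degree

If finitely many complex numbers which are algebraically independent over `ℚ` all lie in the
field generated by `t` complex numbers, then there are at most `t` of them.
-/

set_option autoImplicit false

namespace Pool.Agent.W458.St

open IntermediateField

/-- The field generated over `ℚ` by a set of complex numbers. -/
noncomputable abbrev Fld (s : Set ℂ) : IntermediateField ℚ ℂ := IntermediateField.adjoin ℚ s

theorem card_le_of_mem_fld {ι κ : Type*} [Fintype ι] [Fintype κ] (z : ι → ℂ)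
    (hz : AlgebraicIndependent ℚ z) (w : κ → ℂ) (s : Set ℂ) (hs : s ⊆ Set.range w)
    (h : ∀ i, z i ∈ Fld s) : Fintype.card ι ≤ Fintype.card κ := by
  classical
  have hI : (AlgebraicIndependent.matroid ℚ ℂ).Indep (Set.range z) := by
    rw [AlgebraicIndependent.matroid_indep_iff]
    exact hz.coe_range
  have hcl : Set.range z ⊆ (AlgebraicIndependent.matroid ℚ ℂ).closure s := by
    rintro _ ⟨i, rfl⟩
    rw [AlgebraicIndependent.matroid_closure_eq]
    have := h i
    rw [IntermediateField.mem_adjoin_iff_div] at this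
    obtain ⟨r, hr, t, ht, e⟩ := this
    change z i ∈ Subalgebra.algebraicClosure (Algebra.adjoin ℚ s) ℂ
    rw [Subalgebra.mem_algebraicClosure]
    rw [e]
    have h1 : IsAlgebraic (Algebra.adjoin ℚ s) r :=
      isAlgebraic_algebraMap (A := ℂ) (⟨r, hr⟩ : Algebra.adjoin ℚ s)
    have h2 : IsAlgebraic (Algebra.adjoin ℚ s) t :=
      isAlgebraic_algebraMap (A := ℂ) (⟨t, ht⟩ : Algebra.adjoin ℚ s)
    rw [div_eq_mul_inv]
    exact h1.mul (IsAlgebraic.inv_iff.mpr h2)
  have h3 := hI.encard_le_eRk_of_subset hcl
  rw [Matroid.eRk_closure_eq] at h3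
  have h4 : (AlgebraicIndependent.matroid ℚ ℂ).eRk s ≤ s.encard := Matroid.eRk_le_encard _ _
  have h5 : s.encard ≤ (Set.range w).encard := Set.encard_le_encard hs
  have h6 : (Set.range w).encard ≤ (Fintype.card κ : ℕ∞) := by
    rw [← Set.image_univ]
    refine (Set.encard_image_le _ _).trans ?_
    rw [Set.encard_univ, ENat.card_eq_coe_fintype_card]
  have h7 : (Set.range z).encard = (Fintype.card ι : ℕ∞) := by
    rw [← Set.image_univ, hz.injective.injOn.encard_image, Set.encard_univ,
      ENat.card_eq_coe_fintype_card]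
  rw [h7] at h3
  exact_mod_cast h3.trans (h4.trans (h5.trans h6))

theorem exists_algebraicIndependent (ι : Type) [Finite ι] :
    ∃ z : ι → ℂ, AlgebraicIndependent ℚ z := by
  obtain ⟨s, hs⟩ := exists_isTranscendenceBasis ℚ ℂ
  have hc := IsAlgClosed.cardinal_eq_cardinal_transcendence_basis_of_aleph0_lt ((↑) : s → ℂ) hs
    (by rw [Cardinal.mkRat]) (by rw [Cardinal.mk_complex]; exact Cardinal.aleph0_lt_continuum)
  have hinf : Infinite s := by
    rw [Cardinal.infinite_iff]
    have : Cardinal.mk ℂ = Cardinal.mk s := by simpa using hc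
    rw [← this, Cardinal.mk_complex]
    exact Cardinal.aleph0_le_continuum
  cases nonempty_fintype ι
  obtain ⟨f⟩ : Nonempty (ι ↪ s) := by
    exact ⟨(Fintype.equivFin ι).toEmbedding.trans (Fin.valEmbedding.trans
      (Infinite.natEmbedding s))⟩
  exact ⟨fun i => (f i : ℂ), hs.1.comp f f.injective⟩

end Pool.Agent.W458.St
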