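import Mathlib

/-!
# The substitution (adjoining) lower bound

`F(x,w) = T(x) + ∑ w_i ℓ_i(x)^2` with the `ℓ_i^2` linearly independent: substituting in each of the
three tensor directions kills `3 N` terms of any decomposition.
-/

set_option autoImplicit false

namespace Pool.Agent.W458.St

open Module

theorem kill {J K : Type*} [Fintype J] [Fintype K] [DecidableEq K]
    {V : Type*} [AddCommGroup V] [Module ℂ V]
    (c : K → (J → ℂ) →ₗ[ℂ] ℂ) (P : Finset K)
    (hP : ∀ w : J → ℂ, (∀ k ∈ P, c k w = 0) → w = 0) (p : K → V →ₗ[ℂ] ℂ) :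
    ∃ Q ⊆ P, Q.card = Fintype.card J ∧
      ∃ φ : V →ₗ[ℂ] (J → ℂ), ∀ k ∈ Q, ∀ x, p k x + c k (φ x) = 0 := by
  classical
  let f : P → Dual ℂ (J → ℂ) := fun k => c k
  obtain ⟨κ, a, ha, hspan, hli⟩ := exists_linearIndependent' ℂ f
  have hfin : Finite κ := Finite.of_injective a ha
  have : Fintype κ := Fintype.ofFinite κ
  let Ψ : (J → ℂ) →ₗ[ℂ] (κ → ℂ) := LinearMap.pi fun i => c (a i)
  have hinj : Function.Injective Ψ := by
    rw [injective_iff_map_eq_zero]
    intro w hw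
    apply hP
    intro k hk
    have h1 : f ⟨k, hk⟩ ∈ Submodule.span ℂ (Set.range (f ∘ a)) := by
      rw [hspan]; exact Submodule.subset_span ⟨_, rfl⟩
    have h2 : Submodule.span ℂ (Set.range (f ∘ a)) ≤ LinearMap.ker (Dual.eval ℂ (J → ℂ) w) := by
      rw [Submodule.span_le]
      rintro _ ⟨i, rfl⟩
      have := congrFun hw i
      simpa [Ψ, f] using this
    have := h2 h1
    simpa [f] using this
  have hcard1 : Fintype.card κ ≤ Fintype.card J := by
    have := hli.fintype_card_le_finrank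
    simpa [Subspace.dual_finrank_eq] using this
  have hcard2 : Fintype.card J ≤ Fintype.card κ := by
    have := LinearMap.finrank_le_finrank_of_injective hinj
    simpa using this
  have hcard : Fintype.card κ = Fintype.card J := le_antisymm hcard1 hcard2
  have hsurj : Function.Surjective Ψ := by
    rw [← LinearMap.injective_iff_surjective_of_finrank_eq_finrank (by simp [hcard])]
    exact hinj
  let e : (J → ℂ) ≃ₗ[ℂ] (κ → ℂ) := LinearEquiv.ofBijective Ψ ⟨hinj, hsurj⟩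
  refine ⟨Finset.univ.image (fun i => (a i : K)), ?_, ?_, ?_⟩
  · intro k hk
    simp only [Finset.mem_image, Finset.mem_univ, true_and] at hk
    obtain ⟨i, rfl⟩ := hk
    exact (a i).2
  · have hinj' : Function.Injective (fun i => (a i : K)) := Subtype.val_injective.comp ha
    rw [Finset.card_image_of_injective _ hinj', Finset.card_univ, hcard]
  · refine ⟨e.symm.toLinearMap ∘ₗ (LinearMap.pi fun i => - p (a i)), ?_⟩
    intro k hk x
    simp only [Finset.mem_image, Finset.mem_univ, true_and] at hk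
    obtain ⟨i, rfl⟩ := hk
    have h1 : e (e.symm (fun i => - p (a i) x)) = fun i => - p (a i) x := e.apply_symm_apply _
    have h2 := congrFun h1 i
    have h3 : c (a i) (e.symm (fun i => - p (a i) x)) = - p (a i) x := h2
    have h4 : (e.symm.toLinearMap ∘ₗ (LinearMap.pi fun i => - p (a i))) x
        = e.symm (fun i => - p (a i) x) := rfl
    rw [h4, h3]; ring

theorem adjoin_lower {V : Type*} [AddCommGroup V] [Module ℂ V] {J K : Type*} [Fintype J]
    [Fintype K] (ℓ : J → V →ₗ[ℂ] ℂ)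
    (hℓ : ∀ w : J → ℂ, (∀ x x', ∑ i, w i * (ℓ i x * ℓ i x') = 0) → w = 0)
    (T : V → V → V → ℂ) (L : K → (V × (J → ℂ)) →ₗ[ℂ] ℂ)
    (hT1 : ∀ x y, T 0 x y = 0) (hT2 : ∀ x y, T x 0 y = 0) (hT3 : ∀ x y, T x y 0 = 0)
    (hL : ∀ z1 z2 z3, ∑ k, L k z1 * L k z2 * L k z3 = T z1.1 z2.1 z3.1 +
      ∑ i, (z1.2 i * (ℓ i z2.1 * ℓ i z3.1) + z2.2 i * (ℓ i z1.1 * ℓ i z3.1)
        + z3.2 i * (ℓ i z1.1 * ℓ i z2.1))) :
    ∃ ρ, Fintype.card K = 3 * Fintype.card J + ρ ∧
      ∃ (φ1 φ2 φ3 : V →ₗ[ℂ] (J → ℂ)) (u v w : Fin ρ → V →ₗ[ℂ] ℂ), ∀ x1 x2 x3,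
        T x1 x2 x3 + ∑ i, (φ1 x1 i * (ℓ i x2 * ℓ i x3) + φ2 x2 i * (ℓ i x1 * ℓ i x3)
          + φ3 x3 i * (ℓ i x1 * ℓ i x2)) = ∑ l, u l x1 * v l x2 * w l x3 := by
  classical
  let p : K → V →ₗ[ℂ] ℂ := fun k => L k ∘ₗ LinearMap.inl ℂ V (J → ℂ)
  let c : K → (J → ℂ) →ₗ[ℂ] ℂ := fun k => L k ∘ₗ LinearMap.inr ℂ V (J → ℂ)
  have hpc : ∀ k x w, L k (x, w) = p k x + c k w := by
    intro k x w
    have : (x, w) = LinearMap.inl ℂ V (J → ℂ) x + LinearMap.inr ℂ V (J → ℂ) w := by simp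
    rw [this, map_add]; rfl
  have hc0 : ∀ k w, L k (0, w) = c k w := by
    intro k w; rw [hpc]; simp
  -- first direction
  obtain ⟨Q1, -, hQ1, φ1, h1⟩ := kill (V := V) c Finset.univ (by
    intro w hw
    apply hℓ
    intro x x'
    have := hL (0, w) (x, 0) (x', 0)
    simp only [hT1, map_zero, Pi.zero_apply, zero_mul, mul_zero, add_zero, zero_add] at this
    rw [← this]
    refine Finset.sum_eq_zero fun k _ => ?_
    rw [hc0, hw k (Finset.mem_univ k)]; ring) p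
  have e1 : ∀ x1 z2 z3, ∑ k ∈ Finset.univ \ Q1, L k (x1, φ1 x1) * L k z2 * L k z3
      = ∑ k, L k (x1, φ1 x1) * L k z2 * L k z3 := by
    intro x1 z2 z3
    apply Finset.sum_subset (Finset.subset_univ _)
    intro k _ hk
    have : k ∈ Q1 := by simpa using hk
    rw [hpc k x1, h1 k this]; ring
  obtain ⟨Q2, hQ2s, hQ2, φ2, h2⟩ := kill (V := V) c (Finset.univ \ Q1) (by
    intro w hw
    apply hℓ
    intro x x'
    have := hL (x, φ1 x) (0, w) (x', 0)
    simp only [hT2, map_zero, Pi.zero_apply, zero_mul, mul_zero, add_zero, zero_add] at this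
    rw [← this, ← e1]
    refine Finset.sum_eq_zero fun k hk => ?_
    rw [hc0, hw k hk]; ring) p
  have e2 : ∀ x1 x2 z3, ∑ k ∈ (Finset.univ \ Q1) \ Q2,
        L k (x1, φ1 x1) * L k (x2, φ2 x2) * L k z3
      = ∑ k, L k (x1, φ1 x1) * L k (x2, φ2 x2) * L k z3 := by
    intro x1 x2 z3
    rw [← e1]
    apply Finset.sum_subset Finset.sdiff_subset
    intro k hk hk'
    have : k ∈ Q2 := by
      by_contra h
      exact hk' (Finset.mem_sdiff.mpr ⟨hk, h⟩)
    rw [hpc k x2, h2 k this]; ring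
  obtain ⟨Q3, hQ3s, hQ3, φ3, h3⟩ := kill (V := V) c ((Finset.univ \ Q1) \ Q2) (by
    intro w hw
    apply hℓ
    intro x x'
    have := hL (x, φ1 x) (x', φ2 x') (0, w)
    simp only [hT3, map_zero, mul_zero, add_zero, zero_add] at this
    rw [← this, ← e2]
    refine Finset.sum_eq_zero fun k hk => ?_
    rw [hc0, hw k hk]; ring) p
  have e3 : ∀ x1 x2 x3, ∑ k ∈ ((Finset.univ \ Q1) \ Q2) \ Q3,
        L k (x1, φ1 x1) * L k (x2, φ2 x2) * L k (x3, φ3 x3)
      = ∑ k, L k (x1, φ1 x1) * L k (x2, φ2 x2) * L k (x3, φ3 x3) := by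
    intro x1 x2 x3
    rw [← e2]
    apply Finset.sum_subset Finset.sdiff_subset
    intro k hk hk'
    have : k ∈ Q3 := by
      by_contra h
      exact hk' (Finset.mem_sdiff.mpr ⟨hk, h⟩)
    rw [hpc k x3, h3 k this]; ring
  set P4 := ((Finset.univ \ Q1) \ Q2) \ Q3 with hP4
  have hcard : Fintype.card K = 3 * Fintype.card J + P4.card := by
    have a1 : (Finset.univ \ Q1).card + Q1.card = Fintype.card K := by
      rw [Finset.card_sdiff_add_card_eq_card (Finset.subset_univ _), Finset.card_univ]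
    have a2 : ((Finset.univ \ Q1) \ Q2).card + Q2.card = (Finset.univ \ Q1).card :=
      Finset.card_sdiff_add_card_eq_card hQ2s
    have a3 : P4.card + Q3.card = ((Finset.univ \ Q1) \ Q2).card :=
      Finset.card_sdiff_add_card_eq_card hQ3s
    omega
  refine ⟨P4.card, hcard, φ1, φ2, φ3, ?_⟩
  let en : Fin P4.card ≃ P4 := P4.equivFin.symm
  refine ⟨fun l => L (en l) ∘ₗ (LinearMap.prod LinearMap.id φ1),
    fun l => L (en l) ∘ₗ (LinearMap.prod LinearMap.id φ2),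
    fun l => L (en l) ∘ₗ (LinearMap.prod LinearMap.id φ3), ?_⟩
  intro x1 x2 x3
  have h4 := hL (x1, φ1 x1) (x2, φ2 x2) (x3, φ3 x3)
  simp only at h4
  rw [← h4, ← e3]
  have h5 : ∑ l, L (en l) (x1, φ1 x1) * L (en l) (x2, φ2 x2) * L (en l) (x3, φ3 x3)
      = ∑ k : P4, L k (x1, φ1 x1) * L k (x2, φ2 x2) * L k (x3, φ3 x3) :=
    Equiv.sum_comp en (fun k : P4 => L k (x1, φ1 x1) * L k (x2, φ2 x2) * L k (x3, φ3 x3))
  have h6 : ∑ k : P4, L k (x1, φ1 x1) * L k (x2, φ2 x2) * L k (x3, φ3 x3)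
      = ∑ k ∈ P4, L k (x1, φ1 x1) * L k (x2, φ2 x2) * L k (x3, φ3 x3) :=
    Finset.sum_coe_sort P4 (fun k => L k (x1, φ1 x1) * L k (x2, φ2 x2) * L k (x3, φ3 x3))
  rw [← h6, ← h5]
  rfl

end Pool.Agent.W458.St
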