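import Pool.Agent.W458.StA

/-!
# Rigidity of the gadget matrix
-/

set_option autoImplicit false

namespace Pool.Agent.W458.St

open Module

theorem det_ne_zero_of_algInd {m : Type*} [Fintype m] [DecidableEq m] (K : Matrix m m ℂ)
    (hK : AlgebraicIndependent ℚ fun q : m × m => K q.1 q.2) : K.det ≠ 0 := by
  intro h0
  have h1 := Matrix.mvPolynomialX_mapMatrix_aeval (R := ℚ) K
  have h2 : MvPolynomial.aeval (fun q : m × m => K q.1 q.2)
      (Matrix.det (Matrix.mvPolynomialX m m ℚ)) = K.det := by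
    rw [AlgHom.map_det, h1]
  rw [h0] at h2
  have h3 := (injective_iff_map_eq_zero _).mp
    (algebraicIndependent_iff_injective_aeval.mp hK) _ h2
  exact Matrix.det_mvPolynomialX_ne_zero m ℚ h3

theorem pattern_bound {ι : Type} [Fintype ι] [DecidableEq ι] {Y ρ : ℕ}
    (K : Matrix (Fin Y ⊕ ι) (Fin Y ⊕ ι) ℂ)
    (hK : AlgebraicIndependent ℚ fun q : (Fin Y ⊕ ι) × (Fin Y ⊕ ι) => K q.1 q.2)
    (d : Fin Y → ℂ) (d' : Fin Y ⊕ ι → ℂ) (U : Fin Y → Fin ρ → ℂ)
    (V' : Fin ρ → (Fin Y ⊕ ι) → ℂ) (Q : Fin Y → ι → ℂ)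
    (h : ∀ i j, K (Sum.inl i) j * (d' j + d i)
      = ∑ l, U i l * V' l j + ∑ t, Q i t * K (Sum.inr t) j) :
    Fintype.card {q : Fin Y × (Fin Y ⊕ ι) // d' q.2 + d q.1 ≠ 0}
      ≤ Y * ρ + ρ * (Y + Fintype.card ι) + Y * Fintype.card ι + (Y + Fintype.card ι) + Y := by
  classical
  let m := Fin Y ⊕ ι
  let good : m × m → Prop := fun q => ∀ i, q.1 = Sum.inl i → d' q.2 + d i = 0
  let w : ((Fin Y × Fin ρ) ⊕ (Fin ρ × m) ⊕ (Fin Y × ι) ⊕ m ⊕ Fin Y ⊕ {q : m × m // good q}) → ℂ :=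
    Sum.elim (fun q => U q.1 q.2) (Sum.elim (fun q => V' q.1 q.2) (Sum.elim (fun q => Q q.1 q.2)
      (Sum.elim (fun j => d' j) (Sum.elim (fun i => d i) (fun q => K q.1.1 q.1.2)))))
  let L := Fld (Set.range w)
  have hw : ∀ a, w a ∈ L := fun a => IntermediateField.subset_adjoin _ _ ⟨a, rfl⟩
  have hU : ∀ i l, U i l ∈ L := fun i l => hw (Sum.inl (i, l))
  have hV : ∀ l j, V' l j ∈ L := fun l j => hw (Sum.inr (Sum.inl (l, j)))
  have hQ : ∀ i t, Q i t ∈ L := fun i t => hw (Sum.inr (Sum.inr (Sum.inl (i, t))))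
  have hd' : ∀ j, d' j ∈ L := fun j => hw (Sum.inr (Sum.inr (Sum.inr (Sum.inl j))))
  have hd : ∀ i, d i ∈ L := fun i => hw (Sum.inr (Sum.inr (Sum.inr (Sum.inr (Sum.inl i)))))
  have hg : ∀ q : m × m, good q → K q.1 q.2 ∈ L := fun q hq =>
    hw (Sum.inr (Sum.inr (Sum.inr (Sum.inr (Sum.inr ⟨q, hq⟩)))))
  have hr : ∀ t j, K (Sum.inr t) j ∈ L := fun t j => hg (Sum.inr t, j) (by
    intro i hi; simp at hi)
  have hall : ∀ q : m × m, K q.1 q.2 ∈ L := by
    rintro ⟨a, j⟩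
    by_cases hq : good (a, j)
    · exact hg _ hq
    · simp only [good, not_forall] at hq
      obtain ⟨i, hi, hne⟩ := hq
      subst hi
      have e : K (Sum.inl i) j
          = (∑ l, U i l * V' l j + ∑ t, Q i t * K (Sum.inr t) j) / (d' j + d i) := by
        rw [← h i j]
        field_simp
      change K (Sum.inl i) j ∈ L
      rw [e]
      refine L.div_mem (L.add_mem (L.sum_mem fun l _ => L.mul_mem (hU i l) (hV l j))
        (L.sum_mem fun t _ => L.mul_mem (hQ i t) (hr t j))) (L.add_mem (hd' j) (hd i))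
  have hc := card_le_of_mem_fld _ hK w (Set.range w) subset_rfl hall
  have hgb : Fintype.card {q : m × m // good q} + Fintype.card {q : m × m // ¬ good q}
      = Fintype.card (m × m) := by
    rw [← Fintype.card_sum]
    exact Fintype.card_congr (Equiv.sumCompl good)
  have hb : Fintype.card {q : Fin Y × m // d' q.2 + d q.1 ≠ 0}
      = Fintype.card {q : m × m // ¬ good q} := by
    refine Fintype.card_congr
      { toFun := fun q => ⟨(Sum.inl q.1.1, q.1.2), fun hgq => q.2 (hgq _ rfl)⟩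
        invFun := fun q => ?_
        left_inv := ?_
        right_inv := ?_ }
    · obtain ⟨⟨a, j⟩, hq⟩ := q
      match a, hq with
      | Sum.inl i, hq => exact ⟨(i, j), fun h0 => hq (fun i' hi' => by
          have : i = i' := Sum.inl_injective hi'
          subst this; exact h0)⟩
      | Sum.inr t, hq => exact absurd (fun i hi => by simp at hi) hq
    · rintro ⟨⟨i, j⟩, hq⟩; rfl
    · rintro ⟨⟨a, j⟩, hq⟩
      match a, hq with
      | Sum.inl i, hq => rfl
      | Sum.inr t, hq => exact absurd (fun i hi => by simp at hi) hq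
  have hm : Fintype.card m = Y + Fintype.card ι := by simp [m]
  have hk : Fintype.card ((Fin Y × Fin ρ) ⊕ (Fin ρ × m) ⊕ (Fin Y × ι) ⊕ m ⊕ Fin Y ⊕
      {q : m × m // good q}) = Y * ρ + (ρ * (Y + Fintype.card ι) + (Y * Fintype.card ι +
      ((Y + Fintype.card ι) + (Y + Fintype.card {q : m × m // good q})))) := by
    simp only [Fintype.card_sum, Fintype.card_prod, Fintype.card_fin, hm]
  rw [hk] at hc
  have hc' : Fintype.card (m × m) ≤ Y * ρ + (ρ * (Y + Fintype.card ι) + (Y * Fintype.card ι +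
      ((Y + Fintype.card ι) + (Y + Fintype.card {q : m × m // good q})))) := hc
  change Fintype.card {q : Fin Y × m // d' q.2 + d q.1 ≠ 0} ≤ _
  rw [hb]
  clear hk hb hm hc
  generalize Fintype.card (m × m) = N at *
  generalize Fintype.card {q : m × m // good q} = N1 at *
  generalize Fintype.card {q : m × m // ¬ good q} = N2 at *
  omega

theorem exists_row {ι : Type} [Fintype ι] [DecidableEq ι] {Y ρ : ℕ}
    (K : Matrix (Fin Y ⊕ ι) (Fin Y ⊕ ι) ℂ)
    (hK : AlgebraicIndependent ℚ fun q : (Fin Y ⊕ ι) × (Fin Y ⊕ ι) => K q.1 q.2)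
    (hY : 3 * ρ + Fintype.card ι + 4 ≤ Y)
    (d : Fin Y → ℂ) (d' : Fin Y ⊕ ι → ℂ)
    (U : Fin Y → Fin ρ → ℂ) (W : Fin ρ → Fin Y → ℂ)
    (h : ∀ i l, (if i = l then d i else 0) + ∑ j, d' j * (K (Sum.inl i) j * K⁻¹ j (Sum.inl l))
      = ∑ a, U i a * W a l) :
    ∃ i : Fin Y, Fintype.card {j : Fin Y ⊕ ι // d' j + d i ≠ 0} ≤ Y := by
  classical
  have hdet : IsUnit K.det := isUnit_iff_ne_zero.mpr (det_ne_zero_of_algInd K hK)
  have hinv : K⁻¹ * K = 1 := Matrix.nonsing_inv_mul K hdet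
  have hinv' : ∀ a b, ∑ l, K⁻¹ a l * K l b = if a = b then 1 else 0 := by
    intro a b
    have := congrFun (congrFun hinv a) b
    rwa [Matrix.mul_apply, Matrix.one_apply] at this
  have key : ∀ (i : Fin Y) (j : Fin Y ⊕ ι), K (Sum.inl i) j * (d' j + d i)
      = ∑ a, U i a * (∑ l, W a l * K (Sum.inl l) j)
        + ∑ t, (∑ j', d' j' * (K (Sum.inl i) j' * K⁻¹ j' (Sum.inr t))) * K (Sum.inr t) j := by
    intro i j
    have e1 : ∑ l, ((if i = l then d i else 0)
        + ∑ j', d' j' * (K (Sum.inl i) j' * K⁻¹ j' (Sum.inl l))) * K (Sum.inl l) j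
        = ∑ a, U i a * (∑ l, W a l * K (Sum.inl l) j) := by
      simp_rw [h, Finset.sum_mul, Finset.mul_sum]
      rw [Finset.sum_comm]
      refine Finset.sum_congr rfl fun a _ => Finset.sum_congr rfl fun l _ => by ring
    rw [← e1]
    have e2 : ∑ l, ((if i = l then d i else 0)
        + ∑ j', d' j' * (K (Sum.inl i) j' * K⁻¹ j' (Sum.inl l))) * K (Sum.inl l) j
        = d i * K (Sum.inl i) j
          + ∑ l, (∑ j', d' j' * (K (Sum.inl i) j' * K⁻¹ j' (Sum.inl l))) * K (Sum.inl l) j := by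
      simp_rw [add_mul]
      rw [Finset.sum_add_distrib]
      congr 1
      rw [Finset.sum_eq_single i]
      · simp
      · intro b _ hb; simp [Ne.symm hb]
      · simp
    rw [e2, add_assoc]
    have e3 : ∑ l, (∑ j', d' j' * (K (Sum.inl i) j' * K⁻¹ j' (Sum.inl l))) * K (Sum.inl l) j
        + ∑ t, (∑ j', d' j' * (K (Sum.inl i) j' * K⁻¹ j' (Sum.inr t))) * K (Sum.inr t) j
        = ∑ l : Fin Y ⊕ ι, (∑ j', d' j' * (K (Sum.inl i) j' * K⁻¹ j' l)) * K l j := by
      rw [Fintype.sum_sum_type]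
    rw [e3]
    have e4 : ∑ l : Fin Y ⊕ ι, (∑ j', d' j' * (K (Sum.inl i) j' * K⁻¹ j' l)) * K l j
        = ∑ j', d' j' * K (Sum.inl i) j' * ∑ l, K⁻¹ j' l * K l j := by
      simp_rw [Finset.sum_mul, Finset.mul_sum]
      rw [Finset.sum_comm]
      refine Finset.sum_congr rfl fun a _ => Finset.sum_congr rfl fun l _ => by ring
    rw [e4]
    simp_rw [hinv']
    rw [Finset.sum_eq_single j]
    · simp; ring
    · intro b _ hb; simp [hb]
    · simp
  have hp := pattern_bound K hK d d' U _ _ key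
  by_contra hcon
  push Not at hcon
  have hs : Fintype.card {q : Fin Y × (Fin Y ⊕ ι) // d' q.2 + d q.1 ≠ 0}
      = ∑ i : Fin Y, Fintype.card {j : Fin Y ⊕ ι // d' j + d i ≠ 0} := by
    rw [← Fintype.card_sigma]
    exact Fintype.card_congr (Equiv.subtypeProdEquivSigmaSubtype
      (fun (i : Fin Y) (j : Fin Y ⊕ ι) => d' j + d i ≠ 0))
  have hlow : Y * (Y + 1) ≤ ∑ i : Fin Y, Fintype.card {j : Fin Y ⊕ ι // d' j + d i ≠ 0} := by
    calc Y * (Y + 1) = ∑ _i : Fin Y, (Y + 1) := by simp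
      _ ≤ _ := Finset.sum_le_sum fun i _ => hcon i
  rw [← hs] at hlow
  have h1 := hlow.trans hp
  have hn : Fintype.card ι ≤ Y := by omega
  nlinarith [Nat.mul_le_mul_left ρ hn, Nat.mul_le_mul_left Y hY]

theorem exists_kappa {ι : Type} [Fintype ι] [DecidableEq ι] {Y : ℕ}
    (K : Matrix (Fin Y ⊕ ι) (Fin Y ⊕ ι) ℂ)
    (hK : AlgebraicIndependent ℚ fun q : (Fin Y ⊕ ι) × (Fin Y ⊕ ι) => K q.1 q.2)
    (P : Fin Y ⊕ ι → Prop) [DecidablePred P] (hP : Fintype.card {j // P j} ≤ Y) :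
    ∃ κ : (ι → ℂ) →ₗ[ℂ] (Fin Y → ℂ), ∀ ξ j, P j →
      ∑ i, K (Sum.inl i) j * κ ξ i + ∑ t, K (Sum.inr t) j * ξ t = 0 := by
  classical
  obtain ⟨e⟩ : Nonempty ({j // P j} ↪ Fin Y) :=
    Function.Embedding.nonempty_of_card_le (by simpa using hP)
  let A : Matrix {j // P j} {j // P j} ℂ := fun a b => K (Sum.inl (e a)) b
  have hA : AlgebraicIndependent ℚ fun q : {j // P j} × {j // P j} => A q.1 q.2 := by
    refine hK.comp (fun q : {j // P j} × {j // P j} => (Sum.inl (e q.1), (q.2 : Fin Y ⊕ ι))) ?_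
    rintro ⟨a, b⟩ ⟨a', b'⟩ hab
    simp only [Prod.mk.injEq] at hab
    obtain ⟨h1, h2⟩ := hab
    have h3 := e.injective (Sum.inl_injective h1)
    have h4 := Subtype.ext h2
    rw [h3, h4]
  have hdet : IsUnit A.det := isUnit_iff_ne_zero.mpr (det_ne_zero_of_algInd A hA)
  have hinv : A⁻¹ * A = 1 := Matrix.nonsing_inv_mul A hdet
  -- `κ ξ (e a) = - ∑_b (∑_t K t b ξ t) A⁻¹ b a`
  let κ : (ι → ℂ) →ₗ[ℂ] (Fin Y → ℂ) :=
    { toFun := fun ξ i => ∑ a : {j // P j}, if e a = i then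
        - ∑ b : {j // P j}, (∑ t, K (Sum.inr t) (b : Fin Y ⊕ ι) * ξ t) * A⁻¹ b a else 0
      map_add' := by
        intro x y
        funext i
        simp only [Pi.add_apply]
        rw [← Finset.sum_add_distrib]
        refine Finset.sum_congr rfl fun a _ => ?_
        split_ifs
        · rw [← neg_add, ← Finset.sum_add_distrib]
          congr 1
          refine Finset.sum_congr rfl fun b _ => ?_
          rw [← add_mul, ← Finset.sum_add_distrib]
          congr 1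
          refine Finset.sum_congr rfl fun t _ => by ring
        · simp
      map_smul' := by
        intro r x
        funext i
        simp only [Pi.smul_apply, smul_eq_mul, RingHom.id_apply]
        rw [Finset.mul_sum]
        refine Finset.sum_congr rfl fun a _ => ?_
        split_ifs
        · rw [mul_neg, Finset.mul_sum]
          congr 1
          refine Finset.sum_congr rfl fun b _ => ?_
          rw [← mul_assoc, Finset.mul_sum]
          congr 1
          refine Finset.sum_congr rfl fun t _ => by ring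
        · simp }
  refine ⟨κ, ?_⟩
  intro ξ j hj
  have h1 : ∑ i, K (Sum.inl i) j * κ ξ i
      = ∑ a : {j // P j}, K (Sum.inl (e a)) j *
        (- ∑ b : {j // P j}, (∑ t, K (Sum.inr t) (b : Fin Y ⊕ ι) * ξ t) * A⁻¹ b a) := by
    change ∑ i, K (Sum.inl i) j * (∑ a : {j // P j}, if e a = i then
        - ∑ b : {j // P j}, (∑ t, K (Sum.inr t) (b : Fin Y ⊕ ι) * ξ t) * A⁻¹ b a else 0) = _
    simp_rw [Finset.mul_sum]
    rw [Finset.sum_comm]
    refine Finset.sum_congr rfl fun a _ => ?_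
    rw [Finset.sum_eq_single (e a)]
    · simp
    · intro b _ hb; simp [Ne.symm hb]
    · simp
  have h2 : ∑ a : {j // P j}, K (Sum.inl (e a)) j *
        (- ∑ b : {j // P j}, (∑ t, K (Sum.inr t) (b : Fin Y ⊕ ι) * ξ t) * A⁻¹ b a)
      = - ∑ b : {j // P j}, (∑ t, K (Sum.inr t) (b : Fin Y ⊕ ι) * ξ t) * ∑ a, A⁻¹ b a * A a ⟨j, hj⟩ := by
    simp_rw [mul_neg, Finset.sum_neg_distrib, Finset.mul_sum]
    rw [Finset.sum_comm]
    congr 1
    refine Finset.sum_congr rfl fun b _ => Finset.sum_congr rfl fun a _ => ?_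
    change K (Sum.inl (e a)) j * _ = _ * (_ * K (Sum.inl (e a)) j)
    ring
  have h3 : ∀ b, ∑ a, A⁻¹ b a * A a ⟨j, hj⟩ = if b = ⟨j, hj⟩ then 1 else 0 := by
    intro b
    have := congrFun (congrFun hinv b) ⟨j, hj⟩
    rwa [Matrix.mul_apply, Matrix.one_apply] at this
  rw [h1, h2]
  simp_rw [h3]
  rw [Finset.sum_eq_single (⟨j, hj⟩ : {j // P j})]
  · simp
  · intro b _ hb; simp [hb]
  · simp

theorem rigid {ι : Type} [Fintype ι] [DecidableEq ι] {Y ρ : ℕ}
    (K : Matrix (Fin Y ⊕ ι) (Fin Y ⊕ ι) ℂ)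
    (hK : AlgebraicIndependent ℚ fun q : (Fin Y ⊕ ι) × (Fin Y ⊕ ι) => K q.1 q.2)
    (hY : 3 * ρ + Fintype.card ι + 4 ≤ Y)
    {V : Type*} [AddCommGroup V] [Module ℂ V]
    (θ : Fin Y → V →ₗ[ℂ] ℂ) (θ' : Fin Y ⊕ ι → V →ₗ[ℂ] ℂ)
    (u : Fin ρ → V → ℂ) (v w : Fin ρ → (Fin Y → ℂ) → ℂ)
    (h : ∀ z lam mu, ∑ i, θ i z * (lam i * mu i) + ∑ j, θ' j z *
      ((∑ i, K (Sum.inl i) j * lam i) * (∑ i, K⁻¹ j (Sum.inl i) * mu i))
      = ∑ l, u l z * v l lam * w l mu) :
    ∃ (θ0 : V →ₗ[ℂ] ℂ) (κ : (ι → ℂ) →ₗ[ℂ] (Fin Y → ℂ)), ∀ (ξ η : ι → ℂ) (z : V),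
      ∑ j, θ' j z * ((∑ i, K (Sum.inl i) j * κ ξ i + ∑ t, K (Sum.inr t) j * ξ t)
        * (∑ t, K⁻¹ j (Sum.inr t) * η t)) = θ0 z * ∑ t, ξ t * η t := by
  classical
  -- a separating vector
  let Pr := {q : (Fin Y ⊕ ι) × (Fin Y ⊕ ι) // θ' q.1 ≠ θ' q.2}
  obtain ⟨z, hz⟩ := Module.Dual.exists_forall_ne_zero_of_forall_exists (K := ℂ) (M := V)
    (fun q : Pr => (θ' q.1.1 - θ' q.1.2 : V →ₗ[ℂ] ℂ)) (by
      rintro ⟨q, hq⟩
      by_contra hcon
      push Not at hcon
      exact hq (sub_eq_zero.mp (LinearMap.ext hcon)))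
  have hsep : ∀ j l, θ' j z = θ' l z → θ' j = θ' l := by
    intro j l hjl
    by_contra hne
    have := hz ⟨(j, l), hne⟩
    simp [hjl] at this
  obtain ⟨i0, hi0⟩ := exists_row K hK hY (fun i => θ i z) (fun j => θ' j z)
    (fun i a => u a z * v a (Pi.single i 1)) (fun a l => w a (Pi.single l 1)) (by
      intro i l
      have := h z (Pi.single i 1) (Pi.single l 1)
      rw [← this]
      congr 1
      · by_cases hil : i = l
        · subst hil
          rw [Finset.sum_eq_single i]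
          · simp
          · intro b _ hb; simp [hb]
          · simp
        · rw [if_neg hil, Finset.sum_eq_zero]
          intro b _
          by_cases hb : b = i
          · subst hb; simp [hil]
          · simp [hb]
      · refine Finset.sum_congr rfl fun j _ => ?_
        congr 2
        · rw [Finset.sum_eq_single i]
          · simp
          · intro b _ hb; simp [hb]
          · simp
        · rw [Finset.sum_eq_single l]
          · simp
          · intro b _ hb; simp [hb]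
          · simp)
  obtain ⟨κ, hκ⟩ := exists_kappa K hK (fun j => θ' j z + θ i0 z ≠ 0) hi0
  have hdet : IsUnit K.det := isUnit_iff_ne_zero.mpr (det_ne_zero_of_algInd K hK)
  have hinv : K * K⁻¹ = 1 := Matrix.mul_nonsing_inv K hdet
  have hinv' : ∀ a b, ∑ l, K a l * K⁻¹ l b = if a = b then 1 else 0 := by
    intro a b
    have := congrFun (congrFun hinv a) b
    rwa [Matrix.mul_apply, Matrix.one_apply] at this
  obtain ⟨θ0, hθ0⟩ : ∃ θ0 : V →ₗ[ℂ] ℂ, ∀ j, ¬ (θ' j z + θ i0 z ≠ 0) → θ' j = θ0 := by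
    by_cases hex : ∃ j, ¬ (θ' j z + θ i0 z ≠ 0)
    · obtain ⟨j0, hj0⟩ := hex
      refine ⟨θ' j0, fun j hj => hsep _ _ ?_⟩
      push Not at hj hj0
      linear_combination hj - hj0
    · push Not at hex
      exact ⟨0, fun j hj => absurd (hex j) hj⟩
  refine ⟨θ0, κ, ?_⟩
  intro ξ η y
  set g : Fin Y ⊕ ι → ℂ :=
    fun j => ∑ i, K (Sum.inl i) j * κ ξ i + ∑ t, K (Sum.inr t) j * ξ t with hg
  have h1 : ∀ j, θ' j y * g j = θ0 y * g j := by
    intro j
    by_cases hj : θ' j z + θ i0 z ≠ 0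
    · have : g j = 0 := hκ ξ j hj
      rw [this]; ring
    · rw [hθ0 j hj]
  have h2 : ∑ j, θ' j y * (g j * (∑ t, K⁻¹ j (Sum.inr t) * η t))
      = θ0 y * ∑ t, (∑ j, g j * K⁻¹ j (Sum.inr t)) * η t := by
    have : ∀ j, θ' j y * (g j * (∑ t, K⁻¹ j (Sum.inr t) * η t))
        = θ0 y * (∑ t, g j * K⁻¹ j (Sum.inr t) * η t) := by
      intro j
      rw [← mul_assoc, h1, mul_assoc]
      congr 1
      rw [Finset.mul_sum]
      refine Finset.sum_congr rfl fun t _ => by ring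
    simp_rw [this]
    rw [← Finset.mul_sum, Finset.sum_comm]
    congr 1
    refine Finset.sum_congr rfl fun t _ => ?_
    rw [Finset.sum_mul]
  have h3 : ∀ t, ∑ j, g j * K⁻¹ j (Sum.inr t) = ξ t := by
    intro t
    have e1 : ∀ j, g j * K⁻¹ j (Sum.inr t)
        = ∑ i, κ ξ i * (K (Sum.inl i) j * K⁻¹ j (Sum.inr t))
          + ∑ t', ξ t' * (K (Sum.inr t') j * K⁻¹ j (Sum.inr t)) := by
      intro j
      simp only [hg]
      rw [add_mul, Finset.sum_mul, Finset.sum_mul]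
      congr 1
      · refine Finset.sum_congr rfl fun i _ => by ring
      · refine Finset.sum_congr rfl fun i _ => by ring
    simp_rw [e1]
    rw [Finset.sum_add_distrib]
    have e2 : ∑ j, ∑ i, κ ξ i * (K (Sum.inl i) j * K⁻¹ j (Sum.inr t)) = 0 := by
      rw [Finset.sum_comm]
      simp_rw [← Finset.mul_sum, hinv']
      simp
    have e3 : ∑ j, ∑ t', ξ t' * (K (Sum.inr t') j * K⁻¹ j (Sum.inr t)) = ξ t := by
      rw [Finset.sum_comm]
      simp_rw [← Finset.mul_sum, hinv']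
      simp
    rw [e2, e3, zero_add]
  rw [h2]
  simp_rw [h3]

end Pool.Agent.W458.St
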