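import Pool.Agent.W458.StC

/-!
# The gadget: modding out a matrix of arbitrary rank with rank-one matrices
-/

set_option autoImplicit false
set_option linter.unusedSectionVars false

namespace Pool.Agent.W458.St

open Module

variable {S : Type} [Fintype S] [DecidableEq S] {Y : ℕ}

/-- The enlarged space of one of the three tensor factors. -/
abbrev Hat (S : Type) (Y : ℕ) (ι : Type) : Type :=
  (ι → ℂ) × (S → Fin Y → ℂ) × (S → Fin Y → ℂ)

/-- Labels of the rank-one matrices of one family of gadgets. -/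
abbrev PIdx (S : Type) (Y : ℕ) (ι : Type) : Type := (S × Fin Y) ⊕ (S × (Fin Y ⊕ ι))

section forms

variable {ι ι' : Type} [Fintype ι] [DecidableEq ι] [Fintype ι'] [DecidableEq ι']

/-- Left factors of the rank-one matrices. -/
noncomputable def uform (K : Matrix (Fin Y ⊕ ι) (Fin Y ⊕ ι) ℂ) :
    PIdx S Y ι → Hat S Y ι →ₗ[ℂ] ℂ
  | Sum.inl p =>
    { toFun := fun z => z.2.1 p.1 p.2
      map_add' := fun _ _ => rfl
      map_smul' := fun _ _ => rfl }
  | Sum.inr p =>
    { toFun := fun z => ∑ i, K (Sum.inl i) p.2 * z.2.1 p.1 i + ∑ t, K (Sum.inr t) p.2 * z.1 t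
      map_add' := by
        intro x y
        simp only [Prod.snd_add, Prod.fst_add, Pi.add_apply, mul_add, Finset.sum_add_distrib]
        ring
      map_smul' := by
        intro r x
        simp only [Prod.smul_snd, Prod.smul_fst, Pi.smul_apply, smul_eq_mul, RingHom.id_apply,
          mul_add, Finset.mul_sum]
        congr 1 <;> refine Finset.sum_congr rfl fun i _ => by ring }

/-- Right factors of the rank-one matrices. -/
noncomputable def vform (K : Matrix (Fin Y ⊕ ι) (Fin Y ⊕ ι) ℂ) (G : S → ι → ι' → ℂ) :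
    PIdx S Y ι → Hat S Y ι' →ₗ[ℂ] ℂ
  | Sum.inl p =>
    { toFun := fun z => z.2.2 p.1 p.2
      map_add' := fun _ _ => rfl
      map_smul' := fun _ _ => rfl }
  | Sum.inr p =>
    { toFun := fun z => ∑ i, K⁻¹ p.2 (Sum.inl i) * z.2.2 p.1 i
        + ∑ t, K⁻¹ p.2 (Sum.inr t) * ∑ t', G p.1 t t' * z.1 t'
      map_add' := by
        intro x y
        simp only [Prod.snd_add, Prod.fst_add, Pi.add_apply, mul_add, Finset.sum_add_distrib]
        ring
      map_smul' := by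
        intro r x
        simp only [Prod.smul_snd, Prod.smul_fst, Pi.smul_apply, smul_eq_mul, RingHom.id_apply,
          mul_add, Finset.mul_sum]
        congr 1
        · refine Finset.sum_congr rfl fun i _ => by ring
        · refine Finset.sum_congr rfl fun i _ => Finset.sum_congr rfl fun j _ => by ring }

theorem uform_zero (K : Matrix (Fin Y ⊕ ι) (Fin Y ⊕ ι) ℂ) (p : PIdx S Y ι)
    (f : S → Fin Y → ℂ) : uform K p (0, 0, f) = 0 := by
  rcases p with p | p <;> simp [uform]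

theorem vform_zero (K : Matrix (Fin Y ⊕ ι) (Fin Y ⊕ ι) ℂ) (G : S → ι → ι' → ℂ)
    (p : PIdx S Y ι) (e : S → Fin Y → ℂ) : vform K G p (0, e, 0) = 0 := by
  rcases p with p | p <;> simp [vform]

/-- The matrix `G_s` is a combination of the rank-one matrices. -/
theorem gadget_span (K : Matrix (Fin Y ⊕ ι) (Fin Y ⊕ ι) ℂ) (hK : K.det ≠ 0)
    (G : S → ι → ι' → ℂ) (s : S) (z : Hat S Y ι) (z' : Hat S Y ι') :
    ∑ t, z.1 t * ∑ t', G s t t' * z'.1 t'
      = ∑ j, uform K (Sum.inr (s, j)) z * vform K G (Sum.inr (s, j)) z'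
        - ∑ i, uform K (Sum.inl (s, i)) z * vform K G (Sum.inl (s, i)) z' := by
  have hinv : K * K⁻¹ = 1 := Matrix.mul_nonsing_inv K (isUnit_iff_ne_zero.mpr hK)
  have hinv' : ∀ a b, ∑ l, K a l * K⁻¹ l b = if a = b then 1 else 0 := by
    intro a b
    have := congrFun (congrFun hinv a) b
    rwa [Matrix.mul_apply, Matrix.one_apply] at this
  let x : Fin Y ⊕ ι → ℂ := Sum.elim (fun i => z.2.1 s i) (fun t => z.1 t)
  let y : Fin Y ⊕ ι → ℂ := Sum.elim (fun i => z'.2.2 s i) (fun t => ∑ t', G s t t' * z'.1 t')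
  have hu : ∀ j, uform K (Sum.inr (s, j)) z = ∑ a, K a j * x a := by
    intro j
    rw [Fintype.sum_sum_type]
    rfl
  have hv : ∀ j, vform K G (Sum.inr (s, j)) z' = ∑ b, K⁻¹ j b * y b := by
    intro j
    rw [Fintype.sum_sum_type]
    rfl
  have h1 : ∑ j, uform K (Sum.inr (s, j)) z * vform K G (Sum.inr (s, j)) z' = ∑ a, x a * y a := by
    simp_rw [hu, hv, Finset.sum_mul_sum]
    rw [Finset.sum_comm]
    refine Finset.sum_congr rfl fun a _ => ?_
    rw [Finset.sum_comm]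
    have : ∀ b, ∑ j, K a j * x a * (K⁻¹ j b * y b) = x a * y b * ∑ j, K a j * K⁻¹ j b := by
      intro b
      rw [Finset.mul_sum]
      refine Finset.sum_congr rfl fun j _ => by ring
    simp_rw [this, hinv']
    rw [Finset.sum_eq_single a]
    · simp
    · intro b _ hb; simp [Ne.symm hb]
    · simp
  rw [h1, Fintype.sum_sum_type]
  change _ = (∑ i, z.2.1 s i * z'.2.2 s i + ∑ t, z.1 t * ∑ t', G s t t' * z'.1 t')
    - ∑ i, z.2.1 s i * z'.2.2 s i
  ring

/-- One family: rigidity for a fixed label `s`. -/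
theorem family_rigid {ρ : ℕ} (K : Matrix (Fin Y ⊕ ι) (Fin Y ⊕ ι) ℂ)
    (hK : AlgebraicIndependent ℚ fun q : (Fin Y ⊕ ι) × (Fin Y ⊕ ι) => K q.1 q.2)
    (hY : 3 * ρ + Fintype.card ι + 4 ≤ Y) (G : S → ι → ι' → ℂ)
    {V : Type*} [AddCommGroup V] [Module ℂ V] (φ : V →ₗ[ℂ] (PIdx S Y ι → ℂ))
    (u : Fin ρ → V → ℂ) (v : Fin ρ → Hat S Y ι → ℂ) (w : Fin ρ → Hat S Y ι' → ℂ)
    (h : ∀ (y : V) (e f : S → Fin Y → ℂ),
      ∑ p, φ y p * (uform K p (0, e, 0) * vform K G p (0, 0, f))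
        = ∑ l, u l y * v l (0, e, 0) * w l (0, 0, f)) (s : S) :
    ∃ (θ0 : V →ₗ[ℂ] ℂ) (κ : (ι → ℂ) →ₗ[ℂ] (Fin Y → ℂ)), ∀ (ξ η : ι → ℂ) (y : V),
      ∑ j, φ y (Sum.inr (s, j)) *
        ((∑ i, K (Sum.inl i) j * κ ξ i + ∑ t, K (Sum.inr t) j * ξ t)
          * (∑ t, K⁻¹ j (Sum.inr t) * η t)) = θ0 y * ∑ t, ξ t * η t := by
  classical
  refine rigid K hK hY (fun i => (LinearMap.proj (Sum.inl (s, i))) ∘ₗ φ)
    (fun j => (LinearMap.proj (Sum.inr (s, j))) ∘ₗ φ) u
    (fun l lam => v l (0, Pi.single s lam, 0)) (fun l mu => w l (0, 0, Pi.single s mu)) ?_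
  intro y lam mu
  rw [← h y (Pi.single s lam) (Pi.single s mu)]
  refine Eq.trans ?_ (Fintype.sum_sum_type _).symm
  congr 1
  · rw [Fintype.sum_prod_type, Finset.sum_eq_single s]
    · refine Finset.sum_congr rfl fun i _ => ?_
      simp [uform, vform]
    · intro b _ hb
      refine Finset.sum_eq_zero fun i _ => ?_
      simp [uform, vform, hb]
    · simp
  · rw [Fintype.sum_prod_type, Finset.sum_eq_single s]
    · refine Finset.sum_congr rfl fun i _ => ?_
      simp [uform, vform]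
    · intro b _ hb
      refine Finset.sum_eq_zero fun i _ => ?_
      simp [uform, vform, hb]
    · simp

/-- One family: final evaluation. -/
theorem family_eval (K : Matrix (Fin Y ⊕ ι) (Fin Y ⊕ ι) ℂ) (G : S → ι → ι' → ℂ)
    (c : PIdx S Y ι → ℂ) (κ : S → (ι → ℂ) →ₗ[ℂ] (Fin Y → ℂ)) (θ : S → ℂ) (ξ : ι → ℂ) (ξ' : ι' → ℂ)
    (e' : S → Fin Y → ℂ)
    (h : ∀ s, ∀ η : ι → ℂ, ∑ j, c (Sum.inr (s, j)) *
        ((∑ i, K (Sum.inl i) j * κ s ξ i + ∑ t, K (Sum.inr t) j * ξ t)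
          * (∑ t, K⁻¹ j (Sum.inr t) * η t)) = θ s * ∑ t, ξ t * η t) :
    ∑ p, c p * (uform K p (ξ, fun s => κ s ξ, 0) * vform K G p (ξ', e', 0))
      = ∑ s, θ s * ∑ t, ξ t * ∑ t', G s t t' * ξ' t' := by
  rw [Fintype.sum_sum_type]
  have h0 : ∑ p : S × Fin Y, c (Sum.inl p) * (uform K (Sum.inl p) (ξ, fun s => κ s ξ, 0)
      * vform K G (Sum.inl p) (ξ', e', 0)) = 0 := by
    refine Finset.sum_eq_zero fun p _ => ?_
    simp [vform]
  rw [h0, zero_add, Fintype.sum_prod_type]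
  refine Finset.sum_congr rfl fun s _ => ?_
  rw [← h s (fun t => ∑ t', G s t t' * ξ' t')]
  refine Finset.sum_congr rfl fun j _ => ?_
  simp [uform, vform]

end forms

end Pool.Agent.W458.St
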