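import Pool.Agent.W458.StD

/-!
# The gadget theorem for the three families
-/

set_option autoImplicit false

namespace Pool.Agent.W458.St

open Module

theorem gadget3 {S : Type} [Fintype S] [DecidableEq S] {Y ρ : ℕ} {α β γ : Type}
    [Fintype α] [DecidableEq α] [Fintype β] [DecidableEq β] [Fintype γ] [DecidableEq γ]
    (KA : Matrix (Fin Y ⊕ α) (Fin Y ⊕ α) ℂ) (KB : Matrix (Fin Y ⊕ β) (Fin Y ⊕ β) ℂ)
    (KC : Matrix (Fin Y ⊕ γ) (Fin Y ⊕ γ) ℂ)
    (hKA : AlgebraicIndependent ℚ fun q : (Fin Y ⊕ α) × (Fin Y ⊕ α) => KA q.1 q.2)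
    (hKB : AlgebraicIndependent ℚ fun q : (Fin Y ⊕ β) × (Fin Y ⊕ β) => KB q.1 q.2)
    (hKC : AlgebraicIndependent ℚ fun q : (Fin Y ⊕ γ) × (Fin Y ⊕ γ) => KC q.1 q.2)
    (hYA : 3 * ρ + Fintype.card α + 4 ≤ Y) (hYB : 3 * ρ + Fintype.card β + 4 ≤ Y)
    (hYC : 3 * ρ + Fintype.card γ + 4 ≤ Y)
    (GAB : S → α → β → ℂ) (GBC : S → β → γ → ℂ) (GCA : S → γ → α → ℂ)
    (T : (α → ℂ) → (β → ℂ) → (γ → ℂ) → ℂ)
    (hT1 : ∀ b c, T 0 b c = 0) (hT2 : ∀ a c, T a 0 c = 0)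
    (φAB : Hat S Y γ →ₗ[ℂ] (PIdx S Y α → ℂ)) (φBC : Hat S Y α →ₗ[ℂ] (PIdx S Y β → ℂ))
    (φCA : Hat S Y β →ₗ[ℂ] (PIdx S Y γ → ℂ))
    (u : Fin ρ → Hat S Y α →ₗ[ℂ] ℂ) (v : Fin ρ → Hat S Y β →ₗ[ℂ] ℂ)
    (w : Fin ρ → Hat S Y γ →ₗ[ℂ] ℂ)
    (h : ∀ a b c, T a.1 b.1 c.1 + ∑ p, φAB c p * (uform KA p a * vform KA GAB p b)
      + ∑ p, φBC a p * (uform KB p b * vform KB GBC p c)
      + ∑ p, φCA b p * (uform KC p c * vform KC GCA p a) = ∑ l, u l a * v l b * w l c) :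
    ∃ (θC : S → (γ → ℂ) →ₗ[ℂ] ℂ) (θA : S → (α → ℂ) →ₗ[ℂ] ℂ) (θB : S → (β → ℂ) →ₗ[ℂ] ℂ)
      (u' : Fin ρ → (α → ℂ) →ₗ[ℂ] ℂ) (v' : Fin ρ → (β → ℂ) →ₗ[ℂ] ℂ)
      (w' : Fin ρ → (γ → ℂ) →ₗ[ℂ] ℂ), ∀ a b c,
      T a b c + ∑ s, θC s c * ∑ t, a t * ∑ t', GAB s t t' * b t'
        + ∑ s, θA s a * ∑ t, b t * ∑ t', GBC s t t' * c t'
        + ∑ s, θB s b * ∑ t, c t * ∑ t', GCA s t t' * a t' = ∑ l, u' l a * v' l b * w' l c := by
  have rAB := family_rigid KA hKA hYA GAB φAB (fun l c => w l c) (fun l a => u l a)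
    (fun l b => v l b) (by
      intro c e f
      have := h (0, e, 0) (0, 0, f) c
      simp only [hT1, uform_zero, vform_zero, zero_mul, mul_zero, Finset.sum_const_zero,
        add_zero, zero_add] at this
      rw [this]
      refine Finset.sum_congr rfl fun l _ => by ring)
  have rBC := family_rigid KB hKB hYB GBC φBC (fun l a => u l a) (fun l b => v l b)
    (fun l c => w l c) (by
      intro a e f
      have := h a (0, e, 0) (0, 0, f)
      simp only [hT2, uform_zero, vform_zero, zero_mul, mul_zero, Finset.sum_const_zero,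
        add_zero, zero_add] at this
      rw [this])
  have rCA := family_rigid KC hKC hYC GCA φCA (fun l b => v l b) (fun l c => w l c)
    (fun l a => u l a) (by
      intro b e f
      have := h (0, 0, f) b (0, e, 0)
      simp only [hT1, uform_zero, vform_zero, zero_mul, mul_zero, Finset.sum_const_zero,
        add_zero, zero_add] at this
      rw [this]
      refine Finset.sum_congr rfl fun l _ => by ring)
  choose θ1 κA hA using rAB
  choose θ2 κB hB using rBC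
  choose θ3 κC hC using rCA
  let eA : (α → ℂ) →ₗ[ℂ] Hat S Y α :=
    LinearMap.prod LinearMap.id (LinearMap.prod (LinearMap.pi κA) 0)
  let eB : (β → ℂ) →ₗ[ℂ] Hat S Y β :=
    LinearMap.prod LinearMap.id (LinearMap.prod (LinearMap.pi κB) 0)
  let eC : (γ → ℂ) →ₗ[ℂ] Hat S Y γ :=
    LinearMap.prod LinearMap.id (LinearMap.prod (LinearMap.pi κC) 0)
  refine ⟨fun s => θ1 s ∘ₗ eC, fun s => θ2 s ∘ₗ eA, fun s => θ3 s ∘ₗ eB,
    fun l => u l ∘ₗ eA, fun l => v l ∘ₗ eB, fun l => w l ∘ₗ eC, ?_⟩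
  intro a b c
  have h1 := family_eval KA GAB (fun p => φAB (eC c) p) κA (fun s => θ1 s (eC c)) a b
    (fun s => κB s b) (fun s η => hA s a η (eC c))
  have h2 := family_eval KB GBC (fun p => φBC (eA a) p) κB (fun s => θ2 s (eA a)) b c
    (fun s => κC s c) (fun s η => hB s b η (eA a))
  have h3 := family_eval KC GCA (fun p => φCA (eB b) p) κC (fun s => θ3 s (eB b)) c a
    (fun s => κA s a) (fun s η => hC s c η (eB b))
  have h4 := h (eA a) (eB b) (eC c)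
  change _ = ∑ l, u l (eA a) * v l (eB b) * w l (eC c)
  rw [← h4]
  change T a b c + ∑ s, θ1 s (eC c) * ∑ t, a t * ∑ t', GAB s t t' * b t'
        + ∑ s, θ2 s (eA a) * ∑ t, b t * ∑ t', GBC s t t' * c t'
        + ∑ s, θ3 s (eB b) * ∑ t, c t * ∑ t', GCA s t t' * a t' =
    T a b c + ∑ p, φAB (eC c) p * (uform KA p (a, fun s => κA s a, 0)
        * vform KA GAB p (b, fun s => κB s b, 0))
      + ∑ p, φBC (eA a) p * (uform KB p (b, fun s => κB s b, 0)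
        * vform KB GBC p (c, fun s => κC s c, 0))
      + ∑ p, φCA (eB b) p * (uform KC p (c, fun s => κC s c, 0)
        * vform KC GCA p (a, fun s => κA s a, 0))
  rw [h1, h2, h3]

end Pool.Agent.W458.St
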