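import Pool.Agent.W458.StA

/-!
# The second tensor: a generic cubic tensor with its special decomposition
-/

set_option autoImplicit false

namespace Pool.Agent.W458.St

/-- Index set of the `3 p^2` terms. -/
abbrev K3 (p : ℕ) : Type := (Fin p × Fin p) ⊕ ((Fin p × Fin p) ⊕ (Fin p × Fin p))

/-- First factors of the terms. -/
def ya {p : ℕ} (t : Fin p → Fin p → Fin p → ℂ) : K3 p → Fin p → ℂ
  | Sum.inl (i, j) => fun l => t l i j
  | Sum.inr (Sum.inl (i, _)) => fun l => if l = i then 1 else 0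
  | Sum.inr (Sum.inr (i, _)) => fun l => if l = i then 1 else 0

/-- Second factors of the terms. -/
def yb {p : ℕ} : K3 p → Fin p → ℂ
  | Sum.inl (i, _) => fun l => if l = i then 1 else 0
  | Sum.inr (Sum.inl _) => fun _ => 0
  | Sum.inr (Sum.inr (_, j)) => fun l => if l = j then 1 else 0

/-- Third factors of the terms. -/
def yc {p : ℕ} : K3 p → Fin p → ℂ
  | Sum.inl (_, j) => fun l => if l = j then 1 else 0
  | Sum.inr (Sum.inl (_, j)) => fun l => if l = j then 1 else 0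
  | Sum.inr (Sum.inr _) => fun _ => 0

theorem sum_K3 {p : ℕ} (f : K3 p → ℂ) : ∑ k, f k = ∑ i, ∑ j, f (Sum.inl (i, j))
    + (∑ i, ∑ j, f (Sum.inr (Sum.inl (i, j))) + ∑ i, ∑ j, f (Sum.inr (Sum.inr (i, j)))) := by
  rw [Fintype.sum_sum_type, Fintype.sum_sum_type]
  simp only [Fintype.sum_prod_type]

theorem T2_bound {p ρ : ℕ} {X : Type} [Fintype X] (t : Fin p → Fin p → Fin p → ℂ)
    (x : K3 p → X → ℂ)
    (hz : AlgebraicIndependent ℚ (Sum.elim (fun q : K3 p × X => x q.1 q.2)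
      (fun m : Fin p × Fin p × Fin p => t m.1 m.2.1 m.2.2)))
    (θC θA θB : X → Fin p → ℂ) (u v w : Fin ρ → Fin p → ℂ)
    (h : ∀ l i j, ∑ k, ya t k l * yb k i * yc k j
      + ∑ q, θC q j * ∑ k, x k q * (ya t k l * yb k i)
      + ∑ q, θA q l * ∑ k, x k q * (yb k i * yc k j)
      + ∑ q, θB q i * ∑ k, x k q * (yc k j * ya t k l)
      = ∑ m, u m l * v m i * w m j) :
    p * p * p ≤ 3 * p * ρ + 3 * p * Fintype.card X := by
  classical
  let GAB : X → Fin p → Fin p → ℂ := fun q l i => ∑ k, x k q * (ya t k l * yb k i)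
  let GBC : X → Fin p → Fin p → ℂ := fun q i j => ∑ k, x k q * (yb k i * yc k j)
  let GCA : X → Fin p → Fin p → ℂ := fun q j l => ∑ k, x k q * (yc k j * ya t k l)
  let g : ((Fin ρ × Fin p) ⊕ (Fin ρ × Fin p) ⊕ (Fin ρ × Fin p) ⊕ (X × Fin p) ⊕ (X × Fin p) ⊕
      (X × Fin p) ⊕ (X × Fin p × Fin p) ⊕ (X × Fin p × Fin p) ⊕ (X × Fin p × Fin p)) → ℂ :=
    Sum.elim (fun q => u q.1 q.2) (Sum.elim (fun q => v q.1 q.2) (Sum.elim (fun q => w q.1 q.2)
    (Sum.elim (fun q => θC q.1 q.2) (Sum.elim (fun q => θA q.1 q.2)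
    (Sum.elim (fun q => θB q.1 q.2) (Sum.elim (fun q => GAB q.1 q.2.1 q.2.2)
    (Sum.elim (fun q => GBC q.1 q.2.1 q.2.2) (fun q => GCA q.1 q.2.1 q.2.2))))))))
  let L := Fld (Set.range g)
  have hg : ∀ a, g a ∈ L := fun a => IntermediateField.subset_adjoin _ _ ⟨a, rfl⟩
  have hu : ∀ m l, u m l ∈ L := fun m l => hg (Sum.inl (m, l))
  have hv : ∀ m l, v m l ∈ L := fun m l => hg (Sum.inr (Sum.inl (m, l)))
  have hw : ∀ m l, w m l ∈ L := fun m l => hg (Sum.inr (Sum.inr (Sum.inl (m, l))))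
  have h1 : ∀ m l, θC m l ∈ L := fun m l => hg (Sum.inr (Sum.inr (Sum.inr (Sum.inl (m, l)))))
  have h2 : ∀ m l, θA m l ∈ L := fun m l =>
    hg (Sum.inr (Sum.inr (Sum.inr (Sum.inr (Sum.inl (m, l))))))
  have h3 : ∀ m l, θB m l ∈ L := fun m l =>
    hg (Sum.inr (Sum.inr (Sum.inr (Sum.inr (Sum.inr (Sum.inl (m, l)))))))
  have h4 : ∀ q i j, GAB q i j ∈ L := fun q i j =>
    hg (Sum.inr (Sum.inr (Sum.inr (Sum.inr (Sum.inr (Sum.inr (Sum.inl (q, i, j))))))))
  have h5 : ∀ q i j, GBC q i j ∈ L := fun q i j =>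
    hg (Sum.inr (Sum.inr (Sum.inr (Sum.inr (Sum.inr (Sum.inr (Sum.inr (Sum.inl (q, i, j)))))))))
  have h6 : ∀ q i j, GCA q i j ∈ L := fun q i j =>
    hg (Sum.inr (Sum.inr (Sum.inr (Sum.inr (Sum.inr (Sum.inr (Sum.inr (Sum.inr (q, i, j)))))))))
  -- the tensor
  have eT : ∀ l i j, ∑ k, ya t k l * yb k i * yc k j = t l i j := by
    intro l i j
    rw [sum_K3]
    simp [ya, yb, yc]
  have ht : ∀ l i j, t l i j ∈ L := by
    intro l i j
    have e : t l i j = ∑ m, u m l * v m i * w m j - (∑ q, θC q j * GAB q l i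
      + ∑ q, θA q l * GBC q i j + ∑ q, θB q i * GCA q j l) := by
      have := h l i j
      rw [eT] at this
      rw [← this]
      ring
    rw [e]
    refine L.sub_mem (L.sum_mem fun m _ => L.mul_mem (L.mul_mem (hu _ _) (hv _ _)) (hw _ _))
      (L.add_mem (L.add_mem (L.sum_mem fun q _ => L.mul_mem (h1 _ _) (h4 _ _ _))
        (L.sum_mem fun q _ => L.mul_mem (h2 _ _) (h5 _ _ _)))
        (L.sum_mem fun q _ => L.mul_mem (h3 _ _) (h6 _ _ _)))
  have hx1 : ∀ i j q, x (Sum.inl (i, j)) q ∈ L := by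
    intro i j q
    have e : GBC q i j = x (Sum.inl (i, j)) q := by
      change ∑ k, x k q * (yb k i * yc k j) = _
      rw [sum_K3]
      simp [yb, yc]
    rw [← e]; exact h5 _ _ _
  have hx2 : ∀ i j q, x (Sum.inr (Sum.inl (i, j))) q ∈ L := by
    intro i j q
    have e : x (Sum.inr (Sum.inl (i, j))) q
        = GCA q j i - ∑ i', x (Sum.inl (i', j)) q * t i i' j := by
      change _ = ∑ k, x k q * (yc k j * ya t k i) - _
      rw [sum_K3]
      simp [ya, yc]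
    rw [e]
    exact L.sub_mem (h6 _ _ _) (L.sum_mem fun i' _ => L.mul_mem (hx1 _ _ _) (ht _ _ _))
  have hx3 : ∀ i j q, x (Sum.inr (Sum.inr (i, j))) q ∈ L := by
    intro i j q
    have e : x (Sum.inr (Sum.inr (i, j))) q
        = GAB q i j - ∑ j', x (Sum.inl (j, j')) q * t i j j' := by
      change _ = ∑ k, x k q * (ya t k i * yb k j) - _
      rw [sum_K3]
      simp [ya, yb]
    rw [e]
    exact L.sub_mem (h4 _ _ _) (L.sum_mem fun i' _ => L.mul_mem (hx1 _ _ _) (ht _ _ _))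
  have hc := card_le_of_mem_fld _ hz g (Set.range g) subset_rfl (by
    rintro (⟨k, q⟩ | ⟨l, i, j⟩)
    · rcases k with ⟨i, j⟩ | ⟨i, j⟩ | ⟨i, j⟩
      · exact hx1 i j q
      · exact hx2 i j q
      · exact hx3 i j q
    · exact ht l i j)
  simp only [Fintype.card_sum, Fintype.card_prod, Fintype.card_fin] at hc
  nlinarith [hc]

end Pool.Agent.W458.St
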