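import Pool.Agent.W458.StA

/-!
# The first tensor: an unbalanced generic tensor
-/

set_option autoImplicit false

namespace Pool.Agent.W458.St

open Module

/-- Descent of non-membership in a span to a subfield. -/
theorem exists_functional (L : IntermediateField ℚ ℂ) {κ m : Type} [Fintype κ] [Fintype m]
    (E : κ → m → ℂ) (hE : ∀ k i, E k i ∈ L) (z : m → ℂ) (hz : ∀ i, z i ∈ L)
    (hn : ∀ c : κ → ℂ, (∀ k, c k ∈ L) → z ≠ fun i => ∑ k, c k * E k i) :
    ∃ ψ : m → ℂ, (∀ i, ψ i ∈ L) ∧ (∀ k, ∑ i, ψ i * E k i = 0) ∧ ∑ i, ψ i * z i ≠ 0 := by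
  classical
  let E' : κ → (m → L) := fun k i => ⟨E k i, hE k i⟩
  let z' : m → L := fun i => ⟨z i, hz i⟩
  have hnot : z' ∉ Submodule.span L (Set.range E') := by
    intro hmem
    rw [Submodule.mem_span_range_iff_exists_fun] at hmem
    obtain ⟨c, hc⟩ := hmem
    apply hn (fun k => (c k : ℂ)) (fun k => (c k).2)
    funext i
    have := congrFun hc i
    have h2 := congrArg (fun a : L => (a : ℂ)) this
    simp only [Finset.sum_apply, Pi.smul_apply, smul_eq_mul] at h2
    push_cast at h2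
    exact h2.symm
  obtain ⟨f, hf1, hf2⟩ := Submodule.exists_le_ker_of_notMem hnot
  have hrep : ∀ v : m → L, f v = ∑ i, v i * f (Pi.single i 1) := by
    intro v
    conv_lhs => rw [pi_eq_sum_univ' v]
    rw [map_sum]
    refine Finset.sum_congr rfl fun i _ => ?_
    rw [map_smul, smul_eq_mul]
  refine ⟨fun i => (f (Pi.single i 1) : ℂ), fun i => (f (Pi.single i 1)).2, ?_, ?_⟩
  · intro k
    have h1 : f (E' k) = 0 := hf2 (Submodule.subset_span ⟨k, rfl⟩)
    rw [hrep] at h1
    have h2 := congrArg (fun a : L => (a : ℂ)) h1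
    push_cast at h2
    rw [← h2]
    refine Finset.sum_congr rfl fun i _ => by ring
  · intro h0
    apply hf1
    rw [hrep]
    apply Subtype.ext
    push_cast
    rw [← h0]
    refine Finset.sum_congr rfl fun i _ => by ring

/-- Solutions of a linear system over a subfield with independent columns lie in the subfield. -/
theorem mem_of_linearIndependent (L : IntermediateField ℚ ℂ) {κ m : Type} [Fintype κ] [Fintype m]
    (E : κ → m → ℂ) (hE : ∀ k i, E k i ∈ L) (hli : LinearIndependent ℂ E) (a : κ → ℂ)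
    (ha : ∀ i, ∑ k, a k * E k i ∈ L) (k : κ) : a k ∈ L := by
  classical
  by_contra hk
  obtain ⟨ψ, -, h1, h2⟩ := exists_functional L E hE (fun i => ∑ k, a k * E k i) ha (by
    intro c hc heq
    have h3 : ∑ k, (a k - c k) • E k = 0 := by
      funext i
      have := congrFun heq i
      simp only [Finset.sum_apply, Pi.smul_apply, smul_eq_mul, Pi.zero_apply, sub_mul,
        Finset.sum_sub_distrib]
      rw [sub_eq_zero]
      exact this
    have h4 := Fintype.linearIndependent_iff.mp hli _ h3 k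
    rw [sub_eq_zero] at h4
    exact hk (h4 ▸ hc k))
  apply h2
  have : ∑ i, ψ i * ∑ k, a k * E k i = ∑ k, a k * ∑ i, ψ i * E k i := by
    simp_rw [Finset.mul_sum]
    rw [Finset.sum_comm]
    refine Finset.sum_congr rfl fun k _ => Finset.sum_congr rfl fun i _ => by ring
  rw [this]
  simp [h1]

theorem bad_bound {K C T S : Type} [Fintype K] [Fintype C] [Fintype T] [Fintype S]
    (c : K → C → ℂ) (t : T → ℂ) (y : K → S → ℂ) (hy : ∀ k s, y k s ∈ Fld (Set.range t))
    (hz : AlgebraicIndependent ℚ (Sum.elim (fun q : K × C => c q.1 q.2) t))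
    (θ : S → C → ℂ) (ζ : C → ℂ) (hζ : ζ ≠ 0) (P : K → Prop) [DecidablePred P]
    (hP : ∀ k, P k → ∑ j, ζ j * (c k j + ∑ s, θ s j * y k s) = 0) :
    Fintype.card {k // P k} ≤ Fintype.card C + Fintype.card S := by
  classical
  obtain ⟨j0, hj0⟩ : ∃ j, ζ j ≠ 0 := by
    by_contra hcon
    push Not at hcon
    exact hζ (funext hcon)
  let η : S → ℂ := fun s => ∑ j, ζ j * θ s j
  let Q : K × C → Prop := fun q => P q.1 ∧ q.2 = j0
  let g : (C ⊕ (S ⊕ (T ⊕ {q : K × C // ¬ Q q}))) → ℂ :=
    Sum.elim ζ (Sum.elim η (Sum.elim t (fun q => c q.1.1 q.1.2)))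
  let L := Fld (Set.range g)
  have hg : ∀ a, g a ∈ L := fun a => IntermediateField.subset_adjoin _ _ ⟨a, rfl⟩
  have h1 : ∀ j, ζ j ∈ L := fun j => hg (Sum.inl j)
  have h2 : ∀ s, η s ∈ L := fun s => hg (Sum.inr (Sum.inl s))
  have h3 : ∀ s, t s ∈ L := fun s => hg (Sum.inr (Sum.inr (Sum.inl s)))
  have h4 : ∀ q : K × C, ¬ Q q → c q.1 q.2 ∈ L := fun q hq =>
    hg (Sum.inr (Sum.inr (Sum.inr ⟨q, hq⟩)))
  have hyL : ∀ k s, y k s ∈ L := by
    intro k s
    refine (IntermediateField.adjoin_le_iff.mpr ?_ : Fld (Set.range t) ≤ L) (hy k s)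
    rintro _ ⟨s, rfl⟩
    exact h3 s
  have h5 : ∀ q : K × C, c q.1 q.2 ∈ L := by
    rintro ⟨k, j⟩
    by_cases hq : Q (k, j)
    · obtain ⟨hk, hj⟩ := hq
      simp only at hk hj
      subst hj
      have e1 := hP k hk
      have e2 : ∑ j', ζ j' * (c k j' + ∑ s, θ s j' * y k s)
          = ∑ j', ζ j' * c k j' + ∑ s, η s * y k s := by
        simp only [mul_add, Finset.sum_add_distrib]
        congr 1
        simp only [η, Finset.sum_mul, Finset.mul_sum]
        rw [Finset.sum_comm]
        refine Finset.sum_congr rfl fun s _ => Finset.sum_congr rfl fun j' _ => by ring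
      rw [e2, ← Finset.add_sum_erase _ _ (Finset.mem_univ j)] at e1
      have e3 : c k j = -(∑ j' ∈ Finset.univ.erase j, ζ j' * c k j' + ∑ s, η s * y k s) / ζ j := by
        rw [eq_div_iff hj0]
        linear_combination e1
      change c k j ∈ L
      rw [e3]
      refine L.div_mem (L.neg_mem (L.add_mem (L.sum_mem fun j' hj' => L.mul_mem (h1 _) ?_)
        (L.sum_mem fun s _ => L.mul_mem (h2 _) (hyL _ _)))) (h1 _)
      refine h4 (k, j') ?_
      rintro ⟨-, hh⟩
      exact (Finset.ne_of_mem_erase hj') hh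
    · exact h4 _ hq
  have hcard := card_le_of_mem_fld _ hz g (Set.range g) subset_rfl (by
    rintro (q | s)
    · exact h5 q
    · exact h3 s)
  have hc2 : Fintype.card {q : K × C // Q q} = Fintype.card {k // P k} := by
    refine Fintype.card_congr ⟨fun q => ⟨q.1.1, q.2.1⟩, fun k => ⟨(k.1, j0), k.2, rfl⟩, ?_, ?_⟩
    · rintro ⟨⟨k, j⟩, hk, hj⟩
      simp only at hj
      subst hj
      rfl
    · rintro ⟨k, hk⟩
      rfl
  have hc3 := Fintype.card_subtype_compl Q
  have hc4 := Fintype.card_subtype_le Q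
  simp only [Fintype.card_sum] at hcard
  omega

theorem good_bound {K B C T S : Type} [Fintype K] [Fintype B] [Fintype C] [Fintype T]
    [Fintype S] [DecidableEq B] (b : K → B → ℂ)
    (c : K → C → ℂ) (t : T → ℂ) (y : K → S → ℂ) (hy : ∀ k s, y k s ∈ Fld (Set.range t))
    (hz : AlgebraicIndependent ℚ (Sum.elim (fun q : K × B => b q.1 q.2)
      (Sum.elim (fun q : K × C => c q.1 q.2) t)))
    (θ : S → C → ℂ) (J P : K → Prop) [DecidablePred J] [DecidablePred P]
    (hPJ : ∀ k, P k → ¬ J k)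
    (hJ : ∀ k, ∃ d : {k // J k} → ℂ, ∀ i j, b k i * (c k j + ∑ s, θ s j * y k s)
      = ∑ l : {k // J k}, d l * (b l i * (c l j + ∑ s, θ s j * y l s)))
    (hP : ∀ k, P k → ∃ i : B, ∀ d : {k // J k} → ℂ, ∃ i' j,
      (Pi.single i (1 : ℂ) : B → ℂ) i' * (c k j + ∑ s, θ s j * y k s)
      ≠ ∑ l : {k // J k}, d l * (b l i' * (c l j + ∑ s, θ s j * y l s))) :
    Fintype.card {k // P k} ≤ Fintype.card S * Fintype.card C := by
  classical
  choose i hi using hP
  let Q : K × B → Prop := fun q => ∃ h : P q.1, q.2 = i q.1 h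
  let g : ((K × C) ⊕ (T ⊕ ((S × C) ⊕ {q : K × B // ¬ Q q}))) → ℂ :=
    Sum.elim (fun q => c q.1 q.2) (Sum.elim t (Sum.elim (fun q => θ q.1 q.2)
      (fun q => b q.1.1 q.1.2)))
  let L := Fld (Set.range g)
  have hg : ∀ a, g a ∈ L := fun a => IntermediateField.subset_adjoin _ _ ⟨a, rfl⟩
  have h1 : ∀ k j, c k j ∈ L := fun k j => hg (Sum.inl (k, j))
  have h3 : ∀ s, t s ∈ L := fun s => hg (Sum.inr (Sum.inl s))
  have h2 : ∀ s j, θ s j ∈ L := fun s j => hg (Sum.inr (Sum.inr (Sum.inl (s, j))))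
  have h4 : ∀ q : K × B, ¬ Q q → b q.1 q.2 ∈ L := fun q hq =>
    hg (Sum.inr (Sum.inr (Sum.inr ⟨q, hq⟩)))
  have hyL : ∀ k s, y k s ∈ L := by
    intro k s
    refine (IntermediateField.adjoin_le_iff.mpr ?_ : Fld (Set.range t) ≤ L) (hy k s)
    rintro _ ⟨s, rfl⟩
    exact h3 s
  have hc : ∀ k j, c k j + ∑ s, θ s j * y k s ∈ L := fun k j =>
    L.add_mem (h1 _ _) (L.sum_mem fun s _ => L.mul_mem (h2 _ _) (hyL _ _))
  have hbJ : ∀ k, J k → ∀ i, b k i ∈ L := by
    intro k hk i
    refine h4 (k, i) ?_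
    rintro ⟨h, -⟩
    exact hPJ _ h hk
  have h5 : ∀ q : K × B, b q.1 q.2 ∈ L := by
    rintro ⟨k, i'⟩
    by_cases hq : Q (k, i')
    · obtain ⟨hk, hj⟩ := hq
      simp only at hk hj
      subst hj
      obtain ⟨ψ, hψ1, hψ2, hψ3⟩ := exists_functional L
        (fun (l : {k // J k}) (q : B × C) => b l q.1 * (c l q.2 + ∑ s, θ s q.2 * y l s))
        (fun l q => L.mul_mem (hbJ _ l.2 _) (hc _ _))
        (fun q : B × C => (Pi.single (i k hk) (1 : ℂ) : B → ℂ) q.1
          * (c k q.2 + ∑ s, θ s q.2 * y k s))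
        (fun q => by
          refine L.mul_mem ?_ (hc _ _)
          by_cases h : q.1 = i k hk
          · rw [h, Pi.single_eq_same]; exact L.one_mem
          · rw [Pi.single_eq_of_ne h]; exact L.zero_mem)
        (by
          intro d _ heq
          obtain ⟨i', j, hne⟩ := hi k hk d
          apply hne
          exact congrFun heq (i', j))
      obtain ⟨d, hd⟩ := hJ k
      have e1 : ∑ q : B × C, ψ q * (b k q.1 * (c k q.2 + ∑ s, θ s q.2 * y k s)) = 0 := by
        have : ∀ q : B × C, ψ q * (b k q.1 * (c k q.2 + ∑ s, θ s q.2 * y k s))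
            = ∑ l : {k // J k}, d l * (ψ q * (b l q.1 * (c l q.2 + ∑ s, θ s q.2 * y l s))) := by
          intro q
          rw [hd q.1 q.2, Finset.mul_sum]
          refine Finset.sum_congr rfl fun l _ => by ring
        simp_rw [this]
        rw [Finset.sum_comm]
        simp_rw [← Finset.mul_sum]
        simp only [hψ2, mul_zero, Finset.sum_const_zero]
      let χ : B → ℂ := fun i' => ∑ j, ψ (i', j) * (c k j + ∑ s, θ s j * y k s)
      have hχL : ∀ i', χ i' ∈ L := fun i' => L.sum_mem fun j _ => L.mul_mem (hψ1 _) (hc _ _)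
      have e2 : ∑ i', b k i' * χ i' = 0 := by
        rw [← e1, Fintype.sum_prod_type]
        refine Finset.sum_congr rfl fun i' _ => ?_
        rw [Finset.mul_sum]
        refine Finset.sum_congr rfl fun j _ => by ring
      have e3 : χ (i k hk) ≠ 0 := by
        intro h0
        apply hψ3
        rw [← h0, Fintype.sum_prod_type]
        rw [Finset.sum_eq_single (i k hk)]
        · refine Finset.sum_congr rfl fun j _ => ?_
          rw [Pi.single_eq_same]
          ring
        · intro i' _ hne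
          refine Finset.sum_eq_zero fun j _ => ?_
          simp only
          rw [Pi.single_eq_of_ne hne]
          ring
        · intro h; exact absurd (Finset.mem_univ _) h
      rw [← Finset.add_sum_erase _ _ (Finset.mem_univ (i k hk))] at e2
      have e4 : b k (i k hk) = -(∑ i' ∈ Finset.univ.erase (i k hk), b k i' * χ i')
          / χ (i k hk) := by
        rw [eq_div_iff e3]
        linear_combination e2
      change b k (i k hk) ∈ L
      rw [e4]
      refine L.div_mem (L.neg_mem (L.sum_mem fun i' hi' => L.mul_mem ?_ (hχL _))) (hχL _)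
      refine h4 (k, i') ?_
      rintro ⟨hh1, hh2⟩
      exact (Finset.ne_of_mem_erase hi') hh2
    · exact h4 _ hq
  have hcard := card_le_of_mem_fld _ hz g (Set.range g) subset_rfl (by
    rintro (q | q | s)
    · exact h5 q
    · exact h1 q.1 q.2
    · exact h3 s)
  have hc2 : Fintype.card {q : K × B // Q q} = Fintype.card {k // P k} := by
    refine Fintype.card_congr ⟨fun q => ⟨q.1.1, q.2.choose⟩,
      fun k => ⟨(k.1, i k.1 k.2), k.2, rfl⟩, ?_, ?_⟩
    · intro q
      exact Subtype.ext (Prod.ext rfl q.2.choose_spec.symm)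
    · rintro ⟨k, hk⟩
      rfl
  have hc3 := Fintype.card_subtype_compl Q
  have hc4 := Fintype.card_subtype_le Q
  simp only [Fintype.card_sum, Fintype.card_prod] at hcard hc3 hc4
  omega

end Pool.Agent.W458.St
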