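import Pool.Agent.W458.StG

/-!
# The first tensor: a rank bound for an unbalanced generic tensor after modification
-/

set_option autoImplicit false

namespace Pool.Agent.W458.St

open Module

/-- A spanning independent subfamily. -/
theorem exists_sub {K M : Type} [Fintype K] [AddCommGroup M] [Module ℂ M]
    (F : K → M) : ∃ J : K → Prop, LinearIndependent ℂ (fun l : {k // J k} => F l) ∧
      (∀ k, F k ∈ Submodule.span ℂ (Set.range fun l : {k // J k} => F l)) := by
  classical
  obtain ⟨κ, a, ha, hspan, hli⟩ := exists_linearIndependent' ℂ F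
  have hrange : (Set.range fun l : {k // k ∈ Set.range a} => F l) = Set.range (F ∘ a) := by
    ext x
    constructor
    · rintro ⟨⟨_, i, rfl⟩, rfl⟩
      exact ⟨i, rfl⟩
    · rintro ⟨i, rfl⟩
      exact ⟨⟨a i, i, rfl⟩, rfl⟩
  refine ⟨fun k => k ∈ Set.range a, ?_, ?_⟩
  · let e : κ ≃ {k // k ∈ Set.range a} := Equiv.ofInjective a ha
    have h2 := hli.comp e.symm e.symm.injective
    have h3 : (fun l : {k // k ∈ Set.range a} => F l) = (F ∘ a) ∘ e.symm := by
      funext l
      simp only [Function.comp_apply]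
      congr 1
      have := e.apply_symm_apply l
      exact (congrArg Subtype.val this).symm
    rw [h3]
    exact h2
  · intro k
    rw [hrange, hspan]
    exact Submodule.subset_span ⟨k, rfl⟩

theorem T1_bound {K A B C T S : Type} [Fintype K] [Fintype A] [Fintype B] [Fintype C]
    [Fintype T] [Fintype S]
    (a : K → A → ℂ) (b : K → B → ℂ) (c : K → C → ℂ) (t : T → ℂ) (y : K → S → ℂ)
    (hy : ∀ k s, y k s ∈ Fld (Set.range t))
    (hz : AlgebraicIndependent ℚ (Sum.elim (fun q : K × A => a q.1 q.2)
      (Sum.elim (fun q : K × B => b q.1 q.2) (Sum.elim (fun q : K × C => c q.1 q.2) t))))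
    (hBC : Fintype.card K < Fintype.card B * Fintype.card C) {ρ : ℕ}
    (θC : S → C → ℂ) (θA : S → A → ℂ) (θB : S → B → ℂ) (u : Fin ρ → A → ℂ) (v : Fin ρ → B → ℂ)
    (w : Fin ρ → C → ℂ)
    (h : ∀ q i j, ∑ k, a k q * b k i * c k j
      + ∑ s, θC s j * ∑ k, y k s * (a k q * b k i)
      + ∑ s, θA s q * ∑ k, y k s * (b k i * c k j)
      + ∑ s, θB s i * ∑ k, y k s * (c k j * a k q)
      = ∑ m, u m q * v m i * w m j) :
    Fintype.card A * Fintype.card K
      ≤ (Fintype.card A + Fintype.card B + Fintype.card C) * (ρ + Fintype.card S)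
        + Fintype.card A * (2 * Fintype.card S * Fintype.card C + Fintype.card C
          + Fintype.card S) := by
  classical
  let F : K → (B × C → ℂ) := fun k q => b k q.1 * (c k q.2 + ∑ s, θC s q.2 * y k s)
  let E : K → (B × C → ℂ) := fun k q => F k q + (∑ s, θB s q.1 * y k s) * c k q.2
  obtain ⟨J, hJli, hJspan⟩ := exists_sub F
  let H : Submodule ℂ (B × C → ℂ) := Submodule.span ℂ (Set.range fun l : {k // J k} => F l)
  have hHfin : finrank ℂ H = Fintype.card {k // J k} := by
    exact finrank_span_eq_card hJli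
  -- the space D
  let D : Submodule ℂ (C → ℂ) :=
    { carrier := {d | ∀ i : B, (fun q : B × C => (Pi.single i (1 : ℂ) : B → ℂ) q.1 * d q.2) ∈ H}
      add_mem' := by
        intro d1 d2 h1 h2 i
        have := H.add_mem (h1 i) (h2 i)
        convert this using 1
        funext q
        simp only [Pi.add_apply]
        ring
      zero_mem' := by
        intro i
        convert H.zero_mem using 1
        funext q
        simp
      smul_mem' := by
        intro r d h1 i
        convert H.smul_mem r (h1 i) using 1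
        funext q
        simp only [Pi.smul_apply, smul_eq_mul]
        ring }
  have hD : D < ⊤ := by
    rw [lt_top_iff_ne_top]
    intro htop
    have hH : H = ⊤ := by
      rw [eq_top_iff]
      intro f _
      have hf : f = ∑ q : B × C, f q • (fun r : B × C =>
          (Pi.single q.1 (1 : ℂ) : B → ℂ) r.1 * (Pi.single q.2 (1 : ℂ) : C → ℂ) r.2) := by
        funext r
        rw [Finset.sum_apply, Finset.sum_eq_single r]
        · simp
        · intro q _ hq
          simp only [Pi.smul_apply, smul_eq_mul]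
          by_cases h1 : r.1 = q.1
          · have h2 : r.2 ≠ q.2 := fun h2 => hq (Prod.ext h1.symm h2.symm)
            rw [Pi.single_eq_of_ne h2]; ring
          · rw [Pi.single_eq_of_ne h1]; ring
        · intro h; exact absurd (Finset.mem_univ _) h
      rw [hf]
      refine H.sum_mem fun q _ => H.smul_mem _ ?_
      have : (Pi.single q.2 (1 : ℂ) : C → ℂ) ∈ D := by rw [htop]; trivial
      exact this q.1
    have h1 : finrank ℂ H = Fintype.card B * Fintype.card C := by
      rw [hH, finrank_top, Module.finrank_fintype_fun_eq_card, Fintype.card_prod]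
    have h2 := Fintype.card_subtype_le J
    omega
  obtain ⟨f, hf0, hfD⟩ := Submodule.exists_le_ker_of_lt_top D hD
  let ζ : C → ℂ := fun j => f (Pi.single j 1)
  have hfrep : ∀ d : C → ℂ, f d = ∑ j, ζ j * d j := by
    intro d
    conv_lhs => rw [pi_eq_sum_univ' d]
    rw [map_sum]
    refine Finset.sum_congr rfl fun j _ => ?_
    rw [map_smul, smul_eq_mul, mul_comm]
  have hζ : ζ ≠ 0 := by
    intro h0
    apply hf0
    apply LinearMap.ext
    intro d
    rw [hfrep, h0]
    simp
  let ct : K → C → ℂ := fun k j => c k j + ∑ s, θC s j * y k s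
  have hbad := bad_bound c t y hy (hz.comp (fun x => Sum.inr (Sum.inr x))
    (Sum.inr_injective.comp Sum.inr_injective)) θC ζ hζ (fun k => ct k ∈ D) (by
      intro k hk
      have := hfD hk
      rw [LinearMap.mem_ker, hfrep] at this
      exact this)
  have hgood := good_bound b c t y hy (hz.comp (fun x => Sum.inr x) Sum.inr_injective) θC J
    (fun k => ct k ∉ D ∧ ¬ J k) (fun k hk => hk.2) (by
      intro k
      obtain ⟨d, hd⟩ := (Submodule.mem_span_range_iff_exists_fun ℂ).mp (hJspan k)
      refine ⟨d, fun i j => ?_⟩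
      have := congrFun hd (i, j)
      simp only [Finset.sum_apply, Pi.smul_apply, smul_eq_mul] at this
      exact this.symm) (by
      intro k hk
      have hk1 : ¬ ∀ i : B, (fun q : B × C => (Pi.single i (1 : ℂ) : B → ℂ) q.1 * ct k q.2) ∈ H :=
        hk.1
      push Not at hk1
      obtain ⟨i, hi⟩ := hk1
      refine ⟨i, fun d => ?_⟩
      by_contra hcon
      push Not at hcon
      apply hi
      rw [Submodule.mem_span_range_iff_exists_fun]
      refine ⟨d, ?_⟩
      funext q
      simp only [Finset.sum_apply, Pi.smul_apply, smul_eq_mul]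
      exact (hcon q.1 q.2).symm)
  have hcardK : Fintype.card K ≤ Fintype.card {k // J k} + Fintype.card {k // ct k ∈ D}
      + Fintype.card {k // ct k ∉ D ∧ ¬ J k} := by
    simp only [Fintype.card_subtype]
    rw [← Finset.card_univ]
    refine le_trans (Finset.card_le_card ?_) ((Finset.card_union_le _ _).trans
      (Nat.add_le_add_right (Finset.card_union_le _ _) _))
    intro k _
    simp only [Finset.mem_union, Finset.mem_filter, Finset.mem_univ, true_and]
    tauto
  -- the span of E
  obtain ⟨J', hJ'li, hJ'span⟩ := exists_sub E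
  let H' : Submodule ℂ (B × C → ℂ) := Submodule.span ℂ (Set.range fun l : {k // J' k} => E l)
  have hH'fin : finrank ℂ H' = Fintype.card {k // J' k} := finrank_span_eq_card hJ'li
  let R : Submodule ℂ (B × C → ℂ) := Submodule.span ℂ (Set.range fun q : S × C =>
    (fun r : B × C => θB q.1 r.1 * (Pi.single q.2 (1 : ℂ) : C → ℂ) r.2))
  have hRfin : finrank ℂ R ≤ Fintype.card S * Fintype.card C := by
    have := finrank_range_le_card (R := ℂ) (fun q : S × C =>
      (fun r : B × C => θB q.1 r.1 * (Pi.single q.2 (1 : ℂ) : C → ℂ) r.2))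
    rw [Fintype.card_prod] at this
    exact this
  have hle : H ≤ H' ⊔ R := by
    rw [Submodule.span_le]
    rintro _ ⟨⟨k, hk⟩, rfl⟩
    have e1 : F k = E k + (-1 : ℂ) • ∑ q : S × C, (y k q.1 * c k q.2) • (fun r : B × C =>
        θB q.1 r.1 * (Pi.single q.2 (1 : ℂ) : C → ℂ) r.2) := by
      funext r
      simp only [Pi.add_apply, Pi.smul_apply, Finset.sum_apply, smul_eq_mul, E]
      have : ∑ q : S × C, y k q.1 * c k q.2 * (θB q.1 r.1 * (Pi.single q.2 (1 : ℂ) : C → ℂ) r.2)
          = (∑ s, θB s r.1 * y k s) * c k r.2 := by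
        rw [Fintype.sum_prod_type, Finset.sum_mul]
        refine Finset.sum_congr rfl fun s _ => ?_
        rw [Finset.sum_eq_single r.2]
        · rw [Pi.single_eq_same]; ring
        · intro j _ hj
          rw [Pi.single_eq_of_ne (Ne.symm hj)]; ring
        · intro h; exact absurd (Finset.mem_univ _) h
      rw [this]
      ring
    change F k ∈ H' ⊔ R
    rw [e1]
    refine Submodule.add_mem_sup (hJ'span k) (R.smul_mem _ (R.sum_mem fun q _ =>
      R.smul_mem _ (Submodule.subset_span ⟨q, rfl⟩)))
  have hfinle : finrank ℂ H ≤ finrank ℂ H' + finrank ℂ R := by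
    refine (Submodule.finrank_mono hle).trans ?_
    have := Submodule.finrank_sup_add_finrank_inf_eq H' R
    omega
  -- the count of the parameters a
  let g : (T ⊕ ((K × B) ⊕ ((K × C) ⊕ ((S × C) ⊕ ((S × A) ⊕ ((S × B) ⊕ ((Fin ρ × A) ⊕
      ((Fin ρ × B) ⊕ ((Fin ρ × C) ⊕ ({k // ¬ J' k} × A)))))))))) → ℂ :=
    Sum.elim t (Sum.elim (fun q => b q.1 q.2) (Sum.elim (fun q => c q.1 q.2)
    (Sum.elim (fun q => θC q.1 q.2) (Sum.elim (fun q => θA q.1 q.2)
    (Sum.elim (fun q => θB q.1 q.2) (Sum.elim (fun q => u q.1 q.2) (Sum.elim (fun q => v q.1 q.2)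
    (Sum.elim (fun q => w q.1 q.2) (fun q => a q.1 q.2)))))))))
  let L := Fld (Set.range g)
  have hg : ∀ x, g x ∈ L := fun x => IntermediateField.subset_adjoin _ _ ⟨x, rfl⟩
  have ht : ∀ s, t s ∈ L := fun s => hg (Sum.inl s)
  have hb : ∀ k i, b k i ∈ L := fun k i => hg (Sum.inr (Sum.inl (k, i)))
  have hc : ∀ k i, c k i ∈ L := fun k i => hg (Sum.inr (Sum.inr (Sum.inl (k, i))))
  have h1 : ∀ k i, θC k i ∈ L := fun k i => hg (Sum.inr (Sum.inr (Sum.inr (Sum.inl (k, i)))))
  have h2 : ∀ k i, θA k i ∈ L := fun k i =>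
    hg (Sum.inr (Sum.inr (Sum.inr (Sum.inr (Sum.inl (k, i))))))
  have h3 : ∀ k i, θB k i ∈ L := fun k i =>
    hg (Sum.inr (Sum.inr (Sum.inr (Sum.inr (Sum.inr (Sum.inl (k, i)))))))
  have h4 : ∀ k i, u k i ∈ L := fun k i =>
    hg (Sum.inr (Sum.inr (Sum.inr (Sum.inr (Sum.inr (Sum.inr (Sum.inl (k, i))))))))
  have h5 : ∀ k i, v k i ∈ L := fun k i =>
    hg (Sum.inr (Sum.inr (Sum.inr (Sum.inr (Sum.inr (Sum.inr (Sum.inr (Sum.inl (k, i)))))))))
  have h6 : ∀ k i, w k i ∈ L := fun k i =>
    hg (Sum.inr (Sum.inr (Sum.inr (Sum.inr (Sum.inr (Sum.inr (Sum.inr (Sum.inr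
      (Sum.inl (k, i))))))))))
  have h7 : ∀ k, ¬ J' k → ∀ i, a k i ∈ L := fun k hk i =>
    hg (Sum.inr (Sum.inr (Sum.inr (Sum.inr (Sum.inr (Sum.inr (Sum.inr (Sum.inr
      (Sum.inr (⟨k, hk⟩, i))))))))))
  have hyL : ∀ k s, y k s ∈ L := by
    intro k s
    refine (IntermediateField.adjoin_le_iff.mpr ?_ : Fld (Set.range t) ≤ L) (hy k s)
    rintro _ ⟨s, rfl⟩
    exact ht s
  have hE : ∀ k q, E k q ∈ L := fun k q =>
    L.add_mem (L.mul_mem (hb _ _) (L.add_mem (hc _ _) (L.sum_mem fun s _ =>
      L.mul_mem (h1 _ _) (hyL _ _)))) (L.mul_mem (L.sum_mem fun s _ =>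
      L.mul_mem (h3 _ _) (hyL _ _)) (hc _ _))
  have key : ∀ q i j, ∑ k, a k q * E k (i, j) = ∑ m, u m q * v m i * w m j
      - ∑ s, θA s q * ∑ k, y k s * (b k i * c k j) := by
    intro q i j
    rw [← h q i j]
    have e1 : ∑ s, θC s j * ∑ k, y k s * (a k q * b k i)
        = ∑ k, a k q * (b k i * ∑ s, θC s j * y k s) := by
      simp_rw [Finset.mul_sum]
      rw [Finset.sum_comm]
      refine Finset.sum_congr rfl fun k _ => Finset.sum_congr rfl fun s _ => by ring
    have e2 : ∑ s, θB s i * ∑ k, y k s * (c k j * a k q)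
        = ∑ k, a k q * ((∑ s, θB s i * y k s) * c k j) := by
      simp_rw [Finset.sum_mul, Finset.mul_sum]
      rw [Finset.sum_comm]
      refine Finset.sum_congr rfl fun k _ => Finset.sum_congr rfl fun s _ => by ring
    rw [e1, e2]
    have e3 : ∑ k, a k q * E k (i, j) = ∑ k, a k q * b k i * c k j
        + ∑ k, a k q * (b k i * ∑ s, θC s j * y k s)
        + ∑ k, a k q * ((∑ s, θB s i * y k s) * c k j) := by
      rw [← Finset.sum_add_distrib, ← Finset.sum_add_distrib]
      refine Finset.sum_congr rfl fun k _ => ?_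
      simp only [E, F]
      ring
    rw [e3]
    ring
  have h8 : ∀ k i, a k i ∈ L := by
    intro k q
    by_cases hk : J' k
    · refine mem_of_linearIndependent L (fun (l : {k // J' k}) (r : B × C) => E l r)
        (fun l r => hE _ _) hJ'li (fun l => a l q) ?_ ⟨k, hk⟩
      intro r
      have e1 : ∑ l : {k // J' k}, a l q * E l r = ∑ k, a k q * E k (r.1, r.2)
          - ∑ l : {k // ¬ J' k}, a l q * E l r := by
        rw [← Fintype.sum_subtype_add_sum_subtype J' (fun k => a k q * E k (r.1, r.2))]
        ring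
      change ∑ l : {k // J' k}, a l q * E l r ∈ L
      rw [e1, key]
      refine L.sub_mem (L.sub_mem (L.sum_mem fun m _ => L.mul_mem (L.mul_mem (h4 _ _) (h5 _ _))
        (h6 _ _)) (L.sum_mem fun s _ => L.mul_mem (h2 _ _) (L.sum_mem fun k _ =>
        L.mul_mem (hyL _ _) (L.mul_mem (hb _ _) (hc _ _))))) (L.sum_mem fun l _ =>
        L.mul_mem (h7 _ l.2 _) (hE _ _))
    · exact h7 k hk q
  have hcard := card_le_of_mem_fld _ hz g (Set.range g) subset_rfl (by
    rintro (q | q | q | s)
    · exact h8 _ _
    · exact hb _ _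
    · exact hc _ _
    · exact ht _)
  have hc3 := Fintype.card_subtype_compl J'
  have hc4 := Fintype.card_subtype_le J'
  simp only [Fintype.card_sum, Fintype.card_prod, Fintype.card_fin] at hcard
  rw [hc3] at hcard
  -- e := card J'
  have hee : Fintype.card K ≤ Fintype.card {k // J' k}
      + (2 * Fintype.card S * Fintype.card C + Fintype.card C + Fintype.card S) := by
    have e1 : Fintype.card {k // J k} ≤ Fintype.card {k // J' k}
        + Fintype.card S * Fintype.card C := by
      rw [← hHfin, ← hH'fin]; omega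
    have e2 : 2 * Fintype.card S * Fintype.card C = Fintype.card S * Fintype.card C
        + Fintype.card S * Fintype.card C := by ring
    omega
  have hcard2 : Fintype.card A * Fintype.card {k // J' k}
      ≤ (Fintype.card A + Fintype.card B + Fintype.card C) * (ρ + Fintype.card S) := by
    have e0 : (Fintype.card K - Fintype.card {k // J' k}) * Fintype.card A
        = Fintype.card K * Fintype.card A - Fintype.card {k // J' k} * Fintype.card A :=
      Nat.sub_mul _ _ _
    have e1 : Fintype.card {k // J' k} * Fintype.card A ≤ Fintype.card K * Fintype.card A :=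
      Nat.mul_le_mul_right _ hc4
    rw [e0] at hcard
    have e2 : (Fintype.card A + Fintype.card B + Fintype.card C) * (ρ + Fintype.card S)
        = Fintype.card S * Fintype.card C + (Fintype.card S * Fintype.card A
          + (Fintype.card S * Fintype.card B + (ρ * Fintype.card A
          + (ρ * Fintype.card B + ρ * Fintype.card C)))) := by ring
    rw [e2, mul_comm (Fintype.card A)]
    omega
  calc Fintype.card A * Fintype.card K
      ≤ Fintype.card A * (Fintype.card {k // J' k}
      + (2 * Fintype.card S * Fintype.card C + Fintype.card C + Fintype.card S)) :=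
        Nat.mul_le_mul_left _ hee
    _ = Fintype.card A * Fintype.card {k // J' k} + Fintype.card A *
      (2 * Fintype.card S * Fintype.card C + Fintype.card C + Fintype.card S) := by ring
    _ ≤ _ := Nat.add_le_add_right hcard2 _

end Pool.Agent.W458.St
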