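import Pool.Agent.W458.StB
import Pool.Agent.W458.StE
import Pool.Agent.W458.StH

/-!
# One side of the construction: forms and the lower bound
-/

set_option autoImplicit false
set_option linter.unusedSectionVars false

namespace Pool.Agent.W458.St

open Module

/-- Data of one side. -/
structure Side (K S α β γ : Type) (Y : ℕ) where
  /-- first factors -/
  a : K → α → ℂ
  /-- second factors -/
  b : K → β → ℂ
  /-- third factors -/
  c : K → γ → ℂ
  /-- coordinates of the linear forms of the other side -/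
  y : K → S → ℂ
  /-- gadget matrix -/
  KA : Matrix (Fin Y ⊕ α) (Fin Y ⊕ α) ℂ
  /-- gadget matrix -/
  KB : Matrix (Fin Y ⊕ β) (Fin Y ⊕ β) ℂ
  /-- gadget matrix -/
  KC : Matrix (Fin Y ⊕ γ) (Fin Y ⊕ γ) ℂ

/-- The space of one side (without the adjoined variables). -/
abbrev VV (S : Type) (Y : ℕ) (α β γ : Type) : Type := Hat S Y α × Hat S Y β × Hat S Y γ

/-- Pair labels. -/
abbrev PP (S : Type) (Y : ℕ) (α β γ : Type) : Type := PIdx S Y α ⊕ (PIdx S Y β ⊕ PIdx S Y γ)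

/-- All labels. -/
abbrev II (K S : Type) (Y : ℕ) (α β γ : Type) : Type :=
  PP S Y α β γ ⊕ ((PP S Y α β γ ⊕ PP S Y α β γ) ⊕ (K ⊕ (K ⊕ K)))

namespace Side

variable {K S α β γ : Type} {Y : ℕ} [Fintype K] [DecidableEq K] [Fintype S] [DecidableEq S]
  [Fintype α] [DecidableEq α] [Fintype β] [DecidableEq β] [Fintype γ] [DecidableEq γ]

/-- The modification matrices. -/
def GAB (D : Side K S α β γ Y) (s : S) (q : α) (i : β) : ℂ := ∑ k, D.y k s * (D.a k q * D.b k i)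
/-- The modification matrices. -/
def GBC (D : Side K S α β γ Y) (s : S) (i : β) (j : γ) : ℂ := ∑ k, D.y k s * (D.b k i * D.c k j)
/-- The modification matrices. -/
def GCA (D : Side K S α β γ Y) (s : S) (j : γ) (q : α) : ℂ := ∑ k, D.y k s * (D.c k j * D.a k q)

/-- linear form with given coefficients -/
noncomputable def lin {ι : Type} [Fintype ι] (x : ι → ℂ) : (ι → ℂ) →ₗ[ℂ] ℂ :=
  { toFun := fun z => ∑ q, x q * z q
    map_add' := by
      intro z z'
      simp only [Pi.add_apply, mul_add, Finset.sum_add_distrib]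
    map_smul' := by
      intro r z
      simp only [Pi.smul_apply, smul_eq_mul, RingHom.id_apply, Finset.mul_sum]
      refine Finset.sum_congr rfl fun i _ => by ring }

theorem lin_apply {ι : Type} [Fintype ι] (x z : ι → ℂ) : lin x z = ∑ q, x q * z q := rfl

/-- The linear form `a_k`. -/
noncomputable def fa (D : Side K S α β γ Y) (k : K) : VV S Y α β γ →ₗ[ℂ] ℂ :=
  lin (D.a k) ∘ₗ LinearMap.fst ℂ _ _ ∘ₗ LinearMap.fst ℂ _ _
/-- The linear form `b_k`. -/
noncomputable def fb (D : Side K S α β γ Y) (k : K) : VV S Y α β γ →ₗ[ℂ] ℂ :=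
  lin (D.b k) ∘ₗ LinearMap.fst ℂ _ _ ∘ₗ LinearMap.fst ℂ _ _ ∘ₗ LinearMap.snd ℂ _ _
/-- The linear form `c_k`. -/
noncomputable def fc (D : Side K S α β γ Y) (k : K) : VV S Y α β γ →ₗ[ℂ] ℂ :=
  lin (D.c k) ∘ₗ LinearMap.fst ℂ _ _ ∘ₗ LinearMap.snd ℂ _ _ ∘ₗ LinearMap.snd ℂ _ _

theorem fa_apply (D : Side K S α β γ Y) (k : K) (z : VV S Y α β γ) :
    D.fa k z = ∑ q, D.a k q * z.1.1 q := rfl
theorem fb_apply (D : Side K S α β γ Y) (k : K) (z : VV S Y α β γ) :
    D.fb k z = ∑ q, D.b k q * z.2.1.1 q := rfl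
theorem fc_apply (D : Side K S α β γ Y) (k : K) (z : VV S Y α β γ) :
    D.fc k z = ∑ q, D.c k q * z.2.2.1 q := rfl

/-- Left factors of the pairs. -/
noncomputable def U (D : Side K S α β γ Y) : PP S Y α β γ → VV S Y α β γ →ₗ[ℂ] ℂ
  | Sum.inl p => uform D.KA p ∘ₗ LinearMap.fst ℂ _ _
  | Sum.inr (Sum.inl p) => uform D.KB p ∘ₗ LinearMap.fst ℂ _ _ ∘ₗ LinearMap.snd ℂ _ _
  | Sum.inr (Sum.inr p) => uform D.KC p ∘ₗ LinearMap.snd ℂ _ _ ∘ₗ LinearMap.snd ℂ _ _

/-- Right factors of the pairs. -/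
noncomputable def W (D : Side K S α β γ Y) : PP S Y α β γ → VV S Y α β γ →ₗ[ℂ] ℂ
  | Sum.inl p => vform D.KA D.GAB p ∘ₗ LinearMap.fst ℂ _ _ ∘ₗ LinearMap.snd ℂ _ _
  | Sum.inr (Sum.inl p) => vform D.KB D.GBC p ∘ₗ LinearMap.snd ℂ _ _ ∘ₗ LinearMap.snd ℂ _ _
  | Sum.inr (Sum.inr p) => vform D.KC D.GCA p ∘ₗ LinearMap.fst ℂ _ _

/-- The linear forms whose squares are adjoined. -/
noncomputable def ell (D : Side K S α β γ Y) : II K S Y α β γ → VV S Y α β γ →ₗ[ℂ] ℂ
  | Sum.inl p => D.U p + D.W p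
  | Sum.inr (Sum.inl (Sum.inl p)) => D.U p
  | Sum.inr (Sum.inl (Sum.inr p)) => D.W p
  | Sum.inr (Sum.inr (Sum.inl k)) => D.fa k
  | Sum.inr (Sum.inr (Sum.inr (Sum.inl k))) => D.fb k
  | Sum.inr (Sum.inr (Sum.inr (Sum.inr k))) => D.fc k

/-- The polarised cubic form. -/
noncomputable def T (D : Side K S α β γ Y) (x1 x2 x3 : VV S Y α β γ) : ℂ :=
  ∑ k, (D.fa k x1 * D.fb k x2 * D.fc k x3 + D.fa k x1 * D.fb k x3 * D.fc k x2
    + D.fa k x2 * D.fb k x1 * D.fc k x3 + D.fa k x2 * D.fb k x3 * D.fc k x1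
    + D.fa k x3 * D.fb k x1 * D.fc k x2 + D.fa k x3 * D.fb k x2 * D.fc k x1)

/-- The cubic form of one side. -/
noncomputable def F (D : Side K S α β γ Y) (J : II K S Y α β γ → Prop) [Fintype {i // J i}]
    (z : VV S Y α β γ × ({i // J i} → ℂ)) : ℂ :=
  6 * ∑ k, D.fa k z.1 * D.fb k z.1 * D.fc k z.1 + 3 * ∑ i, z.2 i * (D.ell i.1 z.1) ^ 2

/-- The modified tensor has a decomposition with `ρ` terms. -/
def Md (D : Side K S α β γ Y) (ρ : ℕ) : Prop :=
  ∃ (θC : S → γ → ℂ) (θA : S → α → ℂ) (θB : S → β → ℂ) (u : Fin ρ → α → ℂ) (v : Fin ρ → β → ℂ)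
    (w : Fin ρ → γ → ℂ), ∀ q i j, ∑ k, D.a k q * D.b k i * D.c k j
      + ∑ s, θC s j * ∑ k, D.y k s * (D.a k q * D.b k i)
      + ∑ s, θA s q * ∑ k, D.y k s * (D.b k i * D.c k j)
      + ∑ s, θB s i * ∑ k, D.y k s * (D.c k j * D.a k q)
      = ∑ m, u m q * v m i * w m j

/-- polarisation of a function -/
def polar {Z : Type} [AddCommGroup Z] (f : Z → ℂ) (x y z : Z) : ℂ :=
  f (x + y + z) - f (x + y) - f (x + z) - f (y + z) + f x + f y + f z

theorem polar_sum {Z ι : Type} [AddCommGroup Z] (s : Finset ι) (f : ι → Z → ℂ) (x y z : Z) :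
    polar (fun t => ∑ i ∈ s, f i t) x y z = ∑ i ∈ s, polar (f i) x y z := by
  simp only [polar, Finset.sum_add_distrib, Finset.sum_sub_distrib]

theorem polarised {Z ι κ κ' : Type} [AddCommGroup Z] [Module ℂ Z] [Fintype ι] [Fintype κ]
    [Fintype κ'] (L : ι → Z →ₗ[ℂ] ℂ) (a b c : κ → Z →ₗ[ℂ] ℂ) (w l : κ' → Z →ₗ[ℂ] ℂ)
    (h : ∀ z, 6 * ∑ k, a k z * b k z * c k z + 3 * ∑ i, w i z * (l i z) ^ 2
      = ∑ k, (L k z) ^ 3) (x y z : Z) :
    ∑ k, L k x * L k y * L k z = ∑ k, (a k x * b k y * c k z + a k x * b k z * c k y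
      + a k y * b k x * c k z + a k y * b k z * c k x
      + a k z * b k x * c k y + a k z * b k y * c k x)
      + ∑ i, (w i x * (l i y * l i z) + w i y * (l i x * l i z) + w i z * (l i x * l i y)) := by
  have e1 : polar (fun z => ∑ k, (L k z) ^ 3) x y z = 6 * ∑ k, L k x * L k y * L k z := by
    rw [polar_sum, Finset.mul_sum]
    refine Finset.sum_congr rfl fun k _ => ?_
    simp only [polar, map_add]
    ring
  have e2 : polar (fun z => ∑ k, (6 * (a k z * b k z * c k z))) x y z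
      = 6 * ∑ k, (a k x * b k y * c k z + a k x * b k z * c k y
      + a k y * b k x * c k z + a k y * b k z * c k x
      + a k z * b k x * c k y + a k z * b k y * c k x) := by
    rw [polar_sum, Finset.mul_sum]
    refine Finset.sum_congr rfl fun k _ => ?_
    simp only [polar, map_add]
    ring
  have e3 : polar (fun z => ∑ i, (3 * (w i z * (l i z) ^ 2))) x y z
      = 6 * ∑ i, (w i x * (l i y * l i z) + w i y * (l i x * l i z)
        + w i z * (l i x * l i y)) := by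
    rw [polar_sum, Finset.mul_sum]
    refine Finset.sum_congr rfl fun k _ => ?_
    simp only [polar, map_add]
    ring
  have h' : ∀ z, ∑ k, (L k z) ^ 3 = ∑ k, (6 * (a k z * b k z * c k z))
      + ∑ i, (3 * (w i z * (l i z) ^ 2)) := by
    intro z
    rw [← h z, Finset.mul_sum, Finset.mul_sum]
  have e4 : polar (fun z => ∑ k, (L k z) ^ 3) x y z
      = polar (fun z => ∑ k, (6 * (a k z * b k z * c k z))) x y z
        + polar (fun z => ∑ i, (3 * (w i z * (l i z) ^ 2))) x y z := by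
    simp only [polar, h']
    ring
  rw [e1, e2, e3] at e4
  have e5 : (6 : ℂ) ≠ 0 := by norm_num
  apply mul_left_cancel₀ e5
  rw [e4]
  ring

end Side

end Pool.Agent.W458.St
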