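import Pool.Agent.W458.StI

/-!
# One side of the construction: the lower bound
-/

set_option autoImplicit false
set_option linter.unusedSectionVars false

namespace Pool.Agent.W458.St

open Module

namespace Side

variable {K S α β γ : Type} {Y : ℕ} [Fintype K] [DecidableEq K] [Fintype S] [DecidableEq S]
  [Fintype α] [DecidableEq α] [Fintype β] [DecidableEq β] [Fintype γ] [DecidableEq γ]

theorem sum_BC (D : Side K S α β γ Y) (φ : II K S Y α β γ → ℂ) (b : Hat S Y β) (c : Hat S Y γ) :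
    ∑ i, φ i * (D.ell i (0, b, 0) * D.ell i (0, 0, c))
      = ∑ p, φ (Sum.inl (Sum.inr (Sum.inl p))) * (uform D.KB p b * vform D.KB D.GBC p c) := by
  rw [Fintype.sum_sum_type]
  have h0 : ∑ i : (PP S Y α β γ ⊕ PP S Y α β γ) ⊕ (K ⊕ (K ⊕ K)), φ (Sum.inr i)
      * (D.ell (Sum.inr i) (0, b, 0) * D.ell (Sum.inr i) (0, 0, c)) = 0 := by
    refine Finset.sum_eq_zero ?_
    rintro (((p | p | p) | (p | p | p)) | (k | k | k)) _ <;> simp [ell, U, W, fa, fb, fc]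
  rw [h0, add_zero, Fintype.sum_sum_type]
  have h1 : ∑ i : PIdx S Y α, φ (Sum.inl (Sum.inl i))
      * (D.ell (Sum.inl (Sum.inl i)) (0, b, 0) * D.ell (Sum.inl (Sum.inl i)) (0, 0, c)) = 0 := by
    refine Finset.sum_eq_zero ?_
    intro p _
    simp [ell, U, W]
  rw [h1, zero_add, Fintype.sum_sum_type]
  have h2 : ∑ i : PIdx S Y γ, φ (Sum.inl (Sum.inr (Sum.inr i)))
      * (D.ell (Sum.inl (Sum.inr (Sum.inr i))) (0, b, 0)
        * D.ell (Sum.inl (Sum.inr (Sum.inr i))) (0, 0, c)) = 0 := by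
    refine Finset.sum_eq_zero ?_
    intro p _
    simp [ell, U, W]
  rw [h2, add_zero]
  refine Finset.sum_congr rfl fun p _ => ?_
  simp [ell, U, W]

theorem sum_AC (D : Side K S α β γ Y) (φ : II K S Y α β γ → ℂ) (a : Hat S Y α) (c : Hat S Y γ) :
    ∑ i, φ i * (D.ell i (a, 0, 0) * D.ell i (0, 0, c))
      = ∑ p, φ (Sum.inl (Sum.inr (Sum.inr p))) * (uform D.KC p c * vform D.KC D.GCA p a) := by
  rw [Fintype.sum_sum_type]
  have h0 : ∑ i : (PP S Y α β γ ⊕ PP S Y α β γ) ⊕ (K ⊕ (K ⊕ K)), φ (Sum.inr i)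
      * (D.ell (Sum.inr i) (a, 0, 0) * D.ell (Sum.inr i) (0, 0, c)) = 0 := by
    refine Finset.sum_eq_zero ?_
    rintro (((p | p | p) | (p | p | p)) | (k | k | k)) _ <;> simp [ell, U, W, fa, fb, fc]
  rw [h0, add_zero, Fintype.sum_sum_type]
  have h1 : ∑ i : PIdx S Y α, φ (Sum.inl (Sum.inl i))
      * (D.ell (Sum.inl (Sum.inl i)) (a, 0, 0) * D.ell (Sum.inl (Sum.inl i)) (0, 0, c)) = 0 := by
    refine Finset.sum_eq_zero ?_
    intro p _
    simp [ell, U, W]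
  rw [h1, zero_add, Fintype.sum_sum_type]
  have h2 : ∑ i : PIdx S Y β, φ (Sum.inl (Sum.inr (Sum.inl i)))
      * (D.ell (Sum.inl (Sum.inr (Sum.inl i))) (a, 0, 0)
        * D.ell (Sum.inl (Sum.inr (Sum.inl i))) (0, 0, c)) = 0 := by
    refine Finset.sum_eq_zero ?_
    intro p _
    simp [ell, U, W]
  rw [h2, zero_add]
  refine Finset.sum_congr rfl fun p _ => ?_
  simp only [ell, U, W, LinearMap.add_apply, LinearMap.comp_apply, LinearMap.fst_apply,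
    LinearMap.snd_apply, map_zero]
  ring

theorem sum_AB (D : Side K S α β γ Y) (φ : II K S Y α β γ → ℂ) (a : Hat S Y α) (b : Hat S Y β) :
    ∑ i, φ i * (D.ell i (a, 0, 0) * D.ell i (0, b, 0))
      = ∑ p, φ (Sum.inl (Sum.inl p)) * (uform D.KA p a * vform D.KA D.GAB p b) := by
  rw [Fintype.sum_sum_type]
  have h0 : ∑ i : (PP S Y α β γ ⊕ PP S Y α β γ) ⊕ (K ⊕ (K ⊕ K)), φ (Sum.inr i)
      * (D.ell (Sum.inr i) (a, 0, 0) * D.ell (Sum.inr i) (0, b, 0)) = 0 := by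
    refine Finset.sum_eq_zero ?_
    rintro (((p | p | p) | (p | p | p)) | (k | k | k)) _ <;> simp [ell, U, W, fa, fb, fc]
  rw [h0, add_zero, Fintype.sum_sum_type]
  have h1 : ∑ i : PIdx S Y β ⊕ PIdx S Y γ, φ (Sum.inl (Sum.inr i))
      * (D.ell (Sum.inl (Sum.inr i)) (a, 0, 0) * D.ell (Sum.inl (Sum.inr i)) (0, b, 0)) = 0 := by
    refine Finset.sum_eq_zero ?_
    rintro (p | p) _ <;> simp [ell, U, W]
  rw [h1, add_zero]
  refine Finset.sum_congr rfl fun p _ => ?_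
  simp [ell, U, W]

theorem T_restrict (D : Side K S α β γ Y) (a : Hat S Y α) (b : Hat S Y β) (c : Hat S Y γ) :
    D.T (a, 0, 0) (0, b, 0) (0, 0, c)
      = ∑ k, (∑ q, D.a k q * a.1 q) * (∑ q, D.b k q * b.1 q) * (∑ q, D.c k q * c.1 q) := by
  unfold T
  refine Finset.sum_congr rfl fun k _ => ?_
  simp [fa_apply, fb_apply, fc_apply]

theorem ext_sum {ι : Type} [Fintype ι] (J : ι → Prop) [DecidablePred J] (φ : {i // J i} → ℂ)
    (g : ι → ℂ) : ∑ i : {i // J i}, φ i * g i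
      = ∑ i, (if h : J i then φ ⟨i, h⟩ else 0) * g i := by
  rw [← Fintype.sum_subtype_add_sum_subtype J]
  have h0 : ∑ i : {i // ¬ J i}, (if h : J i then φ ⟨i, h⟩ else 0) * g i = 0 := by
    refine Finset.sum_eq_zero fun i _ => ?_
    rw [dif_neg i.2]; ring
  rw [h0, add_zero]
  refine Finset.sum_congr rfl fun i _ => ?_
  rw [dif_pos i.2]

/-- extension by zero of a family of coefficients -/
noncomputable def extMap {ι V : Type} [AddCommGroup V] [Module ℂ V] (J : ι → Prop)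
    [DecidablePred J] (φ : V →ₗ[ℂ] ({i // J i} → ℂ)) : V →ₗ[ℂ] (ι → ℂ) :=
  LinearMap.pi fun i => if h : J i then LinearMap.proj (⟨i, h⟩ : {i // J i}) ∘ₗ φ else 0

theorem extMap_apply {ι V : Type} [AddCommGroup V] [Module ℂ V] (J : ι → Prop)
    [DecidablePred J] (φ : V →ₗ[ℂ] ({i // J i} → ℂ)) (x : V) (i : ι) :
    extMap J φ x i = if h : J i then φ x ⟨i, h⟩ else 0 := by
  unfold extMap
  rw [LinearMap.pi_apply]
  split_ifs <;> rfl

theorem side_lower (D : Side K S α β γ Y)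
    (hKA : AlgebraicIndependent ℚ fun q : (Fin Y ⊕ α) × (Fin Y ⊕ α) => D.KA q.1 q.2)
    (hKB : AlgebraicIndependent ℚ fun q : (Fin Y ⊕ β) × (Fin Y ⊕ β) => D.KB q.1 q.2)
    (hKC : AlgebraicIndependent ℚ fun q : (Fin Y ⊕ γ) × (Fin Y ⊕ γ) => D.KC q.1 q.2)
    (J : II K S Y α β γ → Prop) [DecidablePred J]
    (hℓ : ∀ w : {i // J i} → ℂ, (∀ x x', ∑ i, w i * (D.ell i.1 x * D.ell i.1 x') = 0) → w = 0)
    (R : ℕ) (L : Fin R → (VV S Y α β γ × ({i // J i} → ℂ)) →ₗ[ℂ] ℂ)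
    (hL : ∀ z, D.F J z = ∑ k, (L k z) ^ 3) :
    ∃ ρ, R = 3 * Fintype.card {i // J i} + ρ ∧
      (3 * ρ + Fintype.card α + 4 ≤ Y → 3 * ρ + Fintype.card β + 4 ≤ Y →
        3 * ρ + Fintype.card γ + 4 ≤ Y → D.Md ρ) := by
  classical
  have hpol := polarised L (fun k => D.fa k ∘ₗ LinearMap.fst ℂ _ _)
    (fun k => D.fb k ∘ₗ LinearMap.fst ℂ _ _) (fun k => D.fc k ∘ₗ LinearMap.fst ℂ _ _)
    (fun i => LinearMap.proj i ∘ₗ LinearMap.snd ℂ _ _)
    (fun i : {i // J i} => D.ell i.1 ∘ₗ LinearMap.fst ℂ _ _) (fun z => by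
      rw [← hL z]
      simp only [F, LinearMap.comp_apply, LinearMap.fst_apply, LinearMap.snd_apply,
        LinearMap.proj_apply])
  obtain ⟨ρ, hR, φ1, φ2, φ3, u, v, w, h⟩ := adjoin_lower (fun i : {i // J i} => D.ell i.1) hℓ
    D.T L (by intro x y; simp [T]) (by intro x y; simp [T]) (by intro x y; simp [T]) (by
      intro z1 z2 z3
      exact hpol z1 z2 z3)
  rw [Fintype.card_fin] at hR
  refine ⟨ρ, hR, fun hYA hYB hYC => ?_⟩
  -- restriction
  let iA : Hat S Y α →ₗ[ℂ] VV S Y α β γ := LinearMap.inl ℂ _ _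
  let iB : Hat S Y β →ₗ[ℂ] VV S Y α β γ := LinearMap.inr ℂ _ _ ∘ₗ LinearMap.inl ℂ _ _
  let iC : Hat S Y γ →ₗ[ℂ] VV S Y α β γ := LinearMap.inr ℂ _ _ ∘ₗ LinearMap.inr ℂ _ _
  have hiA : ∀ a, iA a = (a, 0, 0) := fun a => rfl
  have hiB : ∀ b, iB b = (0, b, 0) := fun b => rfl
  have hiC : ∀ c, iC c = (0, 0, c) := fun c => rfl
  let T0 : (α → ℂ) → (β → ℂ) → (γ → ℂ) → ℂ := fun a b c =>
    ∑ k, (∑ q, D.a k q * a q) * (∑ q, D.b k q * b q) * (∑ q, D.c k q * c q)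
  let ψAB : Hat S Y γ →ₗ[ℂ] (PIdx S Y α → ℂ) :=
    (LinearMap.pi fun p => LinearMap.proj (Sum.inl (Sum.inl p))) ∘ₗ extMap J φ3 ∘ₗ iC
  let ψBC : Hat S Y α →ₗ[ℂ] (PIdx S Y β → ℂ) :=
    (LinearMap.pi fun p => LinearMap.proj (Sum.inl (Sum.inr (Sum.inl p)))) ∘ₗ extMap J φ1 ∘ₗ iA
  let ψCA : Hat S Y β →ₗ[ℂ] (PIdx S Y γ → ℂ) :=
    (LinearMap.pi fun p => LinearMap.proj (Sum.inl (Sum.inr (Sum.inr p)))) ∘ₗ extMap J φ2 ∘ₗ iB
  obtain ⟨θC, θA, θB, u', v', w', hh⟩ := gadget3 D.KA D.KB D.KC hKA hKB hKC hYA hYB hYC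
    D.GAB D.GBC D.GCA T0 (by intro b c; simp [T0]) (by intro a c; simp [T0])
    ψAB ψBC ψCA (fun l => u l ∘ₗ iA) (fun l => v l ∘ₗ iB) (fun l => w l ∘ₗ iC) (by
      intro a b c
      have h1 := h (iA a) (iB b) (iC c)
      simp only [LinearMap.comp_apply]
      rw [← h1, hiA, hiB, hiC, T_restrict]
      simp only [Finset.sum_add_distrib]
      rw [ext_sum J (φ1 (a, 0, 0)) (fun i => D.ell i (0, b, 0) * D.ell i (0, 0, c)),
        ext_sum J (φ2 (0, b, 0)) (fun i => D.ell i (a, 0, 0) * D.ell i (0, 0, c)),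
        ext_sum J (φ3 (0, 0, c)) (fun i => D.ell i (a, 0, 0) * D.ell i (0, b, 0)),
        sum_BC D (fun i => if h : J i then φ1 (a, 0, 0) ⟨i, h⟩ else 0),
        sum_AC D (fun i => if h : J i then φ2 (0, b, 0) ⟨i, h⟩ else 0),
        sum_AB D (fun i => if h : J i then φ3 (0, 0, c) ⟨i, h⟩ else 0)]
      simp only [ψAB, ψBC, ψCA, LinearMap.comp_apply, LinearMap.pi_apply, LinearMap.proj_apply,
        extMap_apply, hiA, hiB, hiC, T0]
      ring)
  refine ⟨fun s j => θC s (Pi.single j 1), fun s q => θA s (Pi.single q 1),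
    fun s i => θB s (Pi.single i 1), fun l q => u' l (Pi.single q 1),
    fun l i => v' l (Pi.single i 1), fun l j => w' l (Pi.single j 1), ?_⟩
  intro q i j
  have h2 := hh (Pi.single q 1) (Pi.single i 1) (Pi.single j 1)
  rw [← h2]
  simp only [T0, GAB, GBC, GCA]
  have s1 : ∀ {ι : Type} [Fintype ι] [DecidableEq ι] (x : ι → ℂ) (i : ι),
      ∑ q, x q * (Pi.single i (1 : ℂ) : ι → ℂ) q = x i := by
    intro ι _ _ x i
    rw [Finset.sum_eq_single i]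
    · simp
    · intro b _ hb; rw [Pi.single_eq_of_ne hb]; ring
    · intro h; exact absurd (Finset.mem_univ _) h
  have s2 : ∀ {ι : Type} [Fintype ι] [DecidableEq ι] (x : ι → ℂ) (i : ι),
      ∑ q, (Pi.single i (1 : ℂ) : ι → ℂ) q * x q = x i := by
    intro ι _ _ x i
    rw [Finset.sum_eq_single i]
    · simp
    · intro b _ hb; rw [Pi.single_eq_of_ne hb]; ring
    · intro h; exact absurd (Finset.mem_univ _) h
  simp only [s1, s2]

end Side

end Pool.Agent.W458.St
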