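import Pool.Agent.W458.StI

/-!
# The upper bound for the sum of the two sides
-/

set_option autoImplicit false
set_option linter.unusedSectionVars false

namespace Pool.Agent.W458.St

open Module

/-- `F` is a sum of `R` cubes of linear forms. -/
def WD {V : Type} [AddCommGroup V] [Module ℂ V] (F : V → ℂ) (R : ℕ) : Prop :=
  ∃ L : Fin R → V →ₗ[ℂ] ℂ, ∀ z, F z = ∑ j, (L j z) ^ 3

theorem WD_of_fintype {V : Type} [AddCommGroup V] [Module ℂ V] (F : V → ℂ) {ι : Type}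
    [Fintype ι] (L : ι → V →ₗ[ℂ] ℂ) (h : ∀ z, F z = ∑ i, (L i z) ^ 3) :
    WD F (Fintype.card ι) := by
  refine ⟨fun j => L ((Fintype.equivFin ι).symm j), fun z => ?_⟩
  rw [h z]
  exact (Equiv.sum_comp (Fintype.equivFin ι).symm (fun i => (L i z) ^ 3)).symm

theorem WD_comp {V V' : Type} [AddCommGroup V] [Module ℂ V] [AddCommGroup V'] [Module ℂ V']
    (F : V → ℂ) (e : V' →ₗ[ℂ] V) {R : ℕ} (h : WD F R) : WD (fun z => F (e z)) R := by
  obtain ⟨L, hL⟩ := h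
  exact ⟨fun j => L j ∘ₗ e, fun z => hL (e z)⟩

/-- the functions `∑ m_j ℓ_j^2` -/
def MM {Z V ι : Type} [AddCommGroup Z] [Module ℂ Z] [AddCommGroup V] [Module ℂ V] [Fintype ι]
    (ℓ : ι → V →ₗ[ℂ] ℂ) (π : Z →ₗ[ℂ] V) : Submodule ℂ (Z → ℂ) where
  carrier := {f | ∃ m : ι → Z →ₗ[ℂ] ℂ, ∀ z, f z = ∑ j, m j z * (ℓ j (π z)) ^ 2}
  add_mem' := by
    rintro f g ⟨m, hm⟩ ⟨m', hm'⟩
    refine ⟨fun j => m j + m' j, fun z => ?_⟩
    simp only [Pi.add_apply, hm, hm', LinearMap.add_apply, add_mul, Finset.sum_add_distrib]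
  zero_mem' := ⟨fun _ => 0, fun z => by simp⟩
  smul_mem' := by
    rintro r f ⟨m, hm⟩
    refine ⟨fun j => r • m j, fun z => ?_⟩
    simp only [Pi.smul_apply, hm, LinearMap.smul_apply, smul_eq_mul, Finset.mul_sum, mul_assoc]

namespace Side

variable {K S α β γ : Type} {Y : ℕ} [Fintype K] [DecidableEq K] [Fintype S] [DecidableEq S]
  [Fintype α] [DecidableEq α] [Fintype β] [DecidableEq β] [Fintype γ] [DecidableEq γ]

variable {Z : Type} [AddCommGroup Z] [Module ℂ Z]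

theorem mem_sq (D : Side K S α β γ Y) (J : II K S Y α β γ → Prop) [Fintype {i // J i}]
    (hJ : ∀ i, ∃ d : {i // J i} → ℂ, ∀ x, (D.ell i x) ^ 2 = ∑ j, d j * (D.ell j.1 x) ^ 2)
    (π : Z →ₗ[ℂ] VV S Y α β γ) (m : Z →ₗ[ℂ] ℂ) (i : II K S Y α β γ) :
    (fun z => m z * (D.ell i (π z)) ^ 2) ∈ MM (fun j : {i // J i} => D.ell j.1) π := by
  obtain ⟨d, hd⟩ := hJ i
  refine ⟨fun j => d j • m, fun z => ?_⟩
  simp only [hd, Finset.mul_sum, LinearMap.smul_apply, smul_eq_mul]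
  refine Finset.sum_congr rfl fun j _ => by ring

theorem mem_uv (D : Side K S α β γ Y) (J : II K S Y α β γ → Prop) [Fintype {i // J i}]
    (hJ : ∀ i, ∃ d : {i // J i} → ℂ, ∀ x, (D.ell i x) ^ 2 = ∑ j, d j * (D.ell j.1 x) ^ 2)
    (π : Z →ₗ[ℂ] VV S Y α β γ) (m : Z →ₗ[ℂ] ℂ) (p : PP S Y α β γ) :
    (fun z => m z * (D.U p (π z) * D.W p (π z))) ∈ MM (fun j : {i // J i} => D.ell j.1) π := by
  have h1 := mem_sq D J hJ π ((1 / 2 : ℂ) • m) (Sum.inl p)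
  have h2 := mem_sq D J hJ π ((1 / 2 : ℂ) • m) (Sum.inr (Sum.inl (Sum.inl p)))
  have h3 := mem_sq D J hJ π ((1 / 2 : ℂ) • m) (Sum.inr (Sum.inl (Sum.inr p)))
  convert Submodule.sub_mem _ (Submodule.sub_mem _ h1 h2) h3 using 1
  funext z
  simp only [Pi.sub_apply, LinearMap.smul_apply, smul_eq_mul, ell, LinearMap.add_apply]
  ring

theorem mem_GAB (D : Side K S α β γ Y) (hK : D.KA.det ≠ 0) (J : II K S Y α β γ → Prop)
    [Fintype {i // J i}]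
    (hJ : ∀ i, ∃ d : {i // J i} → ℂ, ∀ x, (D.ell i x) ^ 2 = ∑ j, d j * (D.ell j.1 x) ^ 2)
    (π : Z →ₗ[ℂ] VV S Y α β γ) (m : Z →ₗ[ℂ] ℂ) (s : S) :
    (fun z => m z * ∑ t, (π z).1.1 t * ∑ t', D.GAB s t t' * (π z).2.1.1 t')
      ∈ MM (fun j : {i // J i} => D.ell j.1) π := by
  have h1 : (fun z => m z * ∑ t, (π z).1.1 t * ∑ t', D.GAB s t t' * (π z).2.1.1 t')
      = (∑ j : Fin Y ⊕ α, fun z => m z * (D.U (Sum.inl (Sum.inr (s, j))) (π z)
          * D.W (Sum.inl (Sum.inr (s, j))) (π z)))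
        - ∑ i : Fin Y, fun z => m z * (D.U (Sum.inl (Sum.inl (s, i))) (π z)
          * D.W (Sum.inl (Sum.inl (s, i))) (π z)) := by
    funext z
    rw [gadget_span D.KA hK D.GAB s (π z).1 (π z).2.1, mul_sub, Pi.sub_apply, Finset.sum_apply,
      Finset.sum_apply, Finset.mul_sum, Finset.mul_sum]
    rfl
  rw [h1]
  exact Submodule.sub_mem _ (Submodule.sum_mem _ fun j _ => mem_uv D J hJ π m _)
    (Submodule.sum_mem _ fun j _ => mem_uv D J hJ π m _)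

theorem mem_GBC (D : Side K S α β γ Y) (hK : D.KB.det ≠ 0) (J : II K S Y α β γ → Prop)
    [Fintype {i // J i}]
    (hJ : ∀ i, ∃ d : {i // J i} → ℂ, ∀ x, (D.ell i x) ^ 2 = ∑ j, d j * (D.ell j.1 x) ^ 2)
    (π : Z →ₗ[ℂ] VV S Y α β γ) (m : Z →ₗ[ℂ] ℂ) (s : S) :
    (fun z => m z * ∑ t, (π z).2.1.1 t * ∑ t', D.GBC s t t' * (π z).2.2.1 t')
      ∈ MM (fun j : {i // J i} => D.ell j.1) π := by
  have h1 : (fun z => m z * ∑ t, (π z).2.1.1 t * ∑ t', D.GBC s t t' * (π z).2.2.1 t')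
      = (∑ j : Fin Y ⊕ β, fun z => m z * (D.U (Sum.inr (Sum.inl (Sum.inr (s, j)))) (π z)
          * D.W (Sum.inr (Sum.inl (Sum.inr (s, j)))) (π z)))
        - ∑ i : Fin Y, fun z => m z * (D.U (Sum.inr (Sum.inl (Sum.inl (s, i)))) (π z)
          * D.W (Sum.inr (Sum.inl (Sum.inl (s, i)))) (π z)) := by
    funext z
    rw [gadget_span D.KB hK D.GBC s (π z).2.1 (π z).2.2, mul_sub, Pi.sub_apply,
      Finset.sum_apply, Finset.sum_apply, Finset.mul_sum, Finset.mul_sum]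
    rfl
  rw [h1]
  exact Submodule.sub_mem _ (Submodule.sum_mem _ fun j _ => mem_uv D J hJ π m _)
    (Submodule.sum_mem _ fun j _ => mem_uv D J hJ π m _)

theorem mem_GCA (D : Side K S α β γ Y) (hK : D.KC.det ≠ 0) (J : II K S Y α β γ → Prop)
    [Fintype {i // J i}]
    (hJ : ∀ i, ∃ d : {i // J i} → ℂ, ∀ x, (D.ell i x) ^ 2 = ∑ j, d j * (D.ell j.1 x) ^ 2)
    (π : Z →ₗ[ℂ] VV S Y α β γ) (m : Z →ₗ[ℂ] ℂ) (s : S) :
    (fun z => m z * ∑ t, (π z).2.2.1 t * ∑ t', D.GCA s t t' * (π z).1.1 t')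
      ∈ MM (fun j : {i // J i} => D.ell j.1) π := by
  have h1 : (fun z => m z * ∑ t, (π z).2.2.1 t * ∑ t', D.GCA s t t' * (π z).1.1 t')
      = (∑ j : Fin Y ⊕ γ, fun z => m z * (D.U (Sum.inr (Sum.inr (Sum.inr (s, j)))) (π z)
          * D.W (Sum.inr (Sum.inr (Sum.inr (s, j)))) (π z)))
        - ∑ i : Fin Y, fun z => m z * (D.U (Sum.inr (Sum.inr (Sum.inl (s, i)))) (π z)
          * D.W (Sum.inr (Sum.inr (Sum.inl (s, i)))) (π z)) := by
    funext z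
    rw [gadget_span D.KC hK D.GCA s (π z).2.2 (π z).1, mul_sub, Pi.sub_apply,
      Finset.sum_apply, Finset.sum_apply, Finset.mul_sum, Finset.mul_sum]
    rfl
  rw [h1]
  exact Submodule.sub_mem _ (Submodule.sum_mem _ fun j _ => mem_uv D J hJ π m _)
    (Submodule.sum_mem _ fun j _ => mem_uv D J hJ π m _)

theorem swap_sum {α' β' : Type} [Fintype α'] [Fintype β'] (y : K → S → ℂ) (a : K → α' → ℂ)
    (b : K → β' → ℂ) (m : S → ℂ) (za : α' → ℂ) (zb : β' → ℂ) :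
    ∑ k, (∑ s, y k s * m s) * ((∑ q, a k q * za q) * ∑ i, b k i * zb i)
      = ∑ s, m s * ∑ q, za q * ∑ i, (∑ k, y k s * (a k q * b k i)) * zb i := by
  have e1 : ∀ s, ∑ q, za q * ∑ i, (∑ k, y k s * (a k q * b k i)) * zb i
      = ∑ k, y k s * ((∑ q, a k q * za q) * ∑ i, b k i * zb i) := by
    intro s
    have hL : ∑ q, za q * ∑ i, (∑ k, y k s * (a k q * b k i)) * zb i
        = ∑ q, ∑ i, ∑ k, y k s * (a k q * za q) * (b k i * zb i) := by
      refine Finset.sum_congr rfl fun q _ => ?_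
      rw [Finset.mul_sum]
      refine Finset.sum_congr rfl fun i _ => ?_
      rw [Finset.sum_mul, Finset.mul_sum]
      refine Finset.sum_congr rfl fun k _ => by ring
    have hR : ∑ k, y k s * ((∑ q, a k q * za q) * ∑ i, b k i * zb i)
        = ∑ k, ∑ q, ∑ i, y k s * (a k q * za q) * (b k i * zb i) := by
      refine Finset.sum_congr rfl fun k _ => ?_
      rw [Finset.sum_mul_sum, Finset.mul_sum]
      refine Finset.sum_congr rfl fun q _ => ?_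
      rw [Finset.mul_sum]
      refine Finset.sum_congr rfl fun i _ => by ring
    rw [hL, hR, Finset.sum_comm (s := (Finset.univ : Finset K))]
    refine Finset.sum_congr rfl fun q _ => ?_
    rw [Finset.sum_comm]
  simp_rw [e1]
  have hP : ∀ P : K → ℂ, ∑ k, (∑ s, y k s * m s) * P k = ∑ s, m s * ∑ k, y k s * P k := by
    intro P
    simp_rw [Finset.sum_mul, Finset.mul_sum]
    rw [Finset.sum_comm]
    refine Finset.sum_congr rfl fun s _ => Finset.sum_congr rfl fun k _ => by ring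
  exact hP (fun k => (∑ q, a k q * za q) * ∑ i, b k i * zb i)

theorem mem_ab (D : Side K S α β γ Y) (hK : D.KA.det ≠ 0) (J : II K S Y α β γ → Prop)
    [Fintype {i // J i}]
    (hJ : ∀ i, ∃ d : {i // J i} → ℂ, ∀ x, (D.ell i x) ^ 2 = ∑ j, d j * (D.ell j.1 x) ^ 2)
    (π : Z →ₗ[ℂ] VV S Y α β γ) (m : S → Z →ₗ[ℂ] ℂ) :
    (fun z => ∑ k, (∑ s, D.y k s * m s z) * (D.fa k (π z) * D.fb k (π z)))
      ∈ MM (fun j : {i // J i} => D.ell j.1) π := by
  have h1 : (fun z => ∑ k, (∑ s, D.y k s * m s z) * (D.fa k (π z) * D.fb k (π z)))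
      = ∑ s, fun z => m s z * ∑ t, (π z).1.1 t * ∑ t', D.GAB s t t' * (π z).2.1.1 t' := by
    funext z
    rw [Finset.sum_apply]
    exact swap_sum D.y D.a D.b (fun s => m s z) _ _
  rw [h1]
  exact Submodule.sum_mem _ fun s _ => mem_GAB D hK J hJ π _ _

theorem mem_bc (D : Side K S α β γ Y) (hK : D.KB.det ≠ 0) (J : II K S Y α β γ → Prop)
    [Fintype {i // J i}]
    (hJ : ∀ i, ∃ d : {i // J i} → ℂ, ∀ x, (D.ell i x) ^ 2 = ∑ j, d j * (D.ell j.1 x) ^ 2)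
    (π : Z →ₗ[ℂ] VV S Y α β γ) (m : S → Z →ₗ[ℂ] ℂ) :
    (fun z => ∑ k, (∑ s, D.y k s * m s z) * (D.fb k (π z) * D.fc k (π z)))
      ∈ MM (fun j : {i // J i} => D.ell j.1) π := by
  have h1 : (fun z => ∑ k, (∑ s, D.y k s * m s z) * (D.fb k (π z) * D.fc k (π z)))
      = ∑ s, fun z => m s z * ∑ t, (π z).2.1.1 t * ∑ t', D.GBC s t t' * (π z).2.2.1 t' := by
    funext z
    rw [Finset.sum_apply]
    exact swap_sum D.y D.b D.c (fun s => m s z) _ _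
  rw [h1]
  exact Submodule.sum_mem _ fun s _ => mem_GBC D hK J hJ π _ _

theorem mem_ca (D : Side K S α β γ Y) (hK : D.KC.det ≠ 0) (J : II K S Y α β γ → Prop)
    [Fintype {i // J i}]
    (hJ : ∀ i, ∃ d : {i // J i} → ℂ, ∀ x, (D.ell i x) ^ 2 = ∑ j, d j * (D.ell j.1 x) ^ 2)
    (π : Z →ₗ[ℂ] VV S Y α β γ) (m : S → Z →ₗ[ℂ] ℂ) :
    (fun z => ∑ k, (∑ s, D.y k s * m s z) * (D.fc k (π z) * D.fa k (π z)))
      ∈ MM (fun j : {i // J i} => D.ell j.1) π := by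
  have h1 : (fun z => ∑ k, (∑ s, D.y k s * m s z) * (D.fc k (π z) * D.fa k (π z)))
      = ∑ s, fun z => m s z * ∑ t, (π z).2.2.1 t * ∑ t', D.GCA s t t' * (π z).1.1 t' := by
    funext z
    rw [Finset.sum_apply]
    exact swap_sum D.y D.c D.a (fun s => m s z) _ _
  rw [h1]
  exact Submodule.sum_mem _ fun s _ => mem_GCA D hK J hJ π _ _

theorem cube_mem (D : Side K S α β γ Y) (hKA : D.KA.det ≠ 0) (hKB : D.KB.det ≠ 0)
    (hKC : D.KC.det ≠ 0) (J : II K S Y α β γ → Prop) [Fintype {i // J i}]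
    (hJ : ∀ i, ∃ d : {i // J i} → ℂ, ∀ x, (D.ell i x) ^ 2 = ∑ j, d j * (D.ell j.1 x) ^ 2)
    (π : Z →ₗ[ℂ] VV S Y α β γ) (Yk : K → Z →ₗ[ℂ] ℂ) (m : S → Z →ₗ[ℂ] ℂ)
    (hY : ∀ k z, Yk k z = ∑ s, D.y k s * m s z) :
    (fun z => ∑ k, ((D.fa k (π z) + D.fb k (π z) + D.fc k (π z)) ^ 3
      - 6 * (D.fa k (π z) * D.fb k (π z) * D.fc k (π z))
      + 3 * (D.fa k (π z) + D.fb k (π z) + D.fc k (π z)) ^ 2 * Yk k z))
      ∈ MM (fun j : {i // J i} => D.ell j.1) π := by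
  have h1 : (fun z => ∑ k, ((D.fa k (π z) + D.fb k (π z) + D.fc k (π z)) ^ 3
      - 6 * (D.fa k (π z) * D.fb k (π z) * D.fc k (π z))
      + 3 * (D.fa k (π z) + D.fb k (π z) + D.fc k (π z)) ^ 2 * Yk k z))
      = (∑ k, fun z => (D.fa k ∘ₗ π + (3 : ℂ) • (D.fb k ∘ₗ π) + (3 : ℂ) • (D.fc k ∘ₗ π)
          + (3 : ℂ) • Yk k) z * (D.ell (Sum.inr (Sum.inr (Sum.inl k))) (π z)) ^ 2)
        + (∑ k, fun z => (D.fb k ∘ₗ π + (3 : ℂ) • (D.fa k ∘ₗ π) + (3 : ℂ) • (D.fc k ∘ₗ π)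
          + (3 : ℂ) • Yk k) z * (D.ell (Sum.inr (Sum.inr (Sum.inr (Sum.inl k)))) (π z)) ^ 2)
        + (∑ k, fun z => (D.fc k ∘ₗ π + (3 : ℂ) • (D.fa k ∘ₗ π) + (3 : ℂ) • (D.fb k ∘ₗ π)
          + (3 : ℂ) • Yk k) z * (D.ell (Sum.inr (Sum.inr (Sum.inr (Sum.inr k)))) (π z)) ^ 2)
        + (6 : ℂ) • (fun z => ∑ k, (∑ s, D.y k s * m s z) * (D.fa k (π z) * D.fb k (π z)))
        + (6 : ℂ) • (fun z => ∑ k, (∑ s, D.y k s * m s z) * (D.fb k (π z) * D.fc k (π z)))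
        + (6 : ℂ) • (fun z => ∑ k, (∑ s, D.y k s * m s z) * (D.fc k (π z) * D.fa k (π z))) := by
    funext z
    simp only [Pi.add_apply, Pi.smul_apply, Finset.sum_apply, smul_eq_mul, Finset.mul_sum,
      ← hY]
    rw [← Finset.sum_add_distrib, ← Finset.sum_add_distrib, ← Finset.sum_add_distrib,
      ← Finset.sum_add_distrib, ← Finset.sum_add_distrib]
    refine Finset.sum_congr rfl fun k _ => ?_
    simp only [ell, LinearMap.add_apply, LinearMap.smul_apply, LinearMap.comp_apply,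
      smul_eq_mul]
    ring
  rw [h1]
  refine Submodule.add_mem _ (Submodule.add_mem _ (Submodule.add_mem _ (Submodule.add_mem _
    (Submodule.add_mem _ ?_ ?_) ?_) ?_) ?_) ?_
  · exact Submodule.sum_mem _ fun k _ => mem_sq D J hJ π _ _
  · exact Submodule.sum_mem _ fun k _ => mem_sq D J hJ π _ _
  · exact Submodule.sum_mem _ fun k _ => mem_sq D J hJ π _ _
  · exact Submodule.smul_mem _ _ (mem_ab D hKA J hJ π m)
  · exact Submodule.smul_mem _ _ (mem_bc D hKB J hJ π m)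
  · exact Submodule.smul_mem _ _ (mem_ca D hKC J hJ π m)

end Side

end Pool.Agent.W458.St
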