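import Pool.Agent.W458.StJ
import Pool.Agent.W458.StK
import Pool.Agent.W458.StF

/-!
# Combination of the two sides
-/

set_option autoImplicit false
set_option linter.unusedSectionVars false

namespace Pool.Agent.W458.St

open Module

/-- coordinates -/
def crd {S : Type} {Y : ℕ} {α β γ : Type} : (α ⊕ (β ⊕ γ)) → VV S Y α β γ →ₗ[ℂ] ℂ
  | Sum.inl q => LinearMap.proj q ∘ₗ LinearMap.fst ℂ _ _ ∘ₗ LinearMap.fst ℂ _ _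
  | Sum.inr (Sum.inl q) =>
    LinearMap.proj q ∘ₗ LinearMap.fst ℂ _ _ ∘ₗ LinearMap.fst ℂ _ _ ∘ₗ LinearMap.snd ℂ _ _
  | Sum.inr (Sum.inr q) =>
    LinearMap.proj q ∘ₗ LinearMap.fst ℂ _ _ ∘ₗ LinearMap.snd ℂ _ _ ∘ₗ LinearMap.snd ℂ _ _

theorem three_cubes {Z : Type} [AddCommGroup Z] [Module ℂ Z] (u l : Z →ₗ[ℂ] ℂ) :
    ∃ L : Fin 3 → Z →ₗ[ℂ] ℂ, ∀ z, 3 * (u z * (l z) ^ 2) = ∑ i, (L i z) ^ 3 := by
  obtain ⟨lam, hlam⟩ := IsAlgClosed.exists_pow_nat_eq (1 / 2 : ℂ) (by norm_num : 0 < 3)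
  refine ⟨![lam • (u + l), lam • (u - l), -u], fun z => ?_⟩
  rw [Fin.sum_univ_three]
  simp only [Matrix.cons_val_zero, Matrix.cons_val_one, Matrix.cons_val, LinearMap.smul_apply,
    LinearMap.add_apply, LinearMap.sub_apply, LinearMap.neg_apply, smul_eq_mul, mul_pow, hlam]
  ring

section

variable {K α1 β1 γ1 α2 β2 γ2 : Type} {Y1 Y2 : ℕ} [Fintype K] [DecidableEq K]
  [Fintype α1] [DecidableEq α1] [Fintype β1] [DecidableEq β1] [Fintype γ1] [DecidableEq γ1]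
  [Fintype α2] [DecidableEq α2] [Fintype β2] [DecidableEq β2] [Fintype γ2] [DecidableEq γ2]

theorem sum_crd {S : Type} [Fintype S] [DecidableEq S] (D : Side K S α1 β1 γ1 Y1) (k : K)
    (z : VV S Y1 α1 β1 γ1) : D.fa k z + D.fb k z + D.fc k z
      = ∑ s, Sum.elim (D.a k) (Sum.elim (D.b k) (D.c k)) s * crd s z := by
  rw [Fintype.sum_sum_type, Fintype.sum_sum_type]
  simp only [Sum.elim_inl, Sum.elim_inr, Side.fa_apply, Side.fb_apply, Side.fc_apply]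
  rw [add_assoc]
  rfl

theorem upper (D1 : Side K (α2 ⊕ (β2 ⊕ γ2)) α1 β1 γ1 Y1)
    (D2 : Side K (α1 ⊕ (β1 ⊕ γ1)) α2 β2 γ2 Y2)
    (h1y : ∀ k, D1.y k = Sum.elim (D2.a k) (Sum.elim (D2.b k) (D2.c k)))
    (h2y : ∀ k, D2.y k = Sum.elim (D1.a k) (Sum.elim (D1.b k) (D1.c k)))
    (h1A : D1.KA.det ≠ 0) (h1B : D1.KB.det ≠ 0) (h1C : D1.KC.det ≠ 0)
    (h2A : D2.KA.det ≠ 0) (h2B : D2.KB.det ≠ 0) (h2C : D2.KC.det ≠ 0)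
    (J1 : II K (α2 ⊕ (β2 ⊕ γ2)) Y1 α1 β1 γ1 → Prop) [Fintype {i // J1 i}]
    (J2 : II K (α1 ⊕ (β1 ⊕ γ1)) Y2 α2 β2 γ2 → Prop) [Fintype {i // J2 i}]
    (hJ1 : ∀ i, ∃ d : {i // J1 i} → ℂ, ∀ x, (D1.ell i x) ^ 2 = ∑ j, d j * (D1.ell j.1 x) ^ 2)
    (hJ2 : ∀ i, ∃ d : {i // J2 i} → ℂ, ∀ x, (D2.ell i x) ^ 2 = ∑ j, d j * (D2.ell j.1 x) ^ 2) :
    WD (fun z : (VV (α2 ⊕ (β2 ⊕ γ2)) Y1 α1 β1 γ1 × ({i // J1 i} → ℂ))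
        × (VV (α1 ⊕ (β1 ⊕ γ1)) Y2 α2 β2 γ2 × ({i // J2 i} → ℂ)) => D1.F J1 z.1 + D2.F J2 z.2)
      (3 * Fintype.card {i // J1 i} + 3 * Fintype.card {i // J2 i} + Fintype.card K) := by
  classical
  let π1 : (VV (α2 ⊕ (β2 ⊕ γ2)) Y1 α1 β1 γ1 × ({i // J1 i} → ℂ))
        × (VV (α1 ⊕ (β1 ⊕ γ1)) Y2 α2 β2 γ2 × ({i // J2 i} → ℂ)) →ₗ[ℂ]
        VV (α2 ⊕ (β2 ⊕ γ2)) Y1 α1 β1 γ1 := LinearMap.fst ℂ _ _ ∘ₗ LinearMap.fst ℂ _ _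
  let π2 : (VV (α2 ⊕ (β2 ⊕ γ2)) Y1 α1 β1 γ1 × ({i // J1 i} → ℂ))
        × (VV (α1 ⊕ (β1 ⊕ γ1)) Y2 α2 β2 γ2 × ({i // J2 i} → ℂ)) →ₗ[ℂ]
        VV (α1 ⊕ (β1 ⊕ γ1)) Y2 α2 β2 γ2 := LinearMap.fst ℂ _ _ ∘ₗ LinearMap.snd ℂ _ _
  let w1 : {i // J1 i} → (VV (α2 ⊕ (β2 ⊕ γ2)) Y1 α1 β1 γ1 × ({i // J1 i} → ℂ))
        × (VV (α1 ⊕ (β1 ⊕ γ1)) Y2 α2 β2 γ2 × ({i // J2 i} → ℂ)) →ₗ[ℂ] ℂ :=
    fun j => LinearMap.proj j ∘ₗ LinearMap.snd ℂ _ _ ∘ₗ LinearMap.fst ℂ _ _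
  let w2 : {i // J2 i} → (VV (α2 ⊕ (β2 ⊕ γ2)) Y1 α1 β1 γ1 × ({i // J1 i} → ℂ))
        × (VV (α1 ⊕ (β1 ⊕ γ1)) Y2 α2 β2 γ2 × ({i // J2 i} → ℂ)) →ₗ[ℂ] ℂ :=
    fun j => LinearMap.proj j ∘ₗ LinearMap.snd ℂ _ _ ∘ₗ LinearMap.snd ℂ _ _
  obtain ⟨m1, hm1⟩ := D1.cube_mem h1A h1B h1C J1 hJ1 π1
    (fun k => D2.fa k ∘ₗ π2 + D2.fb k ∘ₗ π2 + D2.fc k ∘ₗ π2) (fun s => crd s ∘ₗ π2) (by
      intro k z
      rw [h1y]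
      exact sum_crd D2 k (π2 z))
  obtain ⟨m2, hm2⟩ := D2.cube_mem h2A h2B h2C J2 hJ2 π2
    (fun k => D1.fa k ∘ₗ π1 + D1.fb k ∘ₗ π1 + D1.fc k ∘ₗ π1) (fun s => crd s ∘ₗ π1) (by
      intro k z
      rw [h2y]
      exact sum_crd D1 k (π1 z))
  choose L1 hL1 using fun j : {i // J1 i} =>
    three_cubes (w1 j - (1 / 3 : ℂ) • m1 j) (D1.ell j.1 ∘ₗ π1)
  choose L2 hL2 using fun j : {i // J2 i} =>
    three_cubes (w2 j - (1 / 3 : ℂ) • m2 j) (D2.ell j.1 ∘ₗ π2)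
  have hc : 3 * Fintype.card {i // J1 i} + 3 * Fintype.card {i // J2 i} + Fintype.card K
      = Fintype.card (K ⊕ (({i // J1 i} × Fin 3) ⊕ ({i // J2 i} × Fin 3))) := by
    simp only [Fintype.card_sum, Fintype.card_prod, Fintype.card_fin]
    ring
  rw [hc]
  refine WD_of_fintype _ (Sum.elim (fun k => (D1.fa k ∘ₗ π1 + D1.fb k ∘ₗ π1 + D1.fc k ∘ₗ π1)
    + (D2.fa k ∘ₗ π2 + D2.fb k ∘ₗ π2 + D2.fc k ∘ₗ π2))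
    (Sum.elim (fun q => L1 q.1 q.2) (fun q => L2 q.1 q.2))) ?_
  intro z
  rw [Fintype.sum_sum_type, Fintype.sum_sum_type, Fintype.sum_prod_type, Fintype.sum_prod_type]
  simp only [Sum.elim_inl, Sum.elim_inr, ← hL1, ← hL2]
  have e1 := hm1 z
  have e2 := hm2 z
  have e3 : ∑ j, 3 * ((w1 j - (1 / 3 : ℂ) • m1 j) z * ((D1.ell j.1 ∘ₗ π1) z) ^ 2)
      = 3 * ∑ j, z.1.2 j * (D1.ell j.1 z.1.1) ^ 2 - ∑ j, m1 j z * (D1.ell j.1 (π1 z)) ^ 2 := by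
    rw [Finset.mul_sum, ← Finset.sum_sub_distrib]
    refine Finset.sum_congr rfl fun j _ => ?_
    simp only [w1, π1, LinearMap.sub_apply, LinearMap.smul_apply, LinearMap.comp_apply,
      LinearMap.proj_apply, LinearMap.fst_apply, LinearMap.snd_apply, smul_eq_mul]
    ring
  have e4 : ∑ j, 3 * ((w2 j - (1 / 3 : ℂ) • m2 j) z * ((D2.ell j.1 ∘ₗ π2) z) ^ 2)
      = 3 * ∑ j, z.2.2 j * (D2.ell j.1 z.2.1) ^ 2 - ∑ j, m2 j z * (D2.ell j.1 (π2 z)) ^ 2 := by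
    rw [Finset.mul_sum, ← Finset.sum_sub_distrib]
    refine Finset.sum_congr rfl fun j _ => ?_
    simp only [w2, π2, LinearMap.sub_apply, LinearMap.smul_apply, LinearMap.comp_apply,
      LinearMap.proj_apply, LinearMap.fst_apply, LinearMap.snd_apply, smul_eq_mul]
    ring
  rw [e3, e4, ← e1, ← e2]
  have e5 : ∑ k, (((D1.fa k ∘ₗ π1 + D1.fb k ∘ₗ π1 + D1.fc k ∘ₗ π1)
      + (D2.fa k ∘ₗ π2 + D2.fb k ∘ₗ π2 + D2.fc k ∘ₗ π2)) z) ^ 3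
      = ∑ k, ((D1.fa k (π1 z) + D1.fb k (π1 z) + D1.fc k (π1 z)) ^ 3
      - 6 * (D1.fa k (π1 z) * D1.fb k (π1 z) * D1.fc k (π1 z))
      + 3 * (D1.fa k (π1 z) + D1.fb k (π1 z) + D1.fc k (π1 z)) ^ 2
        * (D2.fa k ∘ₗ π2 + D2.fb k ∘ₗ π2 + D2.fc k ∘ₗ π2) z)
      + ∑ k, ((D2.fa k (π2 z) + D2.fb k (π2 z) + D2.fc k (π2 z)) ^ 3
      - 6 * (D2.fa k (π2 z) * D2.fb k (π2 z) * D2.fc k (π2 z))
      + 3 * (D2.fa k (π2 z) + D2.fb k (π2 z) + D2.fc k (π2 z)) ^ 2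
        * (D1.fa k ∘ₗ π1 + D1.fb k ∘ₗ π1 + D1.fc k ∘ₗ π1) z)
      + 6 * ∑ k, D1.fa k z.1.1 * D1.fb k z.1.1 * D1.fc k z.1.1
      + 6 * ∑ k, D2.fa k z.2.1 * D2.fb k z.2.1 * D2.fc k z.2.1 := by
    rw [Finset.mul_sum, Finset.mul_sum, ← Finset.sum_add_distrib, ← Finset.sum_add_distrib,
      ← Finset.sum_add_distrib]
    refine Finset.sum_congr rfl fun k _ => ?_
    simp only [π1, π2, LinearMap.add_apply, LinearMap.comp_apply, LinearMap.fst_apply,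
      LinearMap.snd_apply]
    ring
  rw [e5]
  simp only [Side.F]
  ring

end

end Pool.Agent.W458.St
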