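import Pool.Agent.W458.StL

/-!
# Failure of additivity, in terms of linear forms on a vector space
-/

set_option autoImplicit false
set_option linter.unusedSectionVars false

namespace Pool.Agent.W458.St

open Module

/-- instance helper -/
@[reducible] def fintypeII (K S : Type) (Y : ℕ) (α β γ : Type) [Fintype K] [Fintype S]
    [Fintype α] [Fintype β] [Fintype γ] : Fintype (II K S Y α β γ) := inferInstance

theorem exists_J {K S α β γ : Type} {Y : ℕ} [Fintype K] [DecidableEq K] [Fintype S]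
    [DecidableEq S] [Fintype α] [DecidableEq α] [Fintype β] [DecidableEq β] [Fintype γ]
    [DecidableEq γ] (D : Side K S α β γ Y) :
    ∃ (J : II K S Y α β γ → Prop) (_ : DecidablePred J),
      (∀ w : {i // J i} → ℂ, (∀ x x', ∑ i, w i * (D.ell i.1 x * D.ell i.1 x') = 0) → w = 0) ∧
      (∀ i, ∃ d : {i // J i} → ℂ, ∀ x, (D.ell i x) ^ 2 = ∑ j, d j * (D.ell j.1 x) ^ 2) := by
  classical
  obtain ⟨J, hli, hspan⟩ := exists_sub (M := VV S Y α β γ → VV S Y α β γ → ℂ)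
    (fun i x x' => D.ell i x * D.ell i x')
  refine ⟨J, Classical.decPred J, ?_, ?_⟩
  · intro w hw
    have h1 := Fintype.linearIndependent_iff.mp hli w (by
      funext x x'
      simp only [Finset.sum_apply, Pi.smul_apply, smul_eq_mul, Pi.zero_apply]
      rw [← hw x x'])
    funext i
    exact h1 i
  · intro i
    obtain ⟨d, hd⟩ := (Submodule.mem_span_range_iff_exists_fun ℂ).mp (hspan i)
    refine ⟨d, fun x => ?_⟩
    have := congrFun (congrFun hd x) x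
    simp only [Finset.sum_apply, Pi.smul_apply, smul_eq_mul] at this
    rw [pow_two, ← this]
    refine Finset.sum_congr rfl fun _ _ => by ring

theorem core_abs {V1 V2 : Type} [AddCommGroup V1] [Module ℂ V1] [FiniteDimensional ℂ V1]
    [Nontrivial V1] [AddCommGroup V2] [Module ℂ V2] [FiniteDimensional ℂ V2]
    (G1 : V1 → ℂ) (G2 : V2 → ℂ) (hG1 : G1 0 = 0) (hG2 : G2 0 = 0) (R : ℕ)
    (hup : WD (fun z : V1 × V2 => G1 z.1 + G2 z.2) R)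
    (hlow : ∀ r1 r2, WD G1 r1 → WD G2 r2 → R < r1 + r2) :
    ∃ (N R : ℕ) (F1 F2 : (Fin (N + 1) → ℂ) → ℂ), F1 0 = 0 ∧ F2 0 = 0 ∧
      WD (fun z : (Fin (N + 1) → ℂ) × (Fin (N + 1) → ℂ) => F1 z.1 + F2 z.2) R ∧
      ∀ r1 r2, WD F1 r1 → WD F2 r2 → R < r1 + r2 := by
  have hpos : 0 < finrank ℂ (V1 × V2) := finrank_pos
  obtain ⟨N, hN⟩ : ∃ N, finrank ℂ (V1 × V2) = N + 1 := ⟨finrank ℂ (V1 × V2) - 1, by omega⟩
  let e : (Fin (N + 1) → ℂ) ≃ₗ[ℂ] V1 × V2 := LinearEquiv.ofFinrankEq _ _ (by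
    rw [hN]; simp)
  refine ⟨N, R, fun z => G1 (e z).1, fun z => G2 (e z).2, ?_, ?_, ?_, ?_⟩
  · simp only [map_zero, Prod.fst_zero]; exact hG1
  · simp only [map_zero, Prod.snd_zero]; exact hG2
  · exact WD_comp _ ((LinearMap.prodMap (LinearMap.fst ℂ V1 V2 ∘ₗ e.toLinearMap)
      (LinearMap.snd ℂ V1 V2 ∘ₗ e.toLinearMap))) hup
  · intro r1 r2 h1 h2
    refine hlow r1 r2 ?_ ?_
    · have := WD_comp _ (e.symm.toLinearMap ∘ₗ LinearMap.inl ℂ V1 V2) h1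
      convert this using 1
      funext z
      simp
    · have := WD_comp _ (e.symm.toLinearMap ∘ₗ LinearMap.inr ℂ V1 V2) h2
      convert this using 1
      funext z
      simp

/-- The combination theorem. -/
theorem combine {K α1 β1 γ1 α2 β2 γ2 : Type} {Y1 Y2 : ℕ} [Fintype K] [DecidableEq K]
    [Fintype α1] [DecidableEq α1] [Fintype β1] [DecidableEq β1] [Fintype γ1] [DecidableEq γ1]
    [Fintype α2] [DecidableEq α2] [Fintype β2] [DecidableEq β2] [Fintype γ2] [DecidableEq γ2]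
    [Nonempty α1]
    (D1 : Side K (α2 ⊕ (β2 ⊕ γ2)) α1 β1 γ1 Y1)
    (D2 : Side K (α1 ⊕ (β1 ⊕ γ1)) α2 β2 γ2 Y2)
    (h1y : ∀ k, D1.y k = Sum.elim (D2.a k) (Sum.elim (D2.b k) (D2.c k)))
    (h2y : ∀ k, D2.y k = Sum.elim (D1.a k) (Sum.elim (D1.b k) (D1.c k)))
    (h1A : AlgebraicIndependent ℚ fun q : (Fin Y1 ⊕ α1) × (Fin Y1 ⊕ α1) => D1.KA q.1 q.2)
    (h1B : AlgebraicIndependent ℚ fun q : (Fin Y1 ⊕ β1) × (Fin Y1 ⊕ β1) => D1.KB q.1 q.2)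
    (h1C : AlgebraicIndependent ℚ fun q : (Fin Y1 ⊕ γ1) × (Fin Y1 ⊕ γ1) => D1.KC q.1 q.2)
    (h2A : AlgebraicIndependent ℚ fun q : (Fin Y2 ⊕ α2) × (Fin Y2 ⊕ α2) => D2.KA q.1 q.2)
    (h2B : AlgebraicIndependent ℚ fun q : (Fin Y2 ⊕ β2) × (Fin Y2 ⊕ β2) => D2.KB q.1 q.2)
    (h2C : AlgebraicIndependent ℚ fun q : (Fin Y2 ⊕ γ2) × (Fin Y2 ⊕ γ2) => D2.KC q.1 q.2)
    (hY1A : 3 * Fintype.card K + Fintype.card α1 + 4 ≤ Y1)
    (hY1B : 3 * Fintype.card K + Fintype.card β1 + 4 ≤ Y1)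
    (hY1C : 3 * Fintype.card K + Fintype.card γ1 + 4 ≤ Y1)
    (hY2A : 3 * Fintype.card K + Fintype.card α2 + 4 ≤ Y2)
    (hY2B : 3 * Fintype.card K + Fintype.card β2 + 4 ≤ Y2)
    (hY2C : 3 * Fintype.card K + Fintype.card γ2 + 4 ≤ Y2)
    (hmain : ∀ ρ1 ρ2, ρ1 + ρ2 ≤ Fintype.card K → D1.Md ρ1 → D2.Md ρ2 → False) :
    ∃ (N R : ℕ) (F1 F2 : (Fin (N + 1) → ℂ) → ℂ), F1 0 = 0 ∧ F2 0 = 0 ∧
      WD (fun z : (Fin (N + 1) → ℂ) × (Fin (N + 1) → ℂ) => F1 z.1 + F2 z.2) R ∧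
      ∀ r1 r2, WD F1 r1 → WD F2 r2 → R < r1 + r2 := by
  let f1 := fintypeII K (α2 ⊕ (β2 ⊕ γ2)) Y1 α1 β1 γ1
  let f2 := fintypeII K (α1 ⊕ (β1 ⊕ γ1)) Y2 α2 β2 γ2
  obtain ⟨J1, hd1, hli1, hsp1⟩ := exists_J D1
  obtain ⟨J2, hd2, hli2, hsp2⟩ := exists_J D2
  have hup := upper D1 D2 h1y h2y (det_ne_zero_of_algInd _ h1A) (det_ne_zero_of_algInd _ h1B)
    (det_ne_zero_of_algInd _ h1C) (det_ne_zero_of_algInd _ h2A) (det_ne_zero_of_algInd _ h2B)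
    (det_ne_zero_of_algInd _ h2C) J1 J2 hsp1 hsp2
  have hF1 : D1.F J1 0 = 0 := by simp [Side.F]
  have hF2 : D2.F J2 0 = 0 := by simp [Side.F]
  have i1 : Nontrivial (Hat (α2 ⊕ (β2 ⊕ γ2)) Y1 α1) :=
    nontrivial_prod_left
  have i2 : Nontrivial (VV (α2 ⊕ (β2 ⊕ γ2)) Y1 α1 β1 γ1) :=
    nontrivial_prod_left
  have i3 : Nontrivial (VV (α2 ⊕ (β2 ⊕ γ2)) Y1 α1 β1 γ1 × ({i // J1 i} → ℂ)) :=
    nontrivial_prod_left
  refine core_abs (D1.F J1) (D2.F J2) hF1 hF2 _ hup ?_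
  rintro r1 r2 ⟨L1, hL1⟩ ⟨L2, hL2⟩
  obtain ⟨ρ1, hρ1, hM1⟩ := D1.side_lower h1A h1B h1C J1 hli1 r1 L1 hL1
  obtain ⟨ρ2, hρ2, hM2⟩ := D2.side_lower h2A h2B h2C J2 hli2 r2 L2 hL2
  by_contra hcon
  have hle : ρ1 + ρ2 ≤ Fintype.card K := by omega
  exact hmain ρ1 ρ2 hle (hM1 (by omega) (by omega) (by omega))
    (hM2 (by omega) (by omega) (by omega))

end Pool.Agent.W458.St
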