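import Pool.Agent.W458.StM

/-!
# The counterexample in terms of functions on `ℂ^(N+1)`
-/

set_option autoImplicit false
set_option linter.unusedSectionVars false

namespace Pool.Agent.W458.St

open Module

theorem ya_mem {p : ℕ} (t : Fin p → Fin p → Fin p → ℂ) (k : K3 p) (l : Fin p) :
    ya t k l ∈ Fld (Set.range fun m : Fin p × Fin p × Fin p => t m.1 m.2.1 m.2.2) := by
  rcases k with ⟨i, j⟩ | ⟨i, j⟩ | ⟨i, j⟩
  · exact IntermediateField.subset_adjoin _ _ ⟨(l, i, j), rfl⟩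
  · simp only [ya]
    split_ifs
    · exact one_mem _
    · exact zero_mem _
  · simp only [ya]
    split_ifs
    · exact one_mem _
    · exact zero_mem _

theorem yb_mem {p : ℕ} (s : Set ℂ) (k : K3 p) (l : Fin p) : yb k l ∈ Fld s := by
  rcases k with ⟨i, j⟩ | ⟨i, j⟩ | ⟨i, j⟩
  · simp only [yb]
    split_ifs
    · exact one_mem _
    · exact zero_mem _
  · exact zero_mem _
  · simp only [yb]
    split_ifs
    · exact one_mem _
    · exact zero_mem _

theorem yc_mem {p : ℕ} (s : Set ℂ) (k : K3 p) (l : Fin p) : yc k l ∈ Fld s := by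
  rcases k with ⟨i, j⟩ | ⟨i, j⟩ | ⟨i, j⟩
  · simp only [yc]
    split_ifs
    · exact one_mem _
    · exact zero_mem _
  · simp only [yc]
    split_ifs
    · exact one_mem _
    · exact zero_mem _
  · exact zero_mem _

theorem core_of (p c0 n nA : ℕ) (hnA : 0 < nA) (hn : 3 * (p * p) < n * c0)
    (hnum : ∀ ρ1 ρ2, ρ1 + ρ2 ≤ 3 * (p * p) →
      nA * (3 * (p * p)) ≤ (nA + n + c0) * (ρ1 + 3 * p)
        + nA * (2 * (3 * p) * c0 + c0 + 3 * p) →
      p * p * p ≤ 3 * p * ρ2 + 3 * p * (nA + n + c0) → False) :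
    ∃ (N R : ℕ) (F1 F2 : (Fin (N + 1) → ℂ) → ℂ), F1 0 = 0 ∧ F2 0 = 0 ∧
      WD (fun z : (Fin (N + 1) → ℂ) × (Fin (N + 1) → ℂ) => F1 z.1 + F2 z.2) R ∧
      ∀ r1 r2, WD F1 r1 → WD F2 r2 → R < r1 + r2 := by
  have : Nonempty (Fin nA) := ⟨⟨0, hnA⟩⟩
  have hcK : Fintype.card (K3 p) = 3 * (p * p) := by
    simp only [Fintype.card_sum, Fintype.card_prod, Fintype.card_fin]
    ring
  obtain ⟨z, hz⟩ := exists_algebraicIndependent
    ((K3 p × (Fin nA ⊕ (Fin n ⊕ Fin c0))) ⊕ (Fin p × Fin p × Fin p))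
  let t : Fin p → Fin p → Fin p → ℂ := fun l i j => z (Sum.inr (l, i, j))
  let x : K3 p → (Fin nA ⊕ (Fin n ⊕ Fin c0)) → ℂ := fun k q => z (Sum.inl (k, q))
  let Y1 : ℕ := 3 * (3 * (p * p)) + (nA + n + c0) + 4
  let Y2 : ℕ := 3 * (3 * (p * p)) + p + 4
  obtain ⟨k1A, h1A⟩ := exists_algebraicIndependent ((Fin Y1 ⊕ Fin nA) × (Fin Y1 ⊕ Fin nA))
  obtain ⟨k1B, h1B⟩ := exists_algebraicIndependent ((Fin Y1 ⊕ Fin n) × (Fin Y1 ⊕ Fin n))
  obtain ⟨k1C, h1C⟩ := exists_algebraicIndependent ((Fin Y1 ⊕ Fin c0) × (Fin Y1 ⊕ Fin c0))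
  obtain ⟨k2, h2⟩ := exists_algebraicIndependent ((Fin Y2 ⊕ Fin p) × (Fin Y2 ⊕ Fin p))
  let D1 : Side (K3 p) (Fin p ⊕ (Fin p ⊕ Fin p)) (Fin nA) (Fin n) (Fin c0) Y1 :=
    { a := fun k q => x k (Sum.inl q)
      b := fun k q => x k (Sum.inr (Sum.inl q))
      c := fun k q => x k (Sum.inr (Sum.inr q))
      y := fun k => Sum.elim (ya t k) (Sum.elim (yb k) (yc k))
      KA := fun i j => k1A (i, j)
      KB := fun i j => k1B (i, j)
      KC := fun i j => k1C (i, j) }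
  let D2 : Side (K3 p) (Fin nA ⊕ (Fin n ⊕ Fin c0)) (Fin p) (Fin p) (Fin p) Y2 :=
    { a := ya t
      b := yb
      c := yc
      y := x
      KA := fun i j => k2 (i, j)
      KB := fun i j => k2 (i, j)
      KC := fun i j => k2 (i, j) }
  have h1y : ∀ k, D1.y k = Sum.elim (D2.a k) (Sum.elim (D2.b k) (D2.c k)) := fun k => rfl
  have h2y : ∀ k, D2.y k = Sum.elim (D1.a k) (Sum.elim (D1.b k) (D1.c k)) := by
    intro k
    funext q
    rcases q with q | q | q <;> rfl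
  refine combine D1 D2 h1y h2y h1A h1B h1C h2 h2 h2 ?_ ?_ ?_ ?_ ?_ ?_ ?_
  · rw [hcK, Fintype.card_fin]; omega
  · rw [hcK, Fintype.card_fin]; omega
  · rw [hcK, Fintype.card_fin]; omega
  · rw [hcK, Fintype.card_fin]
  · rw [hcK, Fintype.card_fin]
  · rw [hcK, Fintype.card_fin]
  · intro ρ1 ρ2 hle hM1 hM2
    rw [hcK] at hle
    refine hnum ρ1 ρ2 hle ?_ ?_
    · obtain ⟨θC, θA, θB, u, v, w, h⟩ := hM1
      let inj : (K3 p × Fin nA) ⊕ ((K3 p × Fin n) ⊕ ((K3 p × Fin c0) ⊕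
          (Fin p × Fin p × Fin p))) →
          (K3 p × (Fin nA ⊕ (Fin n ⊕ Fin c0))) ⊕ (Fin p × Fin p × Fin p) :=
        Sum.elim (fun q => Sum.inl (q.1, Sum.inl q.2))
          (Sum.elim (fun q => Sum.inl (q.1, Sum.inr (Sum.inl q.2)))
            (Sum.elim (fun q => Sum.inl (q.1, Sum.inr (Sum.inr q.2))) Sum.inr))
      have hinj : Function.Injective inj := by
        rintro (⟨a, b⟩ | ⟨a, b⟩ | ⟨a, b⟩ | q) (⟨a', b'⟩ | ⟨a', b'⟩ | ⟨a', b'⟩ | q') hh <;>
          simp [inj] at hh ⊢ <;> exact hh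
      have hz1 := hz.comp inj hinj
      have hz2 : AlgebraicIndependent ℚ (Sum.elim (fun q : K3 p × Fin nA => D1.a q.1 q.2)
          (Sum.elim (fun q : K3 p × Fin n => D1.b q.1 q.2)
          (Sum.elim (fun q : K3 p × Fin c0 => D1.c q.1 q.2)
            (fun m : Fin p × Fin p × Fin p => t m.1 m.2.1 m.2.2)))) := by
        convert hz1 using 1
        funext q
        rcases q with q | q | q | q <;> rfl
      have := T1_bound D1.a D1.b D1.c (fun m : Fin p × Fin p × Fin p => t m.1 m.2.1 m.2.2) D1.y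
        (by
          intro k s
          rcases s with s | s | s
          · exact ya_mem t k s
          · exact yb_mem _ k s
          · exact yc_mem _ k s) hz2 (by
          rw [hcK, Fintype.card_fin, Fintype.card_fin]; exact hn) θC θA θB u v w h
      simp only [hcK, Fintype.card_fin, Fintype.card_sum] at this
      have e1 : p + (p + p) = 3 * p := by ring
      rw [e1] at this
      exact this
    · obtain ⟨θC, θA, θB, u, v, w, h⟩ := hM2
      have hz3 : AlgebraicIndependent ℚ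
          (Sum.elim (fun q : K3 p × (Fin nA ⊕ (Fin n ⊕ Fin c0)) => x q.1 q.2)
          (fun m : Fin p × Fin p × Fin p => t m.1 m.2.1 m.2.2)) := by
        convert hz using 1
        funext q
        rcases q with q | q <;> rfl
      have := T2_bound t x hz3 θC θA θB u v w h
      simp only [Fintype.card_fin, Fintype.card_sum] at this
      have e1 : nA + (n + c0) = nA + n + c0 := by ring
      rw [e1] at this
      exact this

theorem core : ∃ (N R : ℕ) (F1 F2 : (Fin (N + 1) → ℂ) → ℂ), F1 0 = 0 ∧ F2 0 = 0 ∧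
      WD (fun z : (Fin (N + 1) → ℂ) × (Fin (N + 1) → ℂ) => F1 z.1 + F2 z.2) R ∧
      ∀ r1 r2, WD F1 r1 → WD F2 r2 → R < r1 + r2 := by
  refine core_of 63000 630 18900001 378000020 (by norm_num) (by norm_num) ?_
  intro ρ1 ρ2 h1 h2 h3
  norm_num at h1 h2 h3
  omega

end Pool.Agent.W458.St
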